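import Pool.Agent.R222.BHB.Cover

open MeasureTheory Set Topology
open scoped ENNReal ContDiff

namespace Pool.Agent.R222.BHB

variable {n : ℕ}

lemma rpow_sum_le {ι : Type*} (F : Finset ι) (f : ι → ℝ) (hf : ∀ i ∈ F, 0 ≤ f i) {p : ℝ}
    (hp : 0 < p) (hp1 : p ≤ 1) : (∑ i ∈ F, f i) ^ p ≤ ∑ i ∈ F, f i ^ p := by
  classical
  induction F using Finset.induction_on with
  | empty => simp [Real.zero_rpow hp.ne']
  | insert a F ha ih =>
    rw [Finset.sum_insert ha, Finset.sum_insert ha]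
    have h1 : 0 ≤ f a := hf a (Finset.mem_insert_self _ _)
    have h2 : ∀ i ∈ F, 0 ≤ f i := fun i hi => hf i (Finset.mem_insert_of_mem hi)
    refine (Real.rpow_add_le_add_rpow h1 (Finset.sum_nonneg h2) hp.le hp1).trans ?_
    have := ih h2
    linarith

/-- amplitudes -/
lemma amp (C : Finset (Dy n)) (r : Dy n → Dy n → Prop) (hr : ∀ Q' Q, r Q' Q → Q'.1 < Q.1)
    {a : ℝ} (ha : 0 ≤ a) : ∃ A : Dy n → ℝ, (∀ Q, 1 ≤ A Q) ∧
      ∀ Q, A Q = 1 + a * ∑ Q' ∈ by classical exact C.filter (fun Q' => r Q' Q), A Q' := by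
  classical
  let f : ℕ → Dy n → ℝ := fun i => Nat.rec (fun _ => 1)
    (fun _ g Q => 1 + a * ∑ Q' ∈ C.filter (fun Q' => r Q' Q), g Q') i
  have f0 : ∀ Q, f 0 Q = 1 := fun Q => rfl
  have fs : ∀ i Q, f (i+1) Q = 1 + a * ∑ Q' ∈ C.filter (fun Q' => r Q' Q), f i Q' :=
    fun i Q => rfl
  have f1 : ∀ i Q, 1 ≤ f i Q := by
    intro i
    induction i with
    | zero => intro Q; rw [f0]
    | succ i ih =>
      intro Q
      rw [fs]
      have : 0 ≤ ∑ Q' ∈ C.filter (fun Q' => r Q' Q), f i Q' :=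
        Finset.sum_nonneg fun Q' _ => zero_le_one.trans (ih Q')
      have := mul_nonneg ha this
      linarith
  have key : ∀ m, ∀ Q : Dy n, Q.1 = m → ∀ i, Q.1 < i → f i Q = f (Q.1 + 1) Q := by
    intro m
    induction m using Nat.strong_induction_on with
    | _ m ih =>
      intro Q hQ i hi
      obtain ⟨i', rfl⟩ : ∃ i', i = i' + 1 := ⟨i - 1, by omega⟩
      rw [fs, fs]
      congr 2
      refine Finset.sum_congr rfl fun Q' hQ' => ?_
      have h1 := hr Q' Q (Finset.mem_filter.1 hQ').2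
      rw [ih Q'.1 (by omega) Q' rfl i' (by omega), ih Q'.1 (by omega) Q' rfl Q.1 (by omega)]
  refine ⟨fun Q => f (Q.1 + 1) Q, fun Q => f1 (Q.1 + 1) Q, fun Q => ?_⟩
  simp only
  rw [fs]
  congr 2
  refine Finset.sum_congr ?_ fun Q' hQ' => ?_
  · ext; simp
  · have h1 := hr Q' Q (by simpa using (Finset.mem_filter.1 hQ').2)
    exact key Q'.1 Q' rfl Q.1 h1

lemma amp_sum (C : Finset (Dy n)) (r : Dy n → Dy n → Prop) [DecidableRel r] {a p κ : ℝ}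
    (ha : 0 ≤ a) (hp : 0 < p) (hp1 : p ≤ 1) (A : Dy n → ℝ) (hA1 : ∀ Q, 1 ≤ A Q)
    (hA : ∀ Q, A Q = 1 + a * ∑ Q' ∈ C.filter (fun Q' => r Q' Q), A Q')
    (c : Dy n → ℝ) (hc : ∀ Q, 0 ≤ c Q)
    (hsum : ∀ Q' ∈ C, ∑ Q ∈ C.filter (fun Q => r Q' Q), c Q ≤ κ * c Q')
    (hκ : a ^ p * κ ≤ 1 / 2) :
    ∑ Q ∈ C, A Q ^ p * c Q ≤ 2 * ∑ Q ∈ C, c Q := by
  have hA0 : ∀ Q, 0 ≤ A Q := fun Q => zero_le_one.trans (hA1 Q)
  have hap : 0 ≤ a ^ p := Real.rpow_nonneg ha _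
  have h1 : ∀ Q, A Q ^ p ≤ 1 + a ^ p * ∑ Q' ∈ C.filter (fun Q' => r Q' Q), A Q' ^ p := by
    intro Q
    rw [hA Q]
    refine (Real.rpow_add_le_add_rpow zero_le_one
      (mul_nonneg ha (Finset.sum_nonneg fun Q' _ => hA0 Q')) hp.le hp1).trans ?_
    rw [Real.one_rpow, Real.mul_rpow ha (Finset.sum_nonneg fun Q' _ => hA0 Q')]
    have := rpow_sum_le (C.filter (fun Q' => r Q' Q)) A (fun i _ => hA0 i) hp hp1
    have := mul_le_mul_of_nonneg_left this hap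
    linarith
  have h2 : ∑ Q ∈ C, A Q ^ p * c Q ≤ ∑ Q ∈ C, c Q +
      a ^ p * ∑ Q ∈ C, ∑ Q' ∈ C.filter (fun Q' => r Q' Q), A Q' ^ p * c Q := by
    rw [Finset.mul_sum, ← Finset.sum_add_distrib]
    refine Finset.sum_le_sum fun Q _ => ?_
    have := mul_le_mul_of_nonneg_right (h1 Q) (hc Q)
    rw [← Finset.sum_mul]
    linarith
  have h3 : ∑ Q ∈ C, ∑ Q' ∈ C.filter (fun Q' => r Q' Q), A Q' ^ p * c Q =
      ∑ Q' ∈ C, A Q' ^ p * ∑ Q ∈ C.filter (fun Q => r Q' Q), c Q := by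
    simp_rw [Finset.mul_sum, Finset.sum_filter]
    rw [Finset.sum_comm]
  have h4 : ∑ Q' ∈ C, A Q' ^ p * ∑ Q ∈ C.filter (fun Q => r Q' Q), c Q ≤
      κ * ∑ Q' ∈ C, A Q' ^ p * c Q' := by
    rw [Finset.mul_sum]
    refine Finset.sum_le_sum fun Q' hQ' => ?_
    have := mul_le_mul_of_nonneg_left (hsum Q' hQ') (Real.rpow_nonneg (hA0 Q') p)
    linarith
  set X := ∑ Q ∈ C, A Q ^ p * c Q with hX
  have hX0 : 0 ≤ X := Finset.sum_nonneg fun Q _ => mul_nonneg (Real.rpow_nonneg (hA0 Q) p) (hc Q)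
  rw [h3] at h2
  have h5 := mul_le_mul_of_nonneg_left h4 hap
  have h6 : a ^ p * (κ * X) ≤ 1 / 2 * X := by
    rw [← mul_assoc]
    exact mul_le_mul_of_nonneg_right hκ hX0
  linarith

/-- derivative bounds under affine scaling -/
lemma norm_iteratedFDeriv_scale {b : (Fin n → ℝ) → ℝ} (hb : ContDiff ℝ ∞ b) (H : ℝ)
    (k : Fin n → ℝ) (m : ℕ) {C : ℝ} (h : ∀ y, ‖iteratedFDeriv ℝ m b y‖ ≤ C) (x : Fin n → ℝ) :
    ‖iteratedFDeriv ℝ m (fun x => b (fun i => H * x i - k i)) x‖ ≤ |H| ^ m * C := by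
  have h1 : (fun x : Fin n → ℝ => b (fun i => H * x i - k i)) =
      fun x => (fun y => b (y - k)) (H • x) := by
    ext x; rfl
  rw [h1]
  have hb' : ContDiff ℝ m (fun y => b (y - k)) :=
    (hb.comp (contDiff_id.sub contDiff_const)).of_le (by exact_mod_cast le_top)
  have h2 := congrFun (iteratedFDeriv_comp_const_smul (𝕜 := ℝ) H hb') x
  rw [h2, norm_smul, norm_pow, Real.norm_eq_abs]
  refine mul_le_mul_of_nonneg_left ?_ (by positivity)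
  have h3 := iteratedFDeriv_comp_sub (𝕜 := ℝ) (f := b) m k (H • x)
  rw [h3]
  exact h _

end Pool.Agent.R222.BHB
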