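import Pool.Agent.R222.BHB.Haus

open MeasureTheory Set Topology
open scoped ENNReal NNReal

namespace Pool.Agent.R222.BHB

variable {n : ℕ}

/-- ENNReal weights -/
noncomputable def ew (s : ℝ) (j : ℕ) : ℝ≥0∞ := ENNReal.ofReal (wt s j)

lemma ew_add (s : ℝ) (i j : ℕ) : ew s (i + j) = ew s i * ew s j := by
  rw [ew, wt_add, ENNReal.ofReal_mul (wt_pos _ _).le, ew, ew]

lemma ew_add' (s t : ℝ) (j : ℕ) : ew (s + t) j = ew s j * ew t j := by
  rw [ew, wt_add', ENNReal.ofReal_mul (wt_pos _ _).le, ew, ew]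

lemma ew_anti {s t : ℝ} (h : s ≤ t) (j : ℕ) : ew t j ≤ ew s j := by
  apply ENNReal.ofReal_le_ofReal
  rw [wt, wt]
  apply Real.rpow_le_rpow_of_exponent_le (by norm_num)
  have : (0:ℝ) ≤ j := by positivity
  nlinarith

/-- geometric sum -/
noncomputable def geo (A : ℝ) : ℝ≥0∞ := ∑' i : ℕ, ew A i

lemma geo_lt_top {A : ℝ} (hA : 0 < A) : geo A < ⊤ := by
  have h1 : ∀ i : ℕ, ew A i = (ENNReal.ofReal ((2:ℝ) ^ (-A))) ^ i := by
    intro i
    rw [ew, ← ENNReal.ofReal_pow (Real.rpow_nonneg (by norm_num) _), wt, ← Real.rpow_natCast,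
      ← Real.rpow_mul (by norm_num)]
    congr 2; ring
  rw [geo]
  simp_rw [h1]
  rw [ENNReal.tsum_geometric]
  rw [ENNReal.inv_lt_top, tsub_pos_iff_lt]
  rw [← ENNReal.ofReal_one]
  apply (ENNReal.ofReal_lt_ofReal_iff one_pos).2
  exact Real.rpow_lt_one_of_one_lt_of_neg (by norm_num) (by linarith)

lemma fun_dy_eq (f : Dy n → ℝ≥0∞) (j : ℕ) (x : Fin n → ℝ) :
    f (dy j x) = ∑' k : Fin n → ℤ, (cube (j, k)).indicator (fun _ => f (j, k)) x := by
  rw [tsum_eq_single (dy j x).2]
  · rw [indicator_of_mem]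
    · rfl
    · exact mem_cube_dy j x
  · intro k hk
    apply indicator_of_notMem
    intro h
    apply hk
    rw [mem_cube_iff] at h
    exact (congrArg Prod.snd h).symm

lemma measurable_dy (f : Dy n → ℝ≥0∞) (j : ℕ) : Measurable (fun x => f (dy j x)) := by
  have : (fun x => f (dy j x)) =
      fun x => ∑' k : Fin n → ℤ, (cube (j, k)).indicator (fun _ => f (j, k)) x := by
    ext x; exact fun_dy_eq f j x
  rw [this]
  exact Measurable.tsum fun k => measurable_const.indicator (measurableSet_cube _)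

lemma lint_level (f : Dy n → ℝ≥0∞) (j : ℕ) :
    ∫⁻ x, f (dy j x) = ∑' k : Fin n → ℤ, f (j, k) * ew n j := by
  simp_rw [fun_dy_eq f j]
  rw [lintegral_tsum (fun k => (measurable_const.indicator (measurableSet_cube _)).aemeasurable)]
  refine tsum_congr fun k => ?_
  rw [lintegral_indicator_const (measurableSet_cube _), vol_cube]
  rfl

lemma tsum_wt (f : Dy n → ℝ≥0∞) :
    ∑' Q : Dy n, f Q * ew n Q.1 = ∫⁻ x, ∑' j, f (dy j x) := by
  rw [ENNReal.tsum_prod', lintegral_tsum (fun j => (measurable_dy f j).aemeasurable)]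
  refine tsum_congr fun j => ?_
  rw [lint_level]

/-- translation as an equivalence -/
def trEquiv (e : Fin n → ℤ) : Dy n ≃ Dy n where
  toFun := tr e
  invFun := tr (-e)
  left_inv := by intro Q; simp [tr]
  right_inv := by intro Q; simp [tr]

@[simp] lemma tr_fst (e : Fin n → ℤ) (Q : Dy n) : (tr e Q).1 = Q.1 := rfl

lemma tsum_tr (e : Fin n → ℤ) (g : Dy n → ℝ≥0∞) : ∑' Q, g (tr e Q) = ∑' Q, g Q :=
  (trEquiv e).tsum_eq g

/-- the neighbourhood vectors -/
noncomputable def E3 (n : ℕ) : Finset (Fin n → ℤ) := Fintype.piFinset (fun _ : Fin n => Finset.Icc (-3:ℤ) 3)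

lemma anc_snd {m : ℕ} {Q : Dy n} (h : m ≤ Q.1) (i : Fin n) :
    (anc m Q).2 i = Q.2 i / ((2 ^ (Q.1 - m) : ℕ) : ℤ) := by
  rw [anc, dy_snd_div h, dy_corner]

lemma anc_tr {m : ℕ} {Q : Dy n} (h : m ≤ Q.1) {e : Fin n → ℤ} (he : e ∈ E3 n) :
    ∃ e' ∈ E3 n, anc m (tr e Q) = tr e' (anc m Q) := by
  refine ⟨fun i => (anc m (tr e Q)).2 i - (anc m Q).2 i, ?_, ?_⟩
  · rw [E3, Fintype.mem_piFinset] at he ⊢
    intro i
    have h1 := Finset.mem_Icc.1 (he i)
    rw [Finset.mem_Icc, anc_snd (Q := tr e Q) h, anc_snd h]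
    show -3 ≤ (Q.2 i + e i) / ((2 ^ (Q.1 - m) : ℕ) : ℤ) - _ ∧
      (Q.2 i + e i) / ((2 ^ (Q.1 - m) : ℕ) : ℤ) - _ ≤ 3
    set D : ℤ := ((2 ^ (Q.1 - m) : ℕ) : ℤ) with hD
    have hD1 : 1 ≤ D := by rw [hD]; exact_mod_cast Nat.one_le_two_pow
    have hD0 : 0 < D := by omega
    have a1 : (Q.2 i + e i) / D ≤ Q.2 i / D + 3 := by
      rw [← Int.add_mul_ediv_right _ _ hD0.ne']
      apply Int.ediv_le_ediv hD0
      nlinarith [h1.2]
    have a2 : Q.2 i / D + (-3) ≤ (Q.2 i + e i) / D := by
      rw [← Int.add_mul_ediv_right _ _ hD0.ne']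
      apply Int.ediv_le_ediv hD0
      nlinarith [h1.1]
    constructor <;> linarith
  · refine Prod.ext rfl ?_
    funext i
    show (anc m (tr e Q)).2 i = (anc m Q).2 i + ((anc m (tr e Q)).2 i - (anc m Q).2 i)
    ring

/-- prefix maximum -/
noncomputable def pmax (c : Dy n → ℝ≥0∞) (Q : Dy n) : ℝ≥0∞ :=
  (Finset.range (Q.1 + 1)).sup fun m => c (anc m Q)

/-- increments of the prefix maximum -/
noncomputable def inc (c : Dy n → ℝ≥0∞) (Q : Dy n) : ℝ≥0∞ :=
  if Q.1 = 0 then pmax c Q else pmax c Q - pmax c (anc (Q.1 - 1) Q)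

lemma le_pmax (c : Dy n → ℝ≥0∞) (Q : Dy n) : c Q ≤ pmax c Q := by
  have h := Finset.le_sup (f := fun m => c (anc m Q)) (Finset.mem_range.2 (Nat.lt_succ_self Q.1))
  simp only [anc_self] at h
  exact h

lemma pmax_anc (c : Dy n → ℝ≥0∞) {m : ℕ} {Q : Dy n} (h : m ≤ Q.1) :
    pmax c (anc m Q) = (Finset.range (m + 1)).sup fun i => c (anc i Q) := by
  rw [pmax, anc_fst]
  refine Finset.sup_congr rfl fun i hi => ?_
  rw [anc_anc]
  have := Finset.mem_range.1 hi
  omega

lemma sum_inc (c : Dy n → ℝ≥0∞) (Q : Dy n) : ∀ m ≤ Q.1,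
    ∑ i ∈ Finset.range (m + 1), inc c (anc i Q) = pmax c (anc m Q) := by
  intro m
  induction m with
  | zero =>
    intro _
    simp [inc]
  | succ m ih =>
    intro hm
    rw [Finset.sum_range_succ, ih (by omega), inc, if_neg (by rw [anc_fst]; omega)]
    simp only [anc_fst, Nat.add_sub_cancel]
    rw [anc_anc (by omega)]
    apply add_tsub_cancel_of_le
    rw [pmax_anc c hm, pmax_anc c (by omega : m ≤ Q.1)]
    apply Finset.sup_mono
    intro i hi
    rw [Finset.mem_range] at hi ⊢
    omega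

lemma sum_inc_dy (c : Dy n → ℝ≥0∞) (j : ℕ) (x : Fin n → ℝ) :
    ∑ i ∈ Finset.range (j + 1), inc c (dy i x) ≤ ⨆ i, c (dy i x) := by
  have h1 : ∀ i ∈ Finset.range (j + 1), inc c (dy i x) = inc c (anc i (dy j x)) := by
    intro i hi
    rw [anc_dy]
    have := Finset.mem_range.1 hi
    omega
  rw [Finset.sum_congr rfl h1, sum_inc c (dy j x) j le_rfl,
    pmax_anc c (m := j) (Q := dy j x) le_rfl]
  apply Finset.sup_le
  intro i hi
  rw [anc_dy (by have := Finset.mem_range.1 hi; omega)]
  exact le_iSup (fun i => c (dy i x)) i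

lemma tsum_inc_le (c : Dy n → ℝ≥0∞) :
    ∑' Q : Dy n, inc c Q * ew n Q.1 ≤ ∫⁻ x, ⨆ i, c (dy i x) := by
  rw [tsum_wt]
  apply lintegral_mono
  intro x
  simp only
  rw [ENNReal.tsum_eq_iSup_nat]
  apply iSup_le
  intro j
  rcases j with _ | j
  · simp
  · exact sum_inc_dy c j x

/-- the quantity coming from the analysis: sums over cubes near `x`, with the scale `J` -/
noncomputable def Phi (A γ : ℝ) (J : ℕ) (c : Dy n → ℝ≥0∞) (x : Fin n → ℝ) : ℝ≥0∞ :=
  ∑ j ∈ Finset.range (J + 1), ∑ e ∈ E3 n, ew A j * c (tr e (dy j x)) +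
  ∑ e ∈ E3 n, ∑' Q : Dy n, (open Classical in
    if J < Q.1 ∧ anc J Q = tr e (dy J x) then ew A Q.1 * ew γ (Q.1 - J) * c Q else 0)

lemma tsum_shift (J : ℕ) (f : ℕ → ℝ≥0∞) :
    ∑' j : ℕ, (if J < j then f (j - J) else 0) ≤ ∑' i, f i := by
  have h1 : ∀ j : ℕ, (if J < j then f (j - J) else 0) ≤
      ∑' i : ℕ, (if j = i + J then f i else 0) := by
    intro j
    split_ifs with h
    · refine le_trans ?_ (ENNReal.le_tsum (j - J))
      rw [if_pos (by omega)]
    · exact bot_le
  refine (ENNReal.tsum_le_tsum h1).trans ?_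
  rw [ENNReal.tsum_comm]
  refine ENNReal.tsum_le_tsum fun i => ?_
  rw [tsum_ite_eq]

theorem tree_bound {A γ s : ℝ} (hA : 0 < A) (hAs : n ≤ A + s) (hγ : s < γ) :
    ∃ C : ℝ≥0∞, C < ⊤ ∧ ∀ (c : Dy n → ℝ≥0∞) (J : ℕ), ∃ t : Dy n → ℝ≥0∞,
      (∀ x, Phi A γ J c x ≤ ∑' m, t (dy m x)) ∧
      ∑' R : Dy n, t R * ew s R.1 ≤ C * ∫⁻ x, ⨆ i, c (dy i x) := by
  classical
  set N : ℝ≥0∞ := ((E3 n).card : ℝ≥0∞) with hN
  have hNtop : N < ⊤ := by rw [hN]; exact ENNReal.natCast_lt_top _
  refine ⟨N * N * geo A + N * geo (γ - s), ?_, ?_⟩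
  · have h1 := geo_lt_top hA
    have h2 := geo_lt_top (A := γ - s) (by linarith)
    exact ENNReal.add_lt_top.2 ⟨ENNReal.mul_lt_top (ENNReal.mul_lt_top hNtop hNtop) h1,
      ENNReal.mul_lt_top hNtop h2⟩
  intro c J
  set D := ∫⁻ x, ⨆ i, c (dy i x) with hD
  set g : Dy n → ℝ≥0∞ := fun Q => ew A Q.1 * ew γ (Q.1 - J) * c Q with hg
  set t1 : Dy n → ℝ≥0∞ := fun R => N * geo A * ew A R.1 * ∑ e ∈ E3 n, inc c (tr e R) with ht1
  set t2 : Dy n → ℝ≥0∞ := fun R => ∑ e ∈ E3 n, ∑' Q : Dy n,
    (if J < Q.1 ∧ anc J Q = tr e R then g Q else 0) with ht2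
  refine ⟨fun R => t1 R + t2 R, ?_, ?_⟩
  · intro x
    rw [ENNReal.tsum_add, Phi]
    refine add_le_add ?_ ?_
    · -- coarse part
      refine le_trans ?_ (ENNReal.sum_le_tsum (Finset.range (J + 1)))
      set Dm : ℕ → ℝ≥0∞ := fun m => ∑ e ∈ E3 n, inc c (tr e (dy m x)) with hDm
      have h1 : ∀ j, ∀ e ∈ E3 n, c (tr e (dy j x)) ≤ ∑ m ∈ Finset.range (j + 1), Dm m := by
        intro j e he
        refine (le_pmax c _).trans ?_
        have h2 := sum_inc c (tr e (dy j x)) j le_rfl
        have h3 : anc j (tr e (dy j x)) = tr e (dy j x) := anc_self (tr e (dy j x))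
        rw [h3] at h2
        rw [← h2]
        refine Finset.sum_le_sum fun m hm => ?_
        have hmj : m ≤ j := by have := Finset.mem_range.1 hm; omega
        obtain ⟨e', he', h4⟩ := anc_tr (Q := dy j x) (m := m) hmj he
        rw [h4, anc_dy hmj]
        exact Finset.single_le_sum (f := fun e => inc c (tr e (dy m x))) (fun _ _ => bot_le) he'
      calc ∑ j ∈ Finset.range (J + 1), ∑ e ∈ E3 n, ew A j * c (tr e (dy j x))
          ≤ ∑ j ∈ Finset.range (J + 1), ∑ _e ∈ E3 n, ew A j * ∑ m ∈ Finset.range (j + 1), Dm m := by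
            refine Finset.sum_le_sum fun j _ => Finset.sum_le_sum fun e he => ?_
            exact mul_le_mul_right (h1 j e he) _
        _ = N * ∑ j ∈ Finset.range (J + 1), ∑ m ∈ Finset.range (J + 1),
              (if m ≤ j then ew A j * Dm m else 0) := by
            rw [Finset.mul_sum]
            refine Finset.sum_congr rfl fun j hj => ?_
            rw [Finset.sum_const, nsmul_eq_mul, ← hN]
            congr 1
            rw [← Finset.sum_filter, Finset.mul_sum]
            refine Finset.sum_congr ?_ fun _ _ => rfl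
            ext m
            rw [Finset.mem_filter, Finset.mem_range, Finset.mem_range]
            have := Finset.mem_range.1 hj
            omega
        _ = N * ∑ m ∈ Finset.range (J + 1), (∑ j ∈ Finset.Ico m (J + 1), ew A j) * Dm m := by
            rw [Finset.sum_comm]
            congr 1
            refine Finset.sum_congr rfl fun m _ => ?_
            rw [← Finset.sum_filter, Finset.sum_mul]
            refine Finset.sum_congr ?_ fun _ _ => rfl
            ext j
            rw [Finset.mem_filter, Finset.mem_range, Finset.mem_Ico]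
            omega
        _ ≤ N * ∑ m ∈ Finset.range (J + 1), (ew A m * geo A) * Dm m := by
            refine mul_le_mul_right ?_ _
            refine Finset.sum_le_sum fun m _ => ?_
            refine mul_le_mul_left ?_ _
            rw [Finset.sum_Ico_eq_sum_range, geo, ← ENNReal.tsum_mul_left]
            refine le_trans (Finset.sum_le_sum fun i _ => (ew_add A m i).le) ?_
            exact ENNReal.sum_le_tsum _
        _ = ∑ m ∈ Finset.range (J + 1), t1 (dy m x) := by
            rw [Finset.mul_sum]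
            refine Finset.sum_congr rfl fun m _ => ?_
            rw [ht1]
            simp only [dy_fst]
            ring
    · exact ENNReal.le_tsum (f := fun m => t2 (dy m x)) J
  · -- the cost
    have hc1 : ∑' R : Dy n, t1 R * ew s R.1 ≤ N * N * geo A * D := by
      have h1 : ∀ R : Dy n, t1 R * ew s R.1 ≤
          ∑ e ∈ E3 n, N * geo A * (inc c (tr e R) * ew n (tr e R).1) := by
        intro R
        rw [ht1]
        simp only [tr_fst]
        rw [← Finset.mul_sum, ← Finset.sum_mul]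
        have h2 : ew A R.1 * ew s R.1 ≤ ew n R.1 := by
          rw [← ew_add']; exact ew_anti hAs _
        calc N * geo A * ew A R.1 * (∑ e ∈ E3 n, inc c (tr e R)) * ew s R.1
            = N * geo A * ((∑ e ∈ E3 n, inc c (tr e R)) * (ew A R.1 * ew s R.1)) := by ring
          _ ≤ N * geo A * ((∑ e ∈ E3 n, inc c (tr e R)) * ew n R.1) := by gcongr
      refine (ENNReal.tsum_le_tsum h1).trans ?_
      rw [Summable.tsum_finsetSum (fun _ _ => ENNReal.summable)]
      have h3 : ∀ e ∈ E3 n, ∑' R : Dy n, N * geo A * (inc c (tr e R) * ew n (tr e R).1) ≤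
          N * geo A * D := by
        intro e _
        rw [tsum_tr e (fun Q => N * geo A * (inc c Q * ew n Q.1)), ENNReal.tsum_mul_left]
        exact mul_le_mul_right (tsum_inc_le c) _
      refine (Finset.sum_le_sum h3).trans ?_
      rw [Finset.sum_const, nsmul_eq_mul, ← hN]
      exact le_of_eq (by ring)
    have hc2 : ∑' R : Dy n, t2 R * ew s R.1 ≤ N * geo (γ - s) * D := by
      have h1 : ∀ R : Dy n, t2 R * ew s R.1 = ∑ e ∈ E3 n, ∑' Q : Dy n,
          (if J < Q.1 ∧ anc J Q = tr e R then g Q * ew s (tr e R).1 else 0) := by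
        intro R
        rw [ht2]
        simp only [tr_fst]
        rw [Finset.sum_mul]
        refine Finset.sum_congr rfl fun e _ => ?_
        rw [← ENNReal.tsum_mul_right]
        refine tsum_congr fun Q => ?_
        split_ifs <;> simp
      simp_rw [h1]
      rw [Summable.tsum_finsetSum (fun _ _ => ENNReal.summable)]
      have h2 : ∀ e ∈ E3 n, ∑' R : Dy n, ∑' Q : Dy n,
          (if J < Q.1 ∧ anc J Q = tr e R then g Q * ew s (tr e R).1 else 0) ≤
          geo (γ - s) * D := by
        intro e _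
        rw [tsum_tr e (fun R => ∑' Q : Dy n,
          (if J < Q.1 ∧ anc J Q = R then g Q * ew s R.1 else 0)), ENNReal.tsum_comm]
        have h3 : ∀ Q : Dy n, ∑' R : Dy n,
            (if J < Q.1 ∧ anc J Q = R then g Q * ew s R.1 else 0) ≤
            (if J < Q.1 then ew (γ - s) (Q.1 - J) * (c Q * ew n Q.1) else 0) := by
          intro Q
          rw [tsum_eq_single (anc J Q)]
          · by_cases hJ : J < Q.1
            · simp only [hJ, true_and, if_true, anc_fst]
              rw [hg]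
              simp only
              have h4 : ew s Q.1 = ew s J * ew s (Q.1 - J) := by
                rw [← ew_add]; congr 1; omega
              have h5 : ew γ (Q.1 - J) = ew s (Q.1 - J) * ew (γ - s) (Q.1 - J) := by
                rw [← ew_add']; congr 1; ring
              calc ew A Q.1 * ew γ (Q.1 - J) * c Q * ew s J
                  = ew (γ - s) (Q.1 - J) * (c Q * (ew A Q.1 * ew s Q.1)) := by
                    rw [h4, h5]; ring
                _ ≤ ew (γ - s) (Q.1 - J) * (c Q * ew n Q.1) := by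
                    gcongr
                    rw [← ew_add']; exact ew_anti hAs _
            · simp [hJ]
          · intro R hR
            rw [if_neg]
            rintro ⟨_, h⟩
            exact hR h.symm
        refine (ENNReal.tsum_le_tsum h3).trans ?_
        rw [ENNReal.tsum_prod']
        simp only
        have h6 : ∀ j : ℕ, ∑' k : Fin n → ℤ,
            (if J < j then ew (γ - s) (j - J) * (c (j, k) * ew n j) else 0) ≤
            (if J < j then ew (γ - s) (j - J) * D else 0) := by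
          intro j
          by_cases hJ : J < j
          · simp only [hJ, if_true]
            rw [ENNReal.tsum_mul_left, ← lint_level]
            refine mul_le_mul_right ?_ _
            apply lintegral_mono
            intro x
            exact le_iSup (fun i => c (dy i x)) j
          · simp [hJ]
        refine (ENNReal.tsum_le_tsum h6).trans ?_
        rw [geo, ← ENNReal.tsum_mul_right]
        exact tsum_shift J (fun i => ew (γ - s) i * D)
      refine (Finset.sum_le_sum h2).trans ?_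
      rw [Finset.sum_const, nsmul_eq_mul, ← hN]
      exact le_of_eq (by ring)
    calc ∑' R : Dy n, (t1 R + t2 R) * ew s R.1
        = ∑' R : Dy n, t1 R * ew s R.1 + ∑' R : Dy n, t2 R * ew s R.1 := by
          rw [← ENNReal.tsum_add]
          refine tsum_congr fun R => by ring
      _ ≤ N * N * geo A * D + N * geo (γ - s) * D := add_le_add hc1 hc2
      _ = _ := by ring

end Pool.Agent.R222.BHB
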