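import Pool.Agent.R222.BHB.Pair
import Pool.Agent.R222.BHB.Carl
import Pool.Agent.R222.BHB.Amp

open MeasureTheory Set Topology
open scoped ENNReal NNReal ContDiff

namespace Pool.Agent.R222.BHB

variable {n : ℕ}

lemma enn_rpow_sum_le {ι : Type*} (F : Finset ι) (a : ι → ℝ≥0∞) {p : ℝ} (hp : 0 < p)
    (hp1 : p ≤ 1) : (∑ i ∈ F, a i) ^ p ≤ ∑ i ∈ F, a i ^ p := by
  classical
  induction F using Finset.induction_on with
  | empty => simp [ENNReal.zero_rpow_of_pos hp]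
  | insert b F hb ih =>
    rw [Finset.sum_insert hb, Finset.sum_insert hb]
    exact (ENNReal.rpow_add_le_add_rpow _ _ hp.le hp1).trans (add_le_add le_rfl ih)

lemma enn_rpow_tsum_le {ι : Type*} (a : ι → ℝ≥0∞) {p : ℝ} (hp : 0 < p) (hp1 : p ≤ 1) :
    (∑' i, a i) ^ p ≤ ∑' i, a i ^ p := by
  have h : ∑' i, a i ≤ (∑' i, a i ^ p) ^ p⁻¹ := by
    rw [ENNReal.tsum_eq_iSup_sum]
    apply iSup_le
    intro F
    rw [ENNReal.le_rpow_inv_iff hp]
    exact (enn_rpow_sum_le F a hp hp1).trans (ENNReal.sum_le_tsum F)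
  exact (ENNReal.le_rpow_inv_iff hp).1 h

/-- the mollifier -/
noncomputable def eta (n : ℕ) : (Fin n → ℝ) → ℝ :=
  (⟨1/2, 1, by norm_num, by norm_num⟩ : ContDiffBump (0 : Fin n → ℝ)).normed volume

lemma eta_contDiff : ContDiff ℝ ∞ (eta n) := ContDiffBump.contDiff_normed _
lemma eta_nonneg (x : Fin n → ℝ) : 0 ≤ eta n x := ContDiffBump.nonneg_normed _ _
lemma eta_integral : ∫ x, eta n x = 1 := ContDiffBump.integral_normed _
lemma eta_hcs : HasCompactSupport (eta n) := ContDiffBump.hasCompactSupport_normed _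
lemma eta_supp {x : Fin n → ℝ} (h : eta n x ≠ 0) (i : Fin n) : |x i| < 1 := by
  have h1 : x ∈ Function.support (eta n) := h
  rw [eta, ContDiffBump.support_normed_eq] at h1
  have h2 : ‖x‖ < 1 := by simpa using h1
  exact (norm_le_pi_norm x i).trans_lt h2

/-- the mollifier at scale `2^{-J}` centred at `x` -/
noncomputable def mol (J : ℕ) (x : Fin n → ℝ) : (Fin n → ℝ) → ℝ :=
  fun y => ((2:ℝ) ^ J) ^ n * eta n (fun i => 2 ^ J * x i - 2 ^ J * y i)

lemma mol_nonneg (J : ℕ) (x y : Fin n → ℝ) : 0 ≤ mol J x y :=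
  mul_nonneg (by positivity) (eta_nonneg _)

lemma mol_contDiff (J : ℕ) (x : Fin n → ℝ) : ContDiff ℝ ∞ (mol J x) := by
  refine contDiff_const.mul ?_
  exact eta_contDiff.comp (by fun_prop)

lemma mol_supp {J : ℕ} {x y : Fin n → ℝ} (h : mol J x y ≠ 0) (i : Fin n) :
    |(2:ℝ) ^ J * x i - 2 ^ J * y i| < 1 := by
  have h1 : eta n (fun i => 2 ^ J * x i - 2 ^ J * y i) ≠ 0 := by
    intro h0
    apply h
    rw [mol, h0, mul_zero]
  exact eta_supp h1 i

lemma mol_hcs (J : ℕ) (x : Fin n → ℝ) : HasCompactSupport (mol J x) := by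
  apply HasCompactSupport.intro (isCompact_Icc (a := fun i => x i - 1) (b := fun i => x i + 1))
  intro y hy
  by_contra hne
  apply hy
  have hp2 : (1:ℝ) ≤ 2 ^ J := one_le_pow₀ (by norm_num)
  have h1 : ∀ i, |x i - y i| < 1 := by
    intro i
    have h2 := mol_supp hne i
    rw [← mul_sub, abs_mul, abs_of_pos (by positivity)] at h2
    nlinarith [abs_nonneg (x i - y i)]
  constructor
  · intro i
    have := abs_lt.1 (h1 i)
    simp only
    linarith
  · intro i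
    have := abs_lt.1 (h1 i)
    simp only
    linarith

lemma mol_isTest (J : ℕ) (x : Fin n → ℝ) : IsTest (mol J x) := ⟨mol_contDiff J x, mol_hcs J x⟩

lemma mol_integral (J : ℕ) (x : Fin n → ℝ) : ∫ y, mol J x y = 1 := by
  have h1 : ∀ y : Fin n → ℝ, mol J x y =
      ((2:ℝ) ^ J) ^ n * (fun z : Fin n → ℝ => eta n (-z)) (fun i => 2 ^ J * y i - 2 ^ J * x i) := by
    intro y
    rw [mol]
    simp only
    congr 2
    ext i
    simp
  simp_rw [h1]
  rw [integral_const_mul, integral_scale (F := fun z : Fin n → ℝ => eta n (-z))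
    (by positivity : (0:ℝ) < 2 ^ J), integral_neg_eq_self (fun z => eta n z), eta_integral]
  field_simp

lemma mol_deriv (n m : ℕ) : ∃ B : ℝ, 0 ≤ B ∧ ∀ (J : ℕ) (x y : Fin n → ℝ),
    ‖iteratedFDeriv ℝ m (mol J x) y‖ ≤ ((2:ℝ) ^ J) ^ n * ((2:ℝ) ^ J) ^ m * B := by
  obtain ⟨B, hB⟩ := (eta_hcs (n := n).iteratedFDeriv m).exists_bound_of_continuous
    (eta_contDiff.continuous_iteratedFDeriv (by exact_mod_cast le_top))
  refine ⟨B, (norm_nonneg _).trans (hB 0), ?_⟩
  intro J x y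
  have h1 : mol J x = fun y => (((2:ℝ) ^ J) ^ n) •
      (fun y : Fin n → ℝ => eta n (fun i => (-(2:ℝ) ^ J) * y i - (-(2:ℝ) ^ J * x i))) y := by
    ext y
    rw [mol]
    simp only [smul_eq_mul]
    congr 2
    ext i
    ring
  have hsm : ContDiff ℝ ∞ (fun y : Fin n → ℝ =>
      eta n (fun i => (-(2:ℝ) ^ J) * y i - (-(2:ℝ) ^ J * x i))) :=
    eta_contDiff.comp (by fun_prop)
  rw [h1, iteratedFDeriv_const_smul_apply' (𝕜 := ℝ)
    ((hsm.of_le (by exact_mod_cast le_top)).contDiffAt), norm_smul, Real.norm_eq_abs,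
    abs_of_pos (by positivity)]
  have h2 := norm_iteratedFDeriv_scale (eta_contDiff (n := n)) (-(2:ℝ) ^ J)
    (fun i => -(2:ℝ) ^ J * x i) m hB y
  rw [abs_neg, abs_of_pos (by positivity)] at h2
  rw [mul_assoc]
  exact mul_le_mul_of_nonneg_left h2 (by positivity)

lemma near_coarse {J : ℕ} {Q : Dy n} (hQ : Q.1 ≤ J) {x y : Fin n → ℝ}
    (hxy : ∀ i, |(2:ℝ) ^ J * x i - 2 ^ J * y i| < 1) (hy : y ∈ cube3 Q) :
    ∃ e ∈ E3 n, Q = tr e (dy Q.1 x) := by
  refine ⟨fun i => Q.2 i - (dy Q.1 x).2 i, ?_, ?_⟩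
  · rw [E3, Fintype.mem_piFinset]
    intro i
    rw [Finset.mem_Icc]
    show -3 ≤ Q.2 i - ⌊(2:ℝ) ^ Q.1 * x i⌋ ∧ Q.2 i - ⌊(2:ℝ) ^ Q.1 * x i⌋ ≤ 3
    have h1 : |(2:ℝ) ^ Q.1 * x i - 2 ^ Q.1 * y i| < 1 := by
      have h2 := hxy i
      rw [← mul_sub, abs_mul, abs_of_pos (by positivity)] at h2 ⊢
      have h3 : (2:ℝ) ^ Q.1 ≤ 2 ^ J := pow_le_pow_right₀ (by norm_num) hQ
      nlinarith [abs_nonneg (x i - y i)]
    rw [abs_lt] at h1
    have h4 := hy i
    have a1 := Int.floor_le ((2:ℝ) ^ Q.1 * x i)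
    have a2 := Int.lt_floor_add_one ((2:ℝ) ^ Q.1 * x i)
    constructor
    · have : ((⌊(2:ℝ) ^ Q.1 * x i⌋ : ℤ) : ℝ) < ((Q.2 i + 3 : ℤ) : ℝ) := by
        push_cast; linarith [h4.1, h4.2, h1.1, h1.2]
      have := Int.cast_lt.1 this
      omega
    · have : ((Q.2 i : ℤ) : ℝ) < ((⌊(2:ℝ) ^ Q.1 * x i⌋ + 3 : ℤ) : ℝ) := by
        push_cast; linarith [h4.1, h4.2, h1.1, h1.2]
      have := Int.cast_lt.1 this
      omega
  · refine Prod.ext rfl ?_
    funext i
    show Q.2 i = (dy Q.1 x).2 i + (Q.2 i - (dy Q.1 x).2 i)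
    ring

lemma near_fine {J : ℕ} {Q : Dy n} (hQ : J < Q.1) {x y : Fin n → ℝ}
    (hxy : ∀ i, |(2:ℝ) ^ J * x i - 2 ^ J * y i| < 1) (hy : y ∈ cube3 Q) :
    ∃ e ∈ E3 n, anc J Q = tr e (dy J x) := by
  refine ⟨fun i => (anc J Q).2 i - (dy J x).2 i, ?_, ?_⟩
  · rw [E3, Fintype.mem_piFinset]
    intro i
    rw [Finset.mem_Icc]
    show -3 ≤ ⌊(2:ℝ) ^ J * corner Q i⌋ - ⌊(2:ℝ) ^ J * x i⌋ ∧
      ⌊(2:ℝ) ^ J * corner Q i⌋ - ⌊(2:ℝ) ^ J * x i⌋ ≤ 3
    have h1 := abs_lt.1 (hxy i)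
    have h4 := hy i
    set D : ℝ := 2 ^ (Q.1 - J) with hD
    have hD1 : 2 ≤ D := by
      rw [hD]
      calc (2:ℝ) = 2 ^ 1 := by norm_num
        _ ≤ 2 ^ (Q.1 - J) := pow_le_pow_right₀ (by norm_num) (by omega)
    have e1 : (2:ℝ) ^ Q.1 = D * 2 ^ J := by
      rw [hD, ← pow_add]; congr 1; omega
    have hJ : (0:ℝ) < 2 ^ J := by positivity
    have e2 : D * ((2:ℝ) ^ J * corner Q i) = Q.2 i := by
      rw [corner, ← mul_assoc, ← e1]
      field_simp
    rw [← e2, e1, mul_assoc] at h4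
    have a1 := Int.floor_le ((2:ℝ) ^ J * x i)
    have a2 := Int.lt_floor_add_one ((2:ℝ) ^ J * x i)
    have a3 := Int.floor_le ((2:ℝ) ^ J * corner Q i)
    have a4 := Int.lt_floor_add_one ((2:ℝ) ^ J * corner Q i)
    set κ := (2:ℝ) ^ J * corner Q i with hκ
    set ξ := (2:ℝ) ^ J * x i with hξ
    set υ := (2:ℝ) ^ J * y i with hυ
    have b1 : κ - 1 ≤ υ := by
      by_contra hcon
      push Not at hcon
      nlinarith [h4.1]
    have b2 : υ ≤ κ + 1 := by
      by_contra hcon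
      push Not at hcon
      nlinarith [h4.2]
    constructor
    · have : ((⌊ξ⌋ : ℤ) : ℝ) < ((⌊κ⌋ + 4 : ℤ) : ℝ) := by
        push_cast; linarith [h1.1, h1.2]
      have := Int.cast_lt.1 this
      omega
    · have : ((⌊κ⌋ : ℤ) : ℝ) < ((⌊ξ⌋ + 4 : ℤ) : ℝ) := by
        push_cast; linarith [h1.1, h1.2]
      have := Int.cast_lt.1 this
      omega
  · refine Prod.ext rfl ?_
    funext i
    show (anc J Q).2 i = (dy J x).2 i + ((anc J Q).2 i - (dy J x).2 i)
    ring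

lemma split_tsum (f : Dy n → ℝ≥0∞) (x : Fin n → ℝ) (J : ℕ)
    (h1 : ∀ Q : Dy n, Q.1 ≤ J → f Q ≠ 0 → ∃ e ∈ E3 n, Q = tr e (dy Q.1 x))
    (h2 : ∀ Q : Dy n, J < Q.1 → f Q ≠ 0 → ∃ e ∈ E3 n, anc J Q = tr e (dy J x)) :
    ∑' Q, f Q ≤ ∑ j ∈ Finset.range (J + 1), ∑ e ∈ E3 n, f (tr e (dy j x)) +
      ∑ e ∈ E3 n, ∑' Q : Dy n, (open Classical in
        if J < Q.1 ∧ anc J Q = tr e (dy J x) then f Q else 0) := by
  classical
  have h3 : ∀ Q, f Q ≤ ∑ j ∈ Finset.range (J + 1), ∑ e ∈ E3 n,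
      (if Q = tr e (dy j x) then f Q else 0) +
      ∑ e ∈ E3 n, (if J < Q.1 ∧ anc J Q = tr e (dy J x) then f Q else 0) := by
    intro Q
    by_cases hf : f Q = 0
    · rw [hf]; exact bot_le
    rcases le_or_gt Q.1 J with h | h
    · refine le_add_right ?_
      obtain ⟨e, he, hQ⟩ := h1 Q h hf
      calc f Q = (if Q = tr e (dy Q.1 x) then f Q else 0) := by rw [if_pos hQ]
        _ ≤ ∑ e ∈ E3 n, (if Q = tr e (dy Q.1 x) then f Q else 0) :=
            Finset.single_le_sum (f := fun e => if Q = tr e (dy Q.1 x) then f Q else 0)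
              (fun _ _ => bot_le) he
        _ ≤ _ := Finset.single_le_sum
            (f := fun j => ∑ e ∈ E3 n, (if Q = tr e (dy j x) then f Q else 0))
              (fun _ _ => bot_le) (Finset.mem_range.2 (by omega))
    · refine le_add_left ?_
      obtain ⟨e, he, hQ⟩ := h2 Q h hf
      calc f Q = (if J < Q.1 ∧ anc J Q = tr e (dy J x) then f Q else 0) := by rw [if_pos ⟨h, hQ⟩]
        _ ≤ _ := Finset.single_le_sum
            (f := fun e => if J < Q.1 ∧ anc J Q = tr e (dy J x) then f Q else 0)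
              (fun _ _ => bot_le) he
  refine (ENNReal.tsum_le_tsum h3).trans ?_
  rw [ENNReal.tsum_add]
  refine add_le_add ?_ ?_
  · rw [Summable.tsum_finsetSum (fun _ _ => ENNReal.summable)]
    refine Finset.sum_le_sum fun j _ => ?_
    rw [Summable.tsum_finsetSum (fun _ _ => ENNReal.summable)]
    refine Finset.sum_le_sum fun e _ => ?_
    rw [tsum_eq_single (tr e (dy j x))]
    · simp
    · intro Q hQ
      rw [if_neg hQ]
  · rw [Summable.tsum_finsetSum (fun _ _ => ENNReal.summable)]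

/-- the coefficients -/
noncomputable def cf (p : ℝ) (s : Dy n → ℝ) (Q : Dy n) : ℝ≥0∞ :=
  ENNReal.ofReal (|s Q| ^ p * (2:ℝ) ^ ((Q.1:ℝ) * n))

theorem analysis_bound {p α : ℝ} (hp : 0 < p) (hp1 : p < 1) (M : ℕ)
    (hM : M = ⌊(n:ℝ) * (1 / p - 1) - α + 1⌋₊) (hα : 0 < α) :
    ∃ Ca : ℝ≥0∞, Ca < ⊤ ∧ ∀ (K : Set (Fin n → ℝ)) (u : (Fin n → ℝ) → ℝ) (s : Dy n → ℝ),
      IsCompact K → Continuous u → (∀ x ∈ K, 1 ≤ u x) → Rep p α u s →
      ∃ J : ℕ, ∀ x ∈ K, 1 ≤ Ca * Phi (α * p) (((n:ℝ) + M) * p) J (cf p s) x := by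
  classical
  obtain ⟨Bη, hBη, hmol⟩ := mol_deriv n M
  set C : ℝ := max 1 (3 ^ (M + n) * Bη) with hC
  have hC1 : 1 ≤ C := le_max_left _ _
  have hC0 : 0 < C := by linarith
  have hhalf : 0 < (ENNReal.ofReal (1/2)) ^ p :=
    ENNReal.rpow_pos (ENNReal.ofReal_pos.2 (by norm_num)) ENNReal.ofReal_ne_top
  refine ⟨((ENNReal.ofReal (1/2)) ^ p)⁻¹ * ENNReal.ofReal (C ^ p),
    ENNReal.mul_lt_top (ENNReal.inv_lt_top.2 hhalf) ENNReal.ofReal_lt_top, ?_⟩
  intro K u s hKc hu huK hrep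
  obtain ⟨a, ha, hsum⟩ := hrep
  -- uniform continuity
  obtain ⟨ε, hε, huc⟩ := hKc.exists_thickening_subset_open (isOpen_lt continuous_const hu)
    (fun x hx => show (1/2:ℝ) < u x by linarith [huK x hx])
  obtain ⟨J, hJ⟩ : ∃ J : ℕ, ((1/2:ℝ)) ^ J < ε := exists_pow_lt_of_lt_one hε (by norm_num)
  refine ⟨J, fun x hx => ?_⟩
  have hp2J : (0:ℝ) < 2 ^ J := by positivity
  -- lower bound for the mollified function
  have hlow : 1/2 ≤ ∫ y, u y * mol J x y := by
    have h1 : ∀ y, 1/2 * mol J x y ≤ u y * mol J x y := by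
      intro y
      by_cases hm : mol J x y = 0
      · rw [hm]; simp
      · refine mul_le_mul_of_nonneg_right ?_ (mol_nonneg _ _ _)
        have h2 : dist y x < ε := by
          refine lt_of_le_of_lt ?_ hJ
          rw [dist_pi_le_iff (by positivity)]
          intro i
          have h3 := mol_supp hm i
          rw [← mul_sub, abs_mul, abs_of_pos hp2J, abs_sub_comm] at h3
          rw [Real.dist_eq]
          have h4 : (1/2:ℝ) ^ J = 1 / 2 ^ J := by rw [one_div_pow]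
          rw [h4, le_div_iff₀ hp2J, mul_comm]
          exact h3.le
        have h5 : (1/2:ℝ) < u y := huc (Metric.mem_thickening_iff.2 ⟨x, hx, h2⟩)
        exact h5.le
    calc (1:ℝ)/2 = ∫ y, 1/2 * mol J x y := by rw [integral_const_mul, mol_integral, mul_one]
      _ ≤ ∫ y, u y * mol J x y := by
          apply integral_mono _ _ h1
          · exact ((mol_contDiff J x).continuous.integrable_of_hasCompactSupport
              (mol_hcs J x)).const_mul _
          · exact (hu.mul (mol_contDiff J x).continuous).integrable_of_hasCompactSupport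
              (mol_hcs J x).mul_left
  set g : Dy n → ℝ := fun Q => ∫ y, a Q y * mol J x y with hg
  -- atoms are bounded
  have hab : ∀ Q : Dy n, ∀ y, |a Q y| ≤ (2:ℝ) ^ (-(Q.1:ℝ) * (α - n / p)) := by
    intro Q y
    have := (ha Q).bound 0 (by push_cast; linarith) y
    rw [norm_iteratedFDeriv_zero, Real.norm_eq_abs] at this
    simpa using this
  have hgb : ∀ Q : Dy n, |g Q| ≤ C * (2:ℝ) ^ (-(Q.1:ℝ) * (α - n / p)) *
      wt ((n:ℝ) + M) (Q.1 - J) := by
    intro Q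
    have hA0 : 0 < (2:ℝ) ^ (-(Q.1:ℝ) * (α - n / p)) := Real.rpow_pos_of_pos (by norm_num) _
    have hac := (ha Q).smooth.continuous
    have has := hasCompactSupport_of_cube3 (ha Q).supp
    rcases le_or_gt Q.1 J with h | h
    · rw [Nat.sub_eq_zero_of_le h, wt_zero, mul_one]
      calc |g Q| ≤ ∫ y, |a Q y * mol J x y| := abs_integral_le_integral_abs
        _ ≤ ∫ y, (2:ℝ) ^ (-(Q.1:ℝ) * (α - n / p)) * mol J x y := by
            apply integral_mono
            · exact ((hac.mul (mol_contDiff J x).continuous).integrable_of_hasCompactSupport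
                has.mul_right).abs
            · exact ((mol_contDiff J x).continuous.integrable_of_hasCompactSupport
                (mol_hcs J x)).const_mul _
            · intro y
              simp only
              rw [abs_mul, abs_of_nonneg (mol_nonneg J x y)]
              exact mul_le_mul_of_nonneg_right (hab Q y) (mol_nonneg _ _ _)
        _ = (2:ℝ) ^ (-(Q.1:ℝ) * (α - n / p)) := by
            rw [integral_const_mul, mol_integral, mul_one]
        _ ≤ C * (2:ℝ) ^ (-(Q.1:ℝ) * (α - n / p)) := by nlinarith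
    · have hvan : Van M (a Q) := by
        intro β hβ
        apply (ha Q).moment (by omega)
        have h1 : M ≠ 0 := by omega
        have h2 : 0 ≤ (n:ℝ) * (1 / p - 1) - α + 1 := by
          by_contra hcon
          push Not at hcon
          apply h1
          rw [hM]
          exact Nat.floor_of_nonpos hcon.le
        have h3 : (M:ℝ) ≤ (n:ℝ) * (1 / p - 1) - α + 1 := by rw [hM]; exact Nat.floor_le h2
        have h4 : ((∑ i, β i : ℕ) : ℝ) + 1 ≤ M := by exact_mod_cast hβ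
        linarith
      have h1 := pairing_bound hac (ha Q).supp (hab Q) hvan (mol_contDiff J x) (hmol J x)
      refine h1.trans ?_
      have e1 : (2:ℝ) ^ Q.1 = 2 ^ J * 2 ^ (Q.1 - J) := by
        rw [← pow_add]; congr 1; omega
      have e2 : wt ((n:ℝ) + M) (Q.1 - J) = (((2:ℝ) ^ (Q.1 - J))⁻¹) ^ (n + M) := by
        have := wt_natCast (n + M) (Q.1 - J)
        rw [← this]
        push_cast
        rfl
      have e3 : (2:ℝ) ^ (-(Q.1:ℝ) * (α - n / p)) * (((2:ℝ) ^ J) ^ n * ((2:ℝ) ^ J) ^ M * Bη) *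
          (3 / 2 ^ Q.1) ^ M * (3 / 2 ^ Q.1) ^ n =
          (3 ^ (M + n) * Bη) * (2:ℝ) ^ (-(Q.1:ℝ) * (α - n / p)) * wt ((n:ℝ) + M) (Q.1 - J) := by
        rw [e2, e1, div_pow, div_pow, mul_pow, mul_pow, inv_pow, pow_add, pow_add]
        field_simp
      rw [e3]
      refine mul_le_mul_of_nonneg_right ?_ (wt_pos _ _).le
      exact mul_le_mul_of_nonneg_right (le_max_right _ _) hA0.le
  have hnear1 : ∀ Q : Dy n, Q.1 ≤ J → g Q ≠ 0 → ∃ e ∈ E3 n, Q = tr e (dy Q.1 x) := by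
    intro Q hQ hgQ
    obtain ⟨y, hy1, hy2⟩ : ∃ y, a Q y ≠ 0 ∧ mol J x y ≠ 0 := by
      by_contra hcon
      push Not at hcon
      apply hgQ
      rw [hg]
      simp only
      have : ∀ y, a Q y * mol J x y = 0 := by
        intro y
        by_cases h : a Q y = 0
        · rw [h, zero_mul]
        · rw [hcon y h, mul_zero]
      simp [this]
    refine near_coarse hQ (mol_supp hy2) ?_
    by_contra h
    exact hy1 ((ha Q).supp y h)
  have hnear2 : ∀ Q : Dy n, J < Q.1 → g Q ≠ 0 → ∃ e ∈ E3 n, anc J Q = tr e (dy J x) := by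
    intro Q hQ hgQ
    obtain ⟨y, hy1, hy2⟩ : ∃ y, a Q y ≠ 0 ∧ mol J x y ≠ 0 := by
      by_contra hcon
      push Not at hcon
      apply hgQ
      rw [hg]
      simp only
      have : ∀ y, a Q y * mol J x y = 0 := by
        intro y
        by_cases h : a Q y = 0
        · rw [h, zero_mul]
        · rw [hcon y h, mul_zero]
      simp [this]
    refine near_fine hQ (mol_supp hy2) ?_
    by_contra h
    exact hy1 ((ha Q).supp y h)
  -- the series
  set f : Dy n → ℝ≥0∞ := fun Q => ‖s Q * g Q‖ₑ ^ p with hf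
  have hf1 : (ENNReal.ofReal (1/2)) ^ p ≤ ∑' Q, f Q := by
    have h1 : ‖∫ y, u y * mol J x y‖ₑ ≤ ∑' Q, ‖s Q * g Q‖ₑ :=
      (hsum _ (mol_isTest J x)).enorm_le_of_bounded ENNReal.summable.hasSum fun _ => le_rfl
    have h2 : ENNReal.ofReal (1/2) ≤ ‖∫ y, u y * mol J x y‖ₑ := by
      rw [Real.enorm_eq_ofReal (by linarith)]
      exact ENNReal.ofReal_le_ofReal hlow
    exact (ENNReal.rpow_le_rpow (h2.trans h1) hp.le).trans (enn_rpow_tsum_le _ hp hp1.le)
  have hfb : ∀ Q : Dy n, f Q ≤ ENNReal.ofReal (C ^ p) *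
      (ew (α * p) Q.1 * ew (((n:ℝ) + M) * p) (Q.1 - J) * cf p s Q) := by
    intro Q
    rw [hf]
    simp only
    rw [Real.enorm_eq_ofReal_abs, ENNReal.ofReal_rpow_of_nonneg (abs_nonneg _) hp.le, ew, ew, cf,
      ← ENNReal.ofReal_mul (wt_pos _ _).le, ← ENNReal.ofReal_mul (by
        have := wt_pos (α * p) Q.1
        have := wt_pos (((n:ℝ) + M) * p) (Q.1 - J)
        positivity), ← ENNReal.ofReal_mul (Real.rpow_nonneg hC0.le _)]
    apply ENNReal.ofReal_le_ofReal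
    rw [abs_mul]
    have hA0 : 0 < (2:ℝ) ^ (-(Q.1:ℝ) * (α - n / p)) := Real.rpow_pos_of_pos (by norm_num) _
    have hw := wt_pos ((n:ℝ) + M) (Q.1 - J)
    have h1 : (|s Q| * |g Q|) ^ p ≤ (|s Q| * (C * (2:ℝ) ^ (-(Q.1:ℝ) * (α - n / p)) *
        wt ((n:ℝ) + M) (Q.1 - J))) ^ p :=
      Real.rpow_le_rpow (by positivity) (mul_le_mul_of_nonneg_left (hgb Q) (abs_nonneg _)) hp.le
    refine h1.trans (le_of_eq ?_)
    rw [Real.mul_rpow (abs_nonneg _) (by positivity), Real.mul_rpow (by positivity) hw.le,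
      Real.mul_rpow hC0.le hA0.le]
    have e1 : ((2:ℝ) ^ (-(Q.1:ℝ) * (α - n / p))) ^ p =
        wt (α * p) Q.1 * (2:ℝ) ^ ((Q.1:ℝ) * n) := by
      rw [wt, ← Real.rpow_mul (by norm_num), ← Real.rpow_add (by norm_num)]
      congr 1
      field_simp
      ring
    have e2 : (wt ((n:ℝ) + M) (Q.1 - J)) ^ p = wt (((n:ℝ) + M) * p) (Q.1 - J) := by
      rw [wt, wt, ← Real.rpow_mul (by norm_num)]
      congr 1
      ring
    rw [e1, e2]
    ring
  have hfne : ∀ Q, f Q ≠ 0 → g Q ≠ 0 := by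
    intro Q h h0
    apply h
    rw [hf]
    simp only [h0, mul_zero, enorm_zero]
    exact ENNReal.zero_rpow_of_pos hp
  have hfin := split_tsum f x J (fun Q h1 h2 => hnear1 Q h1 (hfne Q h2))
    (fun Q h1 h2 => hnear2 Q h1 (hfne Q h2))
  have hfin2 : ∑' Q, f Q ≤ ENNReal.ofReal (C ^ p) *
      Phi (α * p) (((n:ℝ) + M) * p) J (cf p s) x := by
    refine hfin.trans ?_
    rw [Phi, mul_add]
    refine add_le_add ?_ ?_
    · rw [Finset.mul_sum]
      refine Finset.sum_le_sum fun j hj => ?_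
      rw [Finset.mul_sum]
      refine Finset.sum_le_sum fun e _ => ?_
      refine (hfb _).trans ?_
      simp only [tr_fst, dy_fst]
      have : j - J = 0 := by have := Finset.mem_range.1 hj; omega
      rw [this]
      have : ew (((n:ℝ) + M) * p) 0 = 1 := by rw [ew, wt_zero, ENNReal.ofReal_one]
      rw [this, mul_one]
    · rw [Finset.mul_sum]
      refine Finset.sum_le_sum fun e _ => ?_
      rw [← ENNReal.tsum_mul_left]
      refine ENNReal.tsum_le_tsum fun Q => ?_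
      split_ifs
      · exact hfb Q
      · exact bot_le
  have h1 := hf1.trans hfin2
  calc (1:ℝ≥0∞) = ((ENNReal.ofReal (1/2)) ^ p)⁻¹ * (ENNReal.ofReal (1/2)) ^ p := by
        rw [ENNReal.inv_mul_cancel hhalf.ne'
          (ENNReal.rpow_ne_top_of_nonneg hp.le ENNReal.ofReal_ne_top)]
    _ ≤ ((ENNReal.ofReal (1/2)) ^ p)⁻¹ * (ENNReal.ofReal (C ^ p) *
          Phi (α * p) (((n:ℝ) + M) * p) J (cf p s) x) := mul_le_mul_right h1 _
    _ = _ := by rw [mul_assoc]

end Pool.Agent.R222.BHB
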