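import Pool.Agent.R222.BHB.Moment

open MeasureTheory Set Topology
open scoped ENNReal ContDiff

namespace Pool.Agent.R222.BHB

lemma integral_1d_scale {F : ℝ → ℝ} {H : ℝ} (hH : 0 < H) (w : ℝ) :
    ∫ y : ℝ, F (H * y - w) = H⁻¹ * ∫ t, F t := by
  have h1 : ∀ y : ℝ, F (H * y - w) = (fun t => F (H * t)) (y - w / H) := by
    intro y
    simp only
    congr 1
    field_simp
  simp_rw [h1]
  rw [integral_sub_right_eq_self (μ := volume) (fun y : ℝ => F (H * y)),
    Measure.integral_comp_mul_left]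
  rw [abs_of_pos (by positivity), smul_eq_mul]

lemma dual1_scaled {N : ℕ} {g : ℕ → ℝ → ℝ}
    (hgm : ∀ k ≤ N, ∀ l ≤ N, ∫ t, t ^ l * g k t = if l = k then 1 else 0)
    {H : ℝ} (hH : 0 < H) (w : ℝ) {k l : ℕ} (hk : k ≤ N) (hl : l ≤ N) :
    ∫ y : ℝ, (y - w / H) ^ l * g k (H * y - w) = if l = k then (H ^ (l + 1))⁻¹ else 0 := by
  have h1 : ∀ y : ℝ, (y - w / H) ^ l * g k (H * y - w) =
      (fun t => (t / H) ^ l * g k t) (H * y - w) := by
    intro y
    simp only
    congr 2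
    field_simp
  simp_rw [h1]
  rw [integral_1d_scale (F := fun t => (t / H) ^ l * g k t) hH w]
  have h2 : ∀ t : ℝ, (t / H) ^ l * g k t = (H ^ l)⁻¹ * (t ^ l * g k t) := by
    intro t
    rw [div_pow]; ring
  simp_rw [h2]
  rw [integral_const_mul, hgm k hk l hl]
  split_ifs
  · rw [pow_succ, mul_inv]; ring
  · simp

theorem block_one (n N : ℕ) : ∃ C0 : ℝ, 0 < C0 ∧ ∀ H : ℝ, 1 ≤ H → ∀ w : Fin n → ℤ,
    (∀ i, -H ≤ w i ∧ (w i : ℝ) + 1 ≤ 2 * H) →
    ∃ b : (Fin n → ℝ) → ℝ, ContDiff ℝ ∞ b ∧ HasCompactSupport b ∧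
      (∀ y, (∃ i, y i < -1 ∨ 2 < y i) → b y = 0) ∧ Van (N + 1) b ∧
      (∀ y, (∃ i, ⌊H * y i⌋ ≠ w i) → 0 ≤ b y) ∧
      (∀ y, (∀ i, 0 ≤ y i ∧ y i ≤ 1) → (∃ i, ⌊H * y i⌋ ≠ w i) → 1 ≤ b y) ∧
      (∀ y, -(C0 * H ^ (n + N)) ≤ b y) := by
  classical
  obtain ⟨g, hgs, hgz, hgm⟩ := dual1 N
  have hgb : ∀ k, ∃ G : ℝ, ∀ t, |g k t| ≤ G := by
    intro k
    have hcs : HasCompactSupport (g k) := by
      apply HasCompactSupport.intro (isCompact_Icc (a := (0:ℝ)) (b := 1))
      intro t ht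
      exact hgz k t fun h => ht (Ioo_subset_Icc_self h)
    obtain ⟨C, hC⟩ := hcs.exists_bound_of_continuous (hgs k).continuous
    exact ⟨C, fun t => by simpa using hC t⟩
  choose G hG using hgb
  have hG0 : ∀ k, 0 ≤ G k := fun k => (abs_nonneg _).trans (hG k 0)
  set G0 : ℝ := 1 + ∑ k ∈ Finset.range (N + 1), G k with hG0def
  have hG0p : 0 < G0 := by
    have : 0 ≤ ∑ k ∈ Finset.range (N + 1), G k := Finset.sum_nonneg fun k _ => hG0 k
    linarith
  have hGle : ∀ k ≤ N, ∀ t, |g k t| ≤ G0 := by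
    intro k hk t
    have : G k ≤ ∑ k ∈ Finset.range (N + 1), G k :=
      Finset.single_le_sum (fun k _ => hG0 k) (Finset.mem_range.2 (by omega))
    linarith [hG k t]
  -- the bump function
  let φ : ContDiffBump (fun _ => 1/2 : Fin n → ℝ) := ⟨1/2, 3/2, by norm_num, by norm_num⟩
  have hφs : ContDiff ℝ ∞ (φ : (Fin n → ℝ) → ℝ) := φ.contDiff
  have hφc : Continuous (φ : (Fin n → ℝ) → ℝ) := φ.continuous
  have hφcs : HasCompactSupport (φ : (Fin n → ℝ) → ℝ) := φ.hasCompactSupport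
  have hφz : ∀ y, (∃ i, y i < -1 ∨ 2 < y i) → φ y = 0 := by
    rintro y ⟨i, hi⟩
    apply φ.zero_of_le_dist
    show (3/2:ℝ) ≤ _
    refine le_trans ?_ (dist_le_pi_dist y _ i)
    rw [Real.dist_eq]
    rcases hi with h | h
    · rw [abs_of_nonpos (by linarith)]; linarith
    · rw [abs_of_nonneg (by linarith)]; linarith
  have hφ1 : ∀ y, (∀ i, 0 ≤ y i ∧ y i ≤ 1) → φ y = 1 := by
    intro y hy
    apply φ.one_of_mem_closedBall
    rw [Metric.mem_closedBall]
    show _ ≤ (1/2:ℝ)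
    rw [dist_pi_le_iff (by norm_num)]
    intro i
    rw [Real.dist_eq, abs_le]
    constructor <;> linarith [(hy i).1, (hy i).2]
  set I : ℝ := ∫ y, φ y with hI
  have hI0 : 0 ≤ I := integral_nonneg fun y => φ.nonneg
  set B : Finset (Fin n → ℕ) :=
    (Fintype.piFinset (fun _ : Fin n => Finset.range (N + 1))).filter (fun β => ∑ i, β i ≤ N)
    with hB
  have hBle : ∀ β ∈ B, ∀ i, β i ≤ N := by
    intro β hβ i
    rw [hB, Finset.mem_filter, Fintype.mem_piFinset] at hβ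
    have := hβ.1 i
    rw [Finset.mem_range] at this
    omega
  have hBmem : ∀ β : Fin n → ℕ, ∑ i, β i ≤ N → β ∈ B := by
    intro β hβ
    rw [hB, Finset.mem_filter, Fintype.mem_piFinset]
    refine ⟨fun i => ?_, hβ⟩
    rw [Finset.mem_range]
    have := Finset.single_le_sum (f := β) (fun i _ => Nat.zero_le _) (Finset.mem_univ i)
    omega
  refine ⟨B.card * (3 ^ N * I * G0 ^ n) + 1, by positivity, ?_⟩
  intro H hH w hw
  have hHp : 0 < H := by linarith
  set z : Fin n → ℝ := fun i => (w i : ℝ) / H with hz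
  have hz1 : ∀ i, -1 ≤ z i ∧ z i ≤ 2 := by
    intro i
    obtain ⟨h1, h2⟩ := hw i
    constructor
    · rw [hz]; simp only; rw [le_div_iff₀ hHp]; linarith
    · rw [hz]; simp only; rw [div_le_iff₀ hHp]; linarith
  set Λ : (Fin n → ℕ) → ℝ := fun β => ∫ y, (∏ i, (y i - z i) ^ β i) * φ y with hΛ
  have hΛb : ∀ β ∈ B, |Λ β| ≤ 3 ^ N * I := by
    intro β hβ
    rw [hΛ, hI]
    simp only
    rw [← integral_const_mul]
    refine (abs_integral_le_integral_abs).trans ?_
    refine integral_mono_of_nonneg (Filter.Eventually.of_forall fun y => abs_nonneg _)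
      ((hφc.integrable_of_hasCompactSupport hφcs).const_mul _)
      (Filter.Eventually.of_forall fun y => ?_)
    simp only
    rw [abs_mul, abs_of_nonneg (φ.nonneg : 0 ≤ φ y)]
    by_cases hy : ∃ i, y i < -1 ∨ 2 < y i
    · rw [hφz y hy]; simp
    · push Not at hy
      refine mul_le_mul_of_nonneg_right ?_ φ.nonneg
      rw [Finset.abs_prod]
      calc ∏ i, |(y i - z i) ^ β i| ≤ ∏ i, (3:ℝ) ^ β i := by
            refine Finset.prod_le_prod (fun i _ => abs_nonneg _) fun i _ => ?_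
            rw [abs_pow]
            refine pow_le_pow_left₀ (abs_nonneg _) ?_ _
            rw [abs_le]
            constructor <;> linarith [(hy i).1, (hy i).2, (hz1 i).1, (hz1 i).2]
        _ = 3 ^ (∑ i, β i) := by rw [Finset.prod_pow_eq_pow_sum]
        _ ≤ 3 ^ N := by
            refine pow_le_pow_right₀ (by norm_num) ?_
            rw [hB, Finset.mem_filter] at hβ
            exact hβ.2
  set v : (Fin n → ℝ) → ℝ := fun y => ∑ β ∈ B, Λ β * H ^ (n + ∑ i, β i) *
    ∏ i, g (β i) (H * y i - w i) with hv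
  have hvs : ContDiff ℝ ∞ v := by
    rw [hv]
    refine ContDiff.sum fun β _ => ?_
    refine contDiff_const.mul ?_
    refine contDiff_prod fun i _ => ?_
    exact (hgs (β i)).comp (by fun_prop)
  have hvz : ∀ y, (∃ i, ⌊H * y i⌋ ≠ w i) → v y = 0 := by
    rintro y ⟨i, hi⟩
    rw [hv]
    refine Finset.sum_eq_zero fun β _ => ?_
    rw [Finset.prod_eq_zero (Finset.mem_univ i), mul_zero]
    apply hgz
    intro h
    apply hi
    rw [Int.floor_eq_iff]
    constructor <;> linarith [h.1, h.2]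
  have hvz2 : ∀ y, (∃ i, y i < -1 ∨ 2 < y i) → v y = 0 := by
    rintro y ⟨i, hi⟩
    apply hvz y ⟨i, ?_⟩
    intro h
    rw [Int.floor_eq_iff] at h
    obtain ⟨h1, h2⟩ := hw i
    rcases hi with hi | hi
    · nlinarith [h.1, h.2]
    · nlinarith [h.1, h.2]
  have hvb : ∀ y, |v y| ≤ (B.card * (3 ^ N * I * G0 ^ n)) * H ^ (n + N) := by
    intro y
    rw [hv]
    simp only
    refine (Finset.abs_sum_le_sum_abs _ _).trans ?_
    have : ∀ β ∈ B, |Λ β * H ^ (n + ∑ i, β i) * ∏ i, g (β i) (H * y i - w i)| ≤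
        3 ^ N * I * G0 ^ n * H ^ (n + N) := by
      intro β hβ
      rw [abs_mul, abs_mul]
      have e1 : |H ^ (n + ∑ i, β i)| ≤ H ^ (n + N) := by
        rw [abs_of_pos (by positivity)]
        refine pow_le_pow_right₀ hH ?_
        rw [hB, Finset.mem_filter] at hβ
        omega
      have e2 : |∏ i, g (β i) (H * y i - w i)| ≤ G0 ^ n := by
        rw [Finset.abs_prod]
        calc ∏ i, |g (β i) (H * y i - w i)| ≤ ∏ _i : Fin n, G0 :=
              Finset.prod_le_prod (fun i _ => abs_nonneg _) fun i _ => hGle _ (hBle β hβ i) _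
          _ = G0 ^ n := by simp
      calc |Λ β| * |H ^ (n + ∑ i, β i)| * |∏ i, g (β i) (H * y i - w i)|
          ≤ (3 ^ N * I) * H ^ (n + N) * G0 ^ n := by
            refine mul_le_mul (mul_le_mul (hΛb β hβ) e1 (abs_nonneg _) (by positivity)) e2
              (abs_nonneg _) (by positivity)
        _ = _ := by ring
    refine (Finset.sum_le_sum this).trans ?_
    rw [Finset.sum_const, nsmul_eq_mul]
    exact le_of_eq (by ring)
  have hvcs : HasCompactSupport v := by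
    apply HasCompactSupport.intro (isCompact_Icc (a := (fun _ => -1 : Fin n → ℝ))
      (b := fun _ => 2))
    intro y hy
    apply hvz2
    by_contra hcon
    push Not at hcon
    exact hy ⟨fun i => (hcon i).1, fun i => (hcon i).2⟩
  have hbcs : HasCompactSupport (fun y => φ y - v y) := by
    apply HasCompactSupport.intro (isCompact_Icc (a := (fun _ => -1 : Fin n → ℝ))
      (b := fun _ => 2))
    intro y hy
    have : ∃ i, y i < -1 ∨ 2 < y i := by
      by_contra hcon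
      push Not at hcon
      exact hy ⟨fun i => (hcon i).1, fun i => (hcon i).2⟩
    rw [hvz2 y this, hφz y this, sub_zero]
  refine ⟨fun y => φ y - v y, hφs.sub hvs, hbcs, ?_, ?_, ?_, ?_, ?_⟩
  · intro y hy
    show φ y - v y = 0
    rw [hvz2 y hy, hφz y hy, sub_zero]
  · apply van_of_shift (hφc.sub hvs.continuous) hbcs z
    intro β hβ
    have hβN : ∑ i, β i ≤ N := by omega
    have hβi : ∀ i, β i ≤ N := hBle β (hBmem β hβN)
    have e1 : ∫ y, (∏ i, (y i - z i) ^ β i) * v y = Λ β := by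
      have e2 : ∀ y, (∏ i, (y i - z i) ^ β i) * v y = ∑ γ ∈ B, Λ γ * H ^ (n + ∑ i, γ i) *
          ∏ i, ((y i - w i / H) ^ β i * g (γ i) (H * y i - w i)) := by
        intro y
        rw [hv]
        simp only
        rw [Finset.mul_sum]
        refine Finset.sum_congr rfl fun γ _ => ?_
        rw [Finset.prod_mul_distrib]
        ring
      simp_rw [e2]
      have e3 : ∀ γ ∈ B, ∫ y : Fin n → ℝ, Λ γ * H ^ (n + ∑ i, γ i) *
          ∏ i, ((y i - w i / H) ^ β i * g (γ i) (H * y i - w i)) =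
          if γ = β then Λ β else 0 := by
        intro γ hγ
        rw [integral_const_mul]
        rw [integral_fintype_prod_volume_eq_prod
          (f := fun i (t : ℝ) => (t - w i / H) ^ β i * g (γ i) (H * t - w i))]
        have e4 : ∀ i, ∫ t : ℝ, (t - w i / H) ^ β i * g (γ i) (H * t - w i) =
            if β i = γ i then (H ^ (β i + 1))⁻¹ else 0 := fun i =>
          dual1_scaled hgm hHp (w i) (hBle γ hγ i) (hβi i)
        simp_rw [e4]
        split_ifs with hc
        · subst hc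
          simp only [if_true]
          rw [Finset.prod_inv_distrib, Finset.prod_pow_eq_pow_sum, Finset.sum_add_distrib]
          simp only [Finset.sum_const, Finset.card_univ, Fintype.card_fin, smul_eq_mul, mul_one]
          rw [add_comm n]
          field_simp
        · obtain ⟨i, hi⟩ : ∃ i, γ i ≠ β i := Function.ne_iff.1 hc
          rw [Finset.prod_eq_zero (Finset.mem_univ i), mul_zero]
          rw [if_neg (fun h => hi h.symm)]
      rw [integral_finsetSum]
      · rw [Finset.sum_congr rfl e3, Finset.sum_ite_eq' B β, if_pos (hBmem β hβN)]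
      · intro γ hγ
        apply Continuous.integrable_of_hasCompactSupport
        · refine continuous_const.mul (continuous_finsetProd _ fun i _ => ?_)
          refine Continuous.mul (by fun_prop) ?_
          exact (hgs (γ i)).continuous.comp (by fun_prop)
        · apply HasCompactSupport.intro (isCompact_Icc (a := (fun _ => -1 : Fin n → ℝ))
            (b := fun _ => 2))
          intro y hy
          have : ∃ i, y i < -1 ∨ 2 < y i := by
            by_contra hcon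
            push Not at hcon
            exact hy ⟨fun i => (hcon i).1, fun i => (hcon i).2⟩
          obtain ⟨i, hi⟩ := this
          rw [Finset.prod_eq_zero (Finset.mem_univ i), mul_zero]
          rw [hgz, mul_zero]
          rintro ⟨h3, h4⟩
          obtain ⟨h1, h2⟩ := hw i
          rcases hi with hi | hi
          · nlinarith
          · nlinarith
    have e5 : ∀ y, (∏ i, (y i - z i) ^ β i) * (φ y - v y) =
        (∏ i, (y i - z i) ^ β i) * φ y - (∏ i, (y i - z i) ^ β i) * v y := fun y => by ring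
    show ∫ y, (∏ i, (y i - z i) ^ β i) * (φ y - v y) = 0
    simp_rw [e5]
    rw [integral_sub, e1]
    · exact sub_self _
    · exact integrable_mono hφc hφcs (by fun_prop)
    · exact integrable_mono hvs.continuous hvcs (by fun_prop)
  · intro y hy
    show 0 ≤ φ y - v y
    rw [hvz y hy, sub_zero]
    exact φ.nonneg
  · intro y hy1 hy
    show 1 ≤ φ y - v y
    rw [hvz y hy, sub_zero, hφ1 y hy1]
  · intro y
    have h1 := hvb y
    have h2 : 0 ≤ φ y := φ.nonneg
    have h3 := (abs_le.1 h1).2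
    have h4 : 0 < H ^ (n + N) := by positivity
    have : (B.card * (3 ^ N * I * G0 ^ n)) * H ^ (n + N) ≤
        (B.card * (3 ^ N * I * G0 ^ n) + 1) * H ^ (n + N) := by
      nlinarith
    simp only
    linarith

/-- uniform version with derivative bounds -/
theorem block_exists (n N mo : ℕ) : ∃ C0 : ℝ, 0 < C0 ∧ ∀ L : ℕ, ∃ CL : ℝ, 0 < CL ∧
    ∀ w : Fin n → ℤ, (∀ i, -(2:ℤ) ^ L ≤ w i ∧ w i + 1 ≤ 2 * 2 ^ L) →
    ∃ b : (Fin n → ℝ) → ℝ, ContDiff ℝ ∞ b ∧ HasCompactSupport b ∧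
      (∀ y, (∃ i, y i < -1 ∨ 2 < y i) → b y = 0) ∧
      (∀ m ≤ mo, ∀ y, ‖iteratedFDeriv ℝ m b y‖ ≤ CL) ∧ Van (N + 1) b ∧
      (∀ y, (∃ i, ⌊(2:ℝ) ^ L * y i⌋ ≠ w i) → 0 ≤ b y) ∧
      (∀ y, (∀ i, 0 ≤ y i ∧ y i ≤ 1) → (∃ i, ⌊(2:ℝ) ^ L * y i⌋ ≠ w i) → 1 ≤ b y) ∧
      (∀ y, -(C0 * ((2:ℝ) ^ L) ^ (n + N)) ≤ b y) := by
  classical
  obtain ⟨C0, hC0, h⟩ := block_one n N
  refine ⟨C0, hC0, fun L => ?_⟩
  have hH : (1:ℝ) ≤ 2 ^ L := one_le_pow₀ (by norm_num)
  have h1 := h (2 ^ L) hH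
  have h2 : ∀ w : Fin n → ℤ, ∃ b : (Fin n → ℝ) → ℝ, ∃ C : ℝ, 0 ≤ C ∧
      (∀ m ≤ mo, ∀ y, ‖iteratedFDeriv ℝ m b y‖ ≤ C) ∧
      ((∀ i, -(2:ℤ) ^ L ≤ w i ∧ w i + 1 ≤ 2 * 2 ^ L) → ContDiff ℝ ∞ b ∧ HasCompactSupport b ∧
      (∀ y, (∃ i, y i < -1 ∨ 2 < y i) → b y = 0) ∧ Van (N + 1) b ∧
      (∀ y, (∃ i, ⌊(2:ℝ) ^ L * y i⌋ ≠ w i) → 0 ≤ b y) ∧
      (∀ y, (∀ i, 0 ≤ y i ∧ y i ≤ 1) → (∃ i, ⌊(2:ℝ) ^ L * y i⌋ ≠ w i) → 1 ≤ b y) ∧
      (∀ y, -(C0 * ((2:ℝ) ^ L) ^ (n + N)) ≤ b y)) := by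
    intro w
    by_cases hw : ∀ i, -(2:ℤ) ^ L ≤ w i ∧ w i + 1 ≤ 2 * 2 ^ L
    · obtain ⟨b, hb1, hb2, hb3, hb4, hb5, hb6, hb7⟩ := h1 w (fun i => by
        obtain ⟨h3, h4⟩ := hw i
        constructor
        · exact_mod_cast h3
        · exact_mod_cast h4)
      have hbd : ∀ m : ℕ, ∃ C : ℝ, ∀ y, ‖iteratedFDeriv ℝ m b y‖ ≤ C := by
        intro m
        exact (hb2.iteratedFDeriv m).exists_bound_of_continuous
          (hb1.continuous_iteratedFDeriv (by exact_mod_cast le_top))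
      choose C hC using hbd
      have hC0' : ∀ m, 0 ≤ C m := fun m => (norm_nonneg _).trans (hC m 0)
      refine ⟨b, ∑ m ∈ Finset.range (mo + 1), C m, Finset.sum_nonneg fun m _ => hC0' m, ?_,
        fun _ => ⟨hb1, hb2, hb3, hb4, hb5, hb6, hb7⟩⟩
      intro m hm y
      refine (hC m y).trans ?_
      exact Finset.single_le_sum (fun k _ => hC0' k) (Finset.mem_range.2 (by omega))
    · refine ⟨0, 0, le_rfl, ?_, fun h => absurd h hw⟩
      intro m _ y
      have : iteratedFDeriv ℝ m (0 : (Fin n → ℝ) → ℝ) = 0 := iteratedFDeriv_fun_zero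
      rw [this]; simp
  choose b C hC0' hC hb using h2
  refine ⟨1 + ∑ w ∈ Fintype.piFinset (fun _ : Fin n => Finset.Icc (-(2:ℤ) ^ L) (2 * 2 ^ L)), C w,
    ?_, ?_⟩
  · have : 0 ≤ ∑ w ∈ Fintype.piFinset (fun _ : Fin n => Finset.Icc (-(2:ℤ) ^ L) (2 * 2 ^ L)), C w :=
      Finset.sum_nonneg fun w _ => hC0' w
    linarith
  · intro w hw
    obtain ⟨hb1, hb2, hb3, hb4, hb5, hb6, hb7⟩ := hb w hw
    refine ⟨b w, hb1, hb2, hb3, ?_, hb4, hb5, hb6, hb7⟩
    intro m hm y
    refine (hC w m hm y).trans ?_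
    have : C w ≤ ∑ w ∈ Fintype.piFinset (fun _ : Fin n => Finset.Icc (-(2:ℤ) ^ L) (2 * 2 ^ L)),
        C w := by
      refine Finset.single_le_sum (fun w _ => hC0' w) ?_
      rw [Fintype.mem_piFinset]
      intro i
      rw [Finset.mem_Icc]
      obtain ⟨h3, h4⟩ := hw i
      constructor <;> omega
    linarith

end Pool.Agent.R222.BHB
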