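import Pool.Agent.R222.BHB.Tree

open MeasureTheory Set Topology
open scoped ENNReal ContDiff

namespace Pool.Agent.R222.BHB

variable {n : ℕ}

/-- point selection: inside `P` there is an uncovered point with few cover cubes around it -/
lemma point_exists {s : ℝ} (hsn : s < n) (C : Finset (Dy n)) (P : Dy n)
    (hanti : ∀ Q ∈ C, Q.1 ≤ P.1 → ¬ anc Q.1 P = Q)
    (hcont : ∑ Q ∈ C.filter (fun Q => P.1 ≤ Q.1 ∧ anc P.1 Q = P), wt s Q.1 ≤ wt s P.1)
    (m : ℕ) (hm : P.1 ≤ m) :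
    ∃ x, dy P.1 x = P ∧ (∀ Q ∈ C, x ∉ cube Q) ∧
      ∑ Q ∈ C.filter (fun Q => m ≤ Q.1 ∧ anc m Q = dy m x), wt s Q.1 ≤
        wt s P.1 * wt n m / ((1 - (2:ℝ) ^ (-(n - s))) * wt n P.1) := by
  classical
  set θ : ℝ := (2:ℝ) ^ (-((n:ℝ) - s)) with hθ
  have hθ0 : 0 < θ := Real.rpow_pos_of_pos (by norm_num) _
  have hθ1 : θ < 1 := Real.rpow_lt_one_of_one_lt_of_neg (by norm_num) (by linarith)
  set F := C.filter (fun Q => P.1 ≤ Q.1 ∧ anc P.1 Q = P) with hF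
  set E : Set (Fin n → ℝ) := cube P \ ⋃ Q ∈ F, cube Q with hE
  have hFlev : ∀ Q ∈ F, P.1 + 1 ≤ Q.1 := by
    intro Q hQ
    rw [hF, Finset.mem_filter] at hQ
    obtain ⟨h1, h2, h3⟩ := hQ
    by_contra hcon
    have h4 : Q.1 = P.1 := by omega
    have h5 : anc Q.1 P = Q := by
      rw [h4, anc_self]
      rw [← h4, anc_self] at h3
      exact h3.symm
    exact hanti Q h1 (by omega) h5
  -- volume of the covered part
  have hcov : ∑ Q ∈ F, wt (n:ℝ) Q.1 ≤ θ * wt n P.1 := by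
    have h1 : ∀ Q ∈ F, wt (n:ℝ) Q.1 ≤ θ * wt (n - s) P.1 * wt s Q.1 := by
      intro Q hQ
      have h2 : wt (n:ℝ) Q.1 = wt (n - s) Q.1 * wt s Q.1 := by
        rw [← wt_add']; congr 1; ring
      rw [h2]
      refine mul_le_mul_of_nonneg_right ?_ (wt_pos _ _).le
      have h3 : θ * wt (n - s) P.1 = wt (n - s) (P.1 + 1) := by
        rw [wt_add, mul_comm, hθ]
        congr 1
        rw [wt]; congr 1; push_cast; ring
      rw [h3]
      exact wt_le_of_le (by linarith) (hFlev Q hQ)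
    calc ∑ Q ∈ F, wt (n:ℝ) Q.1 ≤ ∑ Q ∈ F, θ * wt (n - s) P.1 * wt s Q.1 := Finset.sum_le_sum h1
      _ = θ * wt (n - s) P.1 * ∑ Q ∈ F, wt s Q.1 := by rw [Finset.mul_sum]
      _ ≤ θ * wt (n - s) P.1 * wt s P.1 := by
          refine mul_le_mul_of_nonneg_left hcont ?_
          have := wt_pos (n - s) P.1
          positivity
      _ = θ * wt n P.1 := by
          rw [mul_assoc, ← wt_add']; congr 2; ring
  have hEvol : ENNReal.ofReal ((1 - θ) * wt n P.1) ≤ volume E := by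
    have h1 : volume (cube P) ≤ volume E + ∑ Q ∈ F, volume (cube Q) := by
      have h2 : cube P ⊆ E ∪ ⋃ Q ∈ F, cube Q := by
        intro x hx
        by_cases h : x ∈ ⋃ Q ∈ F, cube Q
        · exact Or.inr h
        · exact Or.inl ⟨hx, h⟩
      refine (measure_mono h2).trans ((measure_union_le _ _).trans ?_)
      gcongr
      exact measure_biUnion_finset_le _ _
    have h3 : ∑ Q ∈ F, volume (cube Q) ≤ ENNReal.ofReal (θ * wt n P.1) := by
      simp_rw [vol_cube]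
      rw [← ENNReal.ofReal_sum_of_nonneg (fun Q _ => (wt_pos _ _).le)]
      exact ENNReal.ofReal_le_ofReal hcov
    rw [vol_cube] at h1
    have h4 : ENNReal.ofReal (wt n P.1) ≤ volume E + ENNReal.ofReal (θ * wt n P.1) :=
      h1.trans (by gcongr)
    have h5 : (1 - θ) * wt n P.1 = wt n P.1 - θ * wt n P.1 := by ring
    rw [h5, ENNReal.ofReal_sub _ (mul_nonneg hθ0.le (wt_pos _ _).le)]
    exact tsub_le_iff_right.2 h4
  have hpos : 0 < (1 - θ) * wt n P.1 := mul_pos (by linarith) (wt_pos _ _)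
  have hE0 : volume E ≠ 0 := by
    intro h
    rw [h] at hEvol
    have : 0 < ENNReal.ofReal ((1 - θ) * wt n P.1) := ENNReal.ofReal_pos.2 hpos
    exact absurd hEvol (not_le.2 this)
  have hEtop : volume E ≠ ⊤ := by
    refine ne_top_of_le_ne_top ?_ (measure_mono (sdiff_subset : E ⊆ cube P))
    rw [vol_cube]; exact ENNReal.ofReal_ne_top
  -- the function to be averaged
  set F' := C.filter (fun Q => m ≤ Q.1 ∧ anc P.1 Q = P) with hF'
  set g : (Fin n → ℝ) → ℝ≥0∞ := fun x => ∑ Q ∈ F',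
    (cube (anc m Q)).indicator (fun _ => ENNReal.ofReal (wt s Q.1)) x with hg
  have hgm : Measurable g := by
    refine Finset.measurable_sum _ fun Q _ => ?_
    exact measurable_const.indicator (measurableSet_cube _)
  obtain ⟨x, hxE, hx⟩ := exists_le_setLAverage hE0 hEtop hgm.aemeasurable
  rw [setLAverage_eq] at hx
  have hgint : ∫⁻ x in E, g x ≤ ENNReal.ofReal (wt s P.1 * wt n m) := by
    refine (lintegral_mono_set (subset_univ _)).trans ?_
    rw [setLIntegral_univ, hg]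
    simp only
    rw [lintegral_finsetSum _ (fun Q _ => measurable_const.indicator (measurableSet_cube _))]
    have : ∀ Q ∈ F', ∫⁻ x, (cube (anc m Q)).indicator (fun _ => ENNReal.ofReal (wt s Q.1)) x =
        ENNReal.ofReal (wt s Q.1 * wt n m) := by
      intro Q _
      rw [lintegral_indicator_const (measurableSet_cube _), vol_cube, anc_fst,
        ← ENNReal.ofReal_mul (wt_pos _ _).le]
    rw [Finset.sum_congr rfl this, ← ENNReal.ofReal_sum_of_nonneg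
      (fun Q _ => mul_nonneg (wt_pos _ _).le (wt_pos _ _).le)]
    refine ENNReal.ofReal_le_ofReal ?_
    rw [← Finset.sum_mul]
    refine mul_le_mul_of_nonneg_right (le_trans ?_ hcont) (wt_pos _ _).le
    refine Finset.sum_le_sum_of_subset_of_nonneg ?_ (fun Q _ _ => (wt_pos _ _).le)
    intro Q hQ
    rw [hF', Finset.mem_filter] at hQ
    rw [hF, Finset.mem_filter]
    exact ⟨hQ.1, by omega, hQ.2.2⟩
  have hxP : dy P.1 x = P := mem_cube_iff.1 hxE.1
  refine ⟨x, hxP, ?_, ?_⟩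
  · intro Q hQ hxQ
    rcases le_or_gt P.1 Q.1 with h | h
    · have h1 : anc P.1 Q = P := by rw [← dy_of_mem h hxQ]; exact hxP
      apply hxE.2
      simp only [mem_iUnion]
      exact ⟨Q, Finset.mem_filter.2 ⟨hQ, h, h1⟩, hxQ⟩
    · apply hanti Q hQ h.le
      rw [← dy_of_mem h.le hxE.1]
      exact mem_cube_iff.1 hxQ
  · have h1 : ENNReal.ofReal (∑ Q ∈ C.filter (fun Q => m ≤ Q.1 ∧ anc m Q = dy m x), wt s Q.1) ≤
        g x := by
      rw [ENNReal.ofReal_sum_of_nonneg (fun Q _ => (wt_pos _ _).le), hg]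
      simp only
      have h2 : ∀ Q ∈ C.filter (fun Q => m ≤ Q.1 ∧ anc m Q = dy m x), ENNReal.ofReal (wt s Q.1) =
          (cube (anc m Q)).indicator (fun _ => ENNReal.ofReal (wt s Q.1)) x := by
        intro Q hQ
        rw [Finset.mem_filter] at hQ
        rw [indicator_of_mem]
        rw [mem_cube_iff, hQ.2.2]
        rfl
      rw [Finset.sum_congr rfl h2]
      refine Finset.sum_le_sum_of_subset ?_
      intro Q hQ
      rw [Finset.mem_filter] at hQ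
      rw [hF', Finset.mem_filter]
      refine ⟨hQ.1, hQ.2.1, ?_⟩
      rw [← anc_anc hm, hQ.2.2, anc_dy hm]
      exact hxP
    have h3 : ENNReal.ofReal (∑ Q ∈ C.filter (fun Q => m ≤ Q.1 ∧ anc m Q = dy m x), wt s Q.1) ≤
        ENNReal.ofReal (wt s P.1 * wt n m / ((1 - θ) * wt n P.1)) := by
      refine h1.trans (hx.trans ?_)
      rw [ENNReal.ofReal_div_of_pos hpos]
      exact ENNReal.div_le_div hgint hEvol
    exact (ENNReal.ofReal_le_ofReal_iff (by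
      have := wt_pos s P.1
      have := wt_pos n m
      positivity)).1 h3

/-- minimal covers -/
theorem good_cover {s : ℝ} (hsn : s < n) (K : Set (Fin n → ℝ)) (C0 : Finset (Dy n))
    (hC0 : ∀ x ∈ K, ∃ Q ∈ C0, x ∈ cube Q) {δ : ℝ} (hδ : δ ≤ 1)
    (hcost : ∑ Q ∈ C0, wt s Q.1 < δ) :
    ∃ C : Finset (Dy n), (∀ x ∈ K, ∃ Q ∈ C, x ∈ cube Q) ∧ ∑ Q ∈ C, wt s Q.1 < δ ∧
      (∀ Q ∈ C, 1 ≤ Q.1) ∧
      ∀ L : ℕ, ∀ Q ∈ C, ∃ x : Fin n → ℝ, dy (Q.1 - 1) x = anc (Q.1 - 1) Q ∧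
        (∀ Q' ∈ C, x ∉ cube Q') ∧
        ∑ Q' ∈ C.filter (fun Q' => Q.1 + L ≤ Q'.1 ∧ anc (Q.1 + L) Q' = dy (Q.1 + L) x),
          wt s Q'.1 ≤ (2:ℝ) ^ s / (1 - (2:ℝ) ^ (-(n - s))) * wt n L * wt s Q.1 := by
  classical
  set U : Finset (Dy n) := C0.biUnion fun Q => (Finset.range (Q.1 + 1)).image fun m => anc m Q
    with hU
  have hU1 : ∀ Q ∈ C0, Q ∈ U := by
    intro Q hQ
    rw [hU, Finset.mem_biUnion]
    exact ⟨Q, hQ, Finset.mem_image.2 ⟨Q.1, Finset.mem_range.2 (by omega), anc_self Q⟩⟩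
  have hU2 : ∀ Q ∈ U, ∀ m ≤ Q.1, anc m Q ∈ U := by
    intro Q hQ m hm
    rw [hU, Finset.mem_biUnion] at hQ ⊢
    obtain ⟨R, hR, hQ⟩ := hQ
    obtain ⟨j, hj, rfl⟩ := Finset.mem_image.1 hQ
    rw [Finset.mem_range] at hj
    rw [anc_fst] at hm
    refine ⟨R, hR, Finset.mem_image.2 ⟨m, Finset.mem_range.2 (by omega), ?_⟩⟩
    rw [anc_anc hm]
  obtain ⟨C, hC, hmin⟩ := Finset.exists_min_image
    (U.powerset.filter fun C => ∀ x ∈ K, ∃ Q ∈ C, x ∈ cube Q) (fun C => ∑ Q ∈ C, wt s Q.1)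
    ⟨C0, Finset.mem_filter.2 ⟨Finset.mem_powerset.2 hU1, hC0⟩⟩
  rw [Finset.mem_filter, Finset.mem_powerset] at hC
  obtain ⟨hCU, hCK⟩ := hC
  have hmin' : ∀ C' : Finset (Dy n), C' ⊆ U → (∀ x ∈ K, ∃ Q ∈ C', x ∈ cube Q) →
      ∑ Q ∈ C, wt s Q.1 ≤ ∑ Q ∈ C', wt s Q.1 := by
    intro C' h1 h2
    exact hmin C' (Finset.mem_filter.2 ⟨Finset.mem_powerset.2 h1, h2⟩)
  have hCcost : ∑ Q ∈ C, wt s Q.1 < δ := (hmin' C0 hU1 hC0).trans_lt hcost
  have hanti : ∀ Q ∈ C, ∀ Q' ∈ C, Q'.1 ≤ Q.1 → anc Q'.1 Q = Q' → Q = Q' := by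
    intro Q hQ Q' hQ' hle ha
    by_contra hne
    have h1 := hmin' (C.erase Q) ((Finset.erase_subset _ _).trans hCU) (by
      intro x hx
      obtain ⟨R, hR, hxR⟩ := hCK x hx
      by_cases h : R = Q
      · refine ⟨Q', Finset.mem_erase.2 ⟨fun h' => hne h'.symm, hQ'⟩, ?_⟩
        rw [h] at hxR
        rw [mem_cube_iff, dy_of_mem hle hxR, ha]
      · exact ⟨R, Finset.mem_erase.2 ⟨h, hR⟩, hxR⟩)
    rw [← Finset.add_sum_erase C _ hQ] at h1
    linarith [wt_pos s Q.1]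
  have hcont : ∀ P : Dy n,
      ∑ Q ∈ C.filter (fun Q => P.1 ≤ Q.1 ∧ anc P.1 Q = P), wt s Q.1 ≤ wt s P.1 := by
    intro P
    by_cases hne : (C.filter (fun Q => P.1 ≤ Q.1 ∧ anc P.1 Q = P)).Nonempty
    · obtain ⟨Q0, hQ0⟩ := hne
      rw [Finset.mem_filter] at hQ0
      have hPU : P ∈ U := by
        rw [← hQ0.2.2]
        exact hU2 Q0 (hCU hQ0.1) _ hQ0.2.1
      have h1 := hmin' (insert P (C.filter (fun Q => ¬ (P.1 ≤ Q.1 ∧ anc P.1 Q = P)))) (by
          intro Q hQ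
          rw [Finset.mem_insert] at hQ
          rcases hQ with rfl | hQ
          · exact hPU
          · exact hCU (Finset.mem_filter.1 hQ).1) (by
          intro x hx
          obtain ⟨R, hR, hxR⟩ := hCK x hx
          by_cases h : P.1 ≤ R.1 ∧ anc P.1 R = P
          · refine ⟨P, Finset.mem_insert_self _ _, ?_⟩
            rw [mem_cube_iff, dy_of_mem h.1 hxR, h.2]
          · exact ⟨R, Finset.mem_insert_of_mem (Finset.mem_filter.2 ⟨hR, h⟩), hxR⟩)
      have h2 : ∑ Q ∈ insert P (C.filter (fun Q => ¬ (P.1 ≤ Q.1 ∧ anc P.1 Q = P))), wt s Q.1 ≤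
          wt s P.1 + ∑ Q ∈ C.filter (fun Q => ¬ (P.1 ≤ Q.1 ∧ anc P.1 Q = P)), wt s Q.1 := by
        by_cases hP : P ∈ C.filter (fun Q => ¬ (P.1 ≤ Q.1 ∧ anc P.1 Q = P))
        · rw [Finset.insert_eq_of_mem hP]
          linarith [wt_pos s P.1]
        · rw [Finset.sum_insert hP]
      rw [← Finset.sum_filter_add_sum_filter_not C (fun Q => P.1 ≤ Q.1 ∧ anc P.1 Q = P)] at h1
      linarith
    · rw [Finset.not_nonempty_iff_eq_empty.1 hne, Finset.sum_empty]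
      exact (wt_pos _ _).le
  have hlev : ∀ Q ∈ C, 1 ≤ Q.1 := by
    intro Q hQ
    by_contra hcon
    have h0 : Q.1 = 0 := by omega
    have h1 : wt s Q.1 ≤ ∑ Q ∈ C, wt s Q.1 :=
      Finset.single_le_sum (f := fun Q : Dy n => wt s Q.1) (fun Q _ => (wt_pos _ _).le) hQ
    rw [h0, wt_zero] at h1
    linarith
  refine ⟨C, hCK, hCcost, hlev, ?_⟩
  intro L Q hQ
  have hQ1 := hlev Q hQ
  obtain ⟨x, hx1, hx2, hx3⟩ := point_exists hsn C (anc (Q.1 - 1) Q) (by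
    intro R hR hle h
    rw [anc_fst] at hle
    rw [anc_anc hle] at h
    have := hanti Q hQ R hR (by omega) h
    rw [← this] at hle
    omega) (hcont _) (Q.1 + L) (by rw [anc_fst]; omega)
  rw [anc_fst] at hx1 hx3
  refine ⟨x, hx1, hx2, hx3.trans ?_⟩
  set θ : ℝ := (2:ℝ) ^ (-((n:ℝ) - s)) with hθ
  have hθ1 : θ < 1 := Real.rpow_lt_one_of_one_lt_of_neg (by norm_num) (by linarith)
  have h1 : wt (n:ℝ) (Q.1 + L) = wt n (Q.1 - 1) * (wt n 1 * wt n L) := by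
    rw [← wt_add, ← wt_add]; congr 1; omega
  have h2 : wt s (Q.1 - 1) = (2:ℝ) ^ s * wt s Q.1 := by
    have : wt s Q.1 = wt s (Q.1 - 1) * wt s 1 := by rw [← wt_add]; congr 1; omega
    rw [this, mul_comm, mul_assoc]
    have h3 : wt s 1 * (2:ℝ) ^ s = 1 := by
      rw [wt, ← Real.rpow_add (by norm_num)]; simp
    rw [h3, mul_one]
  have h4 : wt (n:ℝ) 1 ≤ 1 := by
    rw [← wt_zero (n:ℝ)]
    exact wt_le_of_le (by positivity) (by norm_num)
  rw [h1, h2]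
  have hp1 := wt_pos (n:ℝ) (Q.1 - 1)
  have hp2 := wt_pos (n:ℝ) L
  have hp3 := wt_pos s Q.1
  have hp4 : (0:ℝ) < 2 ^ s := Real.rpow_pos_of_pos (by norm_num) _
  have hp5 : 0 < 1 - θ := by linarith
  have : (2:ℝ) ^ s * wt s Q.1 * (wt n (Q.1 - 1) * (wt n 1 * wt n L)) / ((1 - θ) * wt n (Q.1 - 1)) =
      wt n 1 * ((2:ℝ) ^ s / (1 - θ) * wt n L * wt s Q.1) := by
    field_simp
  rw [this]
  have h6 : 0 ≤ (2:ℝ) ^ s / (1 - θ) * wt n L * wt s Q.1 := by positivity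
  nlinarith

end Pool.Agent.R222.BHB
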