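import Mathlib

open MeasureTheory Set Topology
open scoped ENNReal ContDiff

namespace Pool.Agent.R222.BHB

/-- Dyadic cubes of `ℝⁿ` of side `2^{-j}`, `j ≥ 0`: the pair `(j, k)` codes the cube
`∏ᵢ [kᵢ 2^{-j}, (kᵢ+1) 2^{-j})`. -/
abbrev Dy (n : ℕ) := ℕ × (Fin n → ℤ)

/-- The half-open dyadic cube coded by `Q`. -/
def cube {n : ℕ} (Q : Dy n) : Set (Fin n → ℝ) :=
  {x | ∀ i, (Q.2 i : ℝ) ≤ 2 ^ Q.1 * x i ∧ 2 ^ Q.1 * x i < Q.2 i + 1}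

/-- The closed cube `3Q` with the same centre as `Q` and three times its side. -/
def cube3 {n : ℕ} (Q : Dy n) : Set (Fin n → ℝ) :=
  {x | ∀ i, (Q.2 i : ℝ) - 1 ≤ 2 ^ Q.1 * x i ∧ 2 ^ Q.1 * x i ≤ Q.2 i + 2}

/-- Smooth atoms (Frazier-Jawerth) for the spaces `Λ^{pp}_α` and `F^{p2}_α`, `0 < p < 1`, `0 < α`,
with the normalisation `|D^m a| ≤ ℓ(Q)^{α - n/p - m}`. The vanishing moments are required for the
cubes of side `< 1`, up to the order `⌊n (1/p - 1) - α⌋` (no condition if this is negative). -/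
structure IsAtom {n : ℕ} (p α : ℝ) (Q : Dy n) (a : (Fin n → ℝ) → ℝ) : Prop where
  smooth : ContDiff ℝ ∞ a
  supp : ∀ x, x ∉ cube3 Q → a x = 0
  bound : ∀ m : ℕ, (m : ℝ) ≤ α + 1 → ∀ x,
    ‖iteratedFDeriv ℝ m a x‖ ≤ (2 : ℝ) ^ (-(Q.1 : ℝ) * (α - n / p - m))
  moment : 1 ≤ Q.1 → ∀ β : Fin n → ℕ, ((∑ i, β i : ℕ) : ℝ) ≤ n * (1 / p - 1) - α →
    ∫ x, (∏ i, x i ^ β i) * a x = 0

/-- Test functions `C_c^∞(ℝⁿ)`. -/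
def IsTest {n : ℕ} (φ : (Fin n → ℝ) → ℝ) : Prop := ContDiff ℝ ∞ φ ∧ HasCompactSupport φ

/-- `u = ∑_Q s_Q a_Q` in the sense of distributions, with atoms `a_Q`. -/
def Rep {n : ℕ} (p α : ℝ) (u : (Fin n → ℝ) → ℝ) (s : Dy n → ℝ) : Prop :=
  ∃ a : Dy n → (Fin n → ℝ) → ℝ, (∀ Q, IsAtom p α Q (a Q)) ∧
    ∀ φ, IsTest φ → HasSum (fun Q => s Q * ∫ x, a Q x * φ x) (∫ x, u x * φ x)

/-- `‖s‖^p` for the Besov sequence space: `∑_Q |s_Q|^p`. -/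
noncomputable def besovSeq {n : ℕ} (p : ℝ) (s : Dy n → ℝ) : ℝ≥0∞ :=
  ∑' Q, ENNReal.ofReal (|s Q| ^ p)

/-- `‖s‖^p` for the Lizorkin-Triebel sequence space:
`∫ (∑_Q (|s_Q| |Q|^{-1/p} χ_Q)^2)^{p/2}`. -/
noncomputable def triebelSeq {n : ℕ} (p : ℝ) (s : Dy n → ℝ) : ℝ≥0∞ :=
  ∫⁻ x, (∑' Q : Dy n, (cube Q).indicator
    (fun _ => ENNReal.ofReal ((|s Q| * (2 : ℝ) ^ ((Q.1 : ℝ) * n / p)) ^ 2)) x) ^ (p / 2)

/-- The `p`-th power of the (atomic) quasi-norm of the Besov space `Λ^{pp}_α`. -/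
noncomputable def besovP {n : ℕ} (p α : ℝ) (u : (Fin n → ℝ) → ℝ) : ℝ≥0∞ :=
  ⨅ (s : Dy n → ℝ) (_ : Rep p α u s), besovSeq p s

/-- The `p`-th power of the (atomic) quasi-norm of the Lizorkin-Triebel space `F^{p2}_α`. -/
noncomputable def triebelP {n : ℕ} (p α : ℝ) (u : (Fin n → ℝ) → ℝ) : ℝ≥0∞ :=
  ⨅ (s : Dy n → ℝ) (_ : Rep p α u s), triebelSeq p s

/-- The capacity `A_{α,p,p}` on compact sets, computed with the class `𝒟` of functions. -/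
noncomputable def capA {n : ℕ} (𝒟 : Set ((Fin n → ℝ) → ℝ)) (p α : ℝ) (K : Set (Fin n → ℝ)) :
    ℝ≥0∞ :=
  ⨅ (u : (Fin n → ℝ) → ℝ) (_ : u ∈ 𝒟) (_ : ∀ x ∈ K, 1 ≤ u x), besovP p α u

/-- The capacity `B_{α,p}` on compact sets, computed with the class `𝒟` of functions. -/
noncomputable def capB {n : ℕ} (𝒟 : Set ((Fin n → ℝ) → ℝ)) (p α : ℝ) (K : Set (Fin n → ℝ)) :
    ℝ≥0∞ :=
  ⨅ (u : (Fin n → ℝ) → ℝ) (_ : u ∈ 𝒟) (_ : ∀ x ∈ K, 1 ≤ u x), triebelP p α u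

end Pool.Agent.R222.BHB
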