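import Pool.Agent.R222.BHB.Defs

open MeasureTheory Set Topology
open scoped ENNReal ContDiff

namespace Pool.Agent.R222.BHB

/-- one dimensional test functions dual to the monomials of degree `≤ N` -/
lemma dual1 (N : ℕ) : ∃ g : ℕ → ℝ → ℝ, (∀ k, ContDiff ℝ ∞ (g k)) ∧
    (∀ k t, t ∉ Ioo (0:ℝ) 1 → g k t = 0) ∧
    ∀ k ≤ N, ∀ l ≤ N, ∫ t, t ^ l * g k t = if l = k then 1 else 0 := by
  classical
  let χ : ContDiffBump (1/2 : ℝ) := ⟨1/4, 1/2, by norm_num, by norm_num⟩
  have hχs : ContDiff ℝ ∞ (χ : ℝ → ℝ) := χ.contDiff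
  have hχc : Continuous (χ : ℝ → ℝ) := χ.continuous
  have hχz : ∀ t, t ∉ Ioo (0:ℝ) 1 → χ t = 0 := by
    intro t ht
    apply χ.zero_of_le_dist
    rw [Real.dist_eq]
    show (1/2:ℝ) ≤ _
    by_contra hcon
    push Not at hcon
    apply ht
    rw [abs_lt] at hcon
    constructor <;> linarith [hcon.1, hcon.2]
  have hχcs : HasCompactSupport (χ : ℝ → ℝ) := χ.hasCompactSupport
  have hχp : ∀ t ∈ Ioo (0:ℝ) 1, 0 < χ t := by
    intro t ht
    apply χ.pos_of_mem_ball
    rw [Metric.mem_ball, Real.dist_eq]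
    show _ < (1/2:ℝ)
    rw [abs_lt]
    constructor <;> linarith [ht.1, ht.2]
  let M : Matrix (Fin (N+1)) (Fin (N+1)) ℝ := fun l i => ∫ t, t ^ (l:ℕ) * (t ^ (i:ℕ) * χ t)
  have hint : ∀ q : ℝ → ℝ, Continuous q → Integrable (fun t => q t * χ t) := by
    intro q hq
    exact (hq.mul hχc).integrable_of_hasCompactSupport (hχcs.mul_left)
  have hM : ∀ c : Fin (N+1) → ℝ, ∀ l, M.mulVec c l = ∫ t, t ^ (l:ℕ) * ((∑ i, c i * t ^ (i:ℕ)) * χ t) := by
    intro c l
    simp only [Matrix.mulVec, dotProduct, M]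
    rw [← Finset.sum_congr rfl (fun i _ => integral_mul_const (c i) _)]
    rw [← integral_finset_sum]
    · congr 1
      ext t
      rw [Finset.sum_mul, Finset.mul_sum]
      refine Finset.sum_congr rfl fun i _ => by ring
    · intro i _
      have := (hint (fun t => t ^ (l:ℕ) * t ^ (i:ℕ)) (by fun_prop)).mul_const (c i)
      refine this.congr (Filter.Eventually.of_forall fun t => by simp only []; ring)
  have hinj : Function.Injective M.mulVecLin := by
    rw [← LinearMap.ker_eq_bot, LinearMap.ker_eq_bot']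
    intro c hc
    have h1 : ∫ t, (∑ i, c i * t ^ (i:ℕ)) ^ 2 * χ t = 0 := by
      have h2 : ∑ l, c l * M.mulVec c l = 0 := by
        have : M.mulVec c = 0 := hc
        simp [this]
      rw [← h2]
      simp_rw [hM]
      rw [← Finset.sum_congr rfl (fun i _ => integral_const_mul (c i) _), ← integral_finset_sum]
      · congr 1
        ext t
        rw [pow_two, Finset.sum_mul, Finset.sum_mul]
        refine Finset.sum_congr rfl fun i _ => by ring
      · intro i _
        refine Integrable.const_mul ?_ _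
        refine (hint (fun t => t ^ (i:ℕ) * (∑ i, c i * t ^ (i:ℕ))) (by fun_prop)).congr
          (Filter.Eventually.of_forall fun t => by simp only []; ring)
    have h0 : ∀ t, 0 ≤ (∑ i, c i * t ^ (i:ℕ)) ^ 2 * χ t := fun t =>
      mul_nonneg (sq_nonneg _) χ.nonneg
    have hcont : Continuous fun t => (∑ i, c i * t ^ (i:ℕ)) ^ 2 * χ t := by fun_prop
    have h3 : (fun t => (∑ i, c i * t ^ (i:ℕ)) ^ 2 * χ t) = 0 := by
      have := (integral_eq_zero_iff_of_nonneg (μ := volume) h0
        (hint (fun t => (∑ i, c i * t ^ (i:ℕ)) ^ 2) (by fun_prop))).1 h1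
      exact (Continuous.ae_eq_iff_eq volume hcont continuous_zero).1 this
    have h4 : ∀ t ∈ Ioo (0:ℝ) 1, ∑ i, c i * t ^ (i:ℕ) = 0 := by
      intro t ht
      have := congrFun h3 t
      simp only [Pi.zero_apply, mul_eq_zero] at this
      rcases this with h | h
      · exact pow_eq_zero_iff (two_ne_zero) |>.1 h
      · exact absurd h (hχp t ht).ne'
    let P : Polynomial ℝ := ∑ i : Fin (N+1), Polynomial.C (c i) * Polynomial.X ^ (i:ℕ)
    have hP : P = 0 := by
      apply Polynomial.eq_zero_of_infinite_isRoot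
      refine Set.Infinite.mono ?_ (Ioo_infinite (show (0:ℝ) < 1 by norm_num))
      intro t ht
      show P.IsRoot t
      rw [Polynomial.IsRoot, Polynomial.eval_finset_sum]
      simpa using h4 t ht
    ext l
    have : P.coeff (l:ℕ) = 0 := by rw [hP]; simp
    rw [Polynomial.finset_sum_coeff] at this
    simp only [Polynomial.coeff_C_mul, Polynomial.coeff_X_pow] at this
    rw [Finset.sum_eq_single l] at this
    · simpa using this
    · intro i _ hi
      have : (l:ℕ) ≠ (i:ℕ) := fun h => hi (Fin.ext h.symm)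
      simp [this]
    · intro h; exact absurd (Finset.mem_univ _) h
  have hsurj : Function.Surjective M.mulVecLin := LinearMap.injective_iff_surjective.1 hinj
  choose c hc using fun k : Fin (N+1) => hsurj (Pi.single k 1)
  refine ⟨fun k t => if h : k < N + 1 then (∑ i, c ⟨k, h⟩ i * t ^ (i:ℕ)) * χ t else 0, ?_, ?_, ?_⟩
  · intro k
    by_cases h : k < N + 1
    · simp only [h, dif_pos]
      exact ContDiff.mul (by fun_prop) hχs
    · simp only [h, dif_neg, not_false_eq_true]
      exact contDiff_const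
  · intro k t ht
    simp only [hχz t ht]
    split_ifs <;> simp
  · intro k hk l hl
    have hk' : k < N + 1 := by omega
    have hl' : l < N + 1 := by omega
    simp only [hk', dif_pos]
    have := hM (c ⟨k, hk'⟩) ⟨l, hl'⟩
    rw [← this]
    have h2 : M.mulVec (c ⟨k, hk'⟩) = Pi.single ⟨k, hk'⟩ 1 := hc _
    rw [h2, Pi.single_apply]
    simp [Fin.ext_iff]

end Pool.Agent.R222.BHB
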