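import Pool.Agent.R222.BHB.Tree

open MeasureTheory Set Topology Metric
open scoped ENNReal NNReal

namespace Pool.Agent.R222.BHB

variable {n : ℕ}

/-- translate of a cube by an integer vector -/
def tr (e : Fin n → ℤ) (Q : Dy n) : Dy n := (Q.1, fun i => Q.2 i + e i)

lemma ball_subset_cubes {x y : Fin n → ℝ} {ρ : ℝ} {j : ℕ} (hρ : ρ ≤ (1/2 : ℝ) ^ j)
    (hy : y ∈ ball x ρ) :
    ∃ e ∈ Fintype.piFinset (fun _ : Fin n => Finset.Icc (-1:ℤ) 1), y ∈ cube (tr e (dy j x)) := by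
  refine ⟨fun i => (dy j y).2 i - (dy j x).2 i, ?_, ?_⟩
  · rw [Fintype.mem_piFinset]
    intro i
    have h1 : |y i - x i| < ρ := by
      have h2 : dist (y i) (x i) ≤ dist y x := dist_le_pi_dist y x i
      rw [Real.dist_eq] at h2
      exact h2.trans_lt hy
    have hp : (0:ℝ) < 2 ^ j := by positivity
    have h3 : |(2:ℝ) ^ j * y i - 2 ^ j * x i| < 1 := by
      rw [← mul_sub, abs_mul, abs_of_pos hp]
      calc (2:ℝ) ^ j * |y i - x i| < 2 ^ j * (1/2 : ℝ) ^ j :=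
            mul_lt_mul_of_pos_left (h1.trans_le hρ) hp
        _ = 1 := by rw [← mul_pow]; norm_num
    rw [abs_lt] at h3
    rw [Finset.mem_Icc]
    show (-1 ≤ ⌊(2:ℝ) ^ j * y i⌋ - ⌊(2:ℝ) ^ j * x i⌋) ∧
      (⌊(2:ℝ) ^ j * y i⌋ - ⌊(2:ℝ) ^ j * x i⌋ ≤ 1)
    have a1 := Int.floor_le ((2:ℝ) ^ j * y i)
    have a2 := Int.lt_floor_add_one ((2:ℝ) ^ j * y i)
    have a3 := Int.floor_le ((2:ℝ) ^ j * x i)
    have a4 := Int.lt_floor_add_one ((2:ℝ) ^ j * x i)
    constructor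
    · have : ((⌊(2:ℝ) ^ j * x i⌋ : ℤ) : ℝ) < ((⌊(2:ℝ) ^ j * y i⌋ + 2 : ℤ) : ℝ) := by
        push_cast; linarith
      have := Int.cast_lt.1 this
      omega
    · have : ((⌊(2:ℝ) ^ j * y i⌋ : ℤ) : ℝ) < ((⌊(2:ℝ) ^ j * x i⌋ + 2 : ℤ) : ℝ) := by
        push_cast; linarith
      have := Int.cast_lt.1 this
      omega
  · rw [mem_cube_iff]
    refine Prod.ext rfl ?_
    funext i
    show (dy j y).2 i = (dy j x).2 i + ((dy j y).2 i - (dy j x).2 i)
    ring

lemma sum_biUnion_le_aux {ι : Type*} [DecidableEq (Dy n)] (F : Finset ι) (T : ι → Finset (Dy n))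
    (f : Dy n → ℝ) (hf : ∀ Q, 0 ≤ f Q) :
    ∑ Q ∈ F.biUnion T, f Q ≤ ∑ i ∈ F, ∑ Q ∈ T i, f Q := by
  classical
  induction F using Finset.induction_on with
  | empty => simp
  | insert a F ha ih =>
    rw [Finset.biUnion_insert, Finset.sum_insert ha]
    have h1 := Finset.sum_union_inter (s₁ := T a) (s₂ := F.biUnion T) (f := f)
    have h2 : 0 ≤ ∑ Q ∈ T a ∩ F.biUnion T, f Q := Finset.sum_nonneg fun Q _ => hf Q
    linarith

theorem cover_of_hausdorff {s : ℝ} (hs : 0 < s) {K : Set (Fin n → ℝ)} (hK : IsCompact K)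
    (h : Measure.hausdorffMeasure s K = 0) {δ : ℝ} (hδ : 0 < δ) :
    ∃ C0 : Finset (Dy n), (∀ x ∈ K, ∃ Q ∈ C0, x ∈ cube Q) ∧ ∑ Q ∈ C0, wt s Q.1 < δ := by
  classical
  set ε : ℝ := δ / (3 ^ n * 2 ^ s * 2) with hε
  have h2s : (0:ℝ) < 2 ^ s := Real.rpow_pos_of_pos (by norm_num) _
  have hεp : 0 < ε := by positivity
  rw [Measure.hausdorffMeasure_apply] at h
  have h1 := h
  simp only [ENNReal.iSup_eq_zero] at h1
  have h2 := h1 (ENNReal.ofReal (1/4)) (ENNReal.ofReal_pos.2 (by norm_num))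
  have h3 : (⨅ (t : ℕ → Set (Fin n → ℝ)) (_ : K ⊆ ⋃ n, t n)
      (_ : ∀ n, ediam (t n) ≤ ENNReal.ofReal (1/4)),
      ∑' n, ⨆ _ : (t n).Nonempty, ediam (t n) ^ s) < ENNReal.ofReal ε := by
    rw [h2]; exact ENNReal.ofReal_pos.2 hεp
  simp only [iInf_lt_iff] at h3
  obtain ⟨t, htK, htd, hts⟩ := h3
  obtain ⟨ε', hε'0, hε's⟩ := ENNReal.exists_pos_sum_of_countable
    (ε := ENNReal.ofReal ε) (ENNReal.ofReal_pos.2 hεp).ne' ℕ
  -- balls
  have key : ∀ i : ℕ, ∃ (x : Fin n → ℝ) (ρ : ℝ) (j : ℕ), t i ⊆ ball x ρ ∧ ρ ≤ (1/2:ℝ) ^ j ∧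
      ENNReal.ofReal (wt s j) ≤ ENNReal.ofReal (2 ^ s) *
        ((⨆ _ : (t i).Nonempty, ediam (t i) ^ s) + ε' i) := by
    intro i
    set D : ℝ := (ediam (t i)).toReal with hD
    have hDtop : ediam (t i) ≠ ⊤ := ne_top_of_le_ne_top ENNReal.ofReal_ne_top (htd i)
    have hD0 : 0 ≤ D := ENNReal.toReal_nonneg
    have hD4 : D ≤ 1/4 := by
      have := ENNReal.toReal_mono ENNReal.ofReal_ne_top (htd i)
      rwa [ENNReal.toReal_ofReal (by norm_num)] at this
    have hcont : ContinuousAt (fun ρ : ℝ => ρ ^ s) D := by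
      exact Real.continuousAt_rpow_const D s (Or.inr hs.le)
    have hev : ∀ᶠ ρ in 𝓝 D, ρ ^ s < D ^ s + ε' i := by
      have h5 : (0:ℝ) < ε' i := hε'0 i
      have h6 : (fun ρ : ℝ => ρ ^ s) D < D ^ s + ε' i := by
        show D ^ s < D ^ s + ε' i
        linarith
      exact hcont.eventually (gt_mem_nhds h6)
    have hev2 : ∀ᶠ ρ in 𝓝[>] D, ρ ^ s < D ^ s + ε' i := hev.filter_mono nhdsWithin_le_nhds
    have hev3 : ∀ᶠ ρ in 𝓝[>] D, ρ ∈ Ioc D (1/2) := Ioc_mem_nhdsGT (by linarith)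
    obtain ⟨ρ, hρ1, hρ2⟩ := (hev2.and hev3).exists
    have hρ0 : 0 < ρ := lt_of_le_of_lt hD0 hρ2.1
    obtain ⟨j, hj1, hj2⟩ := exists_nat_pow_near_of_lt_one hρ0 (by linarith [hρ2.2] : ρ ≤ 1)
      (by norm_num : (0:ℝ) < 1/2) (by norm_num)
    have hwt : wt s j ≤ 2 ^ s * ρ ^ s := by
      have e1 : wt s j = ((1/2:ℝ) ^ j) ^ s := by
        rw [wt, ← Real.rpow_natCast, ← Real.rpow_mul (by norm_num), one_div,
          Real.inv_rpow (by norm_num), ← Real.rpow_neg (by norm_num)]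
        congr 1; ring
      rw [e1, ← Real.mul_rpow (by norm_num) hρ0.le]
      apply Real.rpow_le_rpow (by positivity) _ hs.le
      rw [pow_succ] at hj1
      linarith
    have hfin : ENNReal.ofReal (wt s j) ≤ ENNReal.ofReal (2 ^ s) *
        ((⨆ _ : (t i).Nonempty, ediam (t i) ^ s) + ε' i) := by
      have e2 : ENNReal.ofReal (D ^ s) = ⨆ _ : (t i).Nonempty, ediam (t i) ^ s := by
        rcases (t i).eq_empty_or_nonempty with he | he
        · have : D = 0 := by rw [hD, he]; simp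
          rw [this, Real.zero_rpow hs.ne']
          simp [he]
        · simp only [he, iSup_pos]
          rw [← ENNReal.ofReal_rpow_of_nonneg hD0 hs.le, hD, ENNReal.ofReal_toReal hDtop]
      rw [← e2, ← ENNReal.ofReal_coe_nnreal, ← ENNReal.ofReal_add (Real.rpow_nonneg hD0 s)
        (NNReal.coe_nonneg _), ← ENNReal.ofReal_mul h2s.le]
      apply ENNReal.ofReal_le_ofReal
      exact hwt.trans (mul_le_mul_of_nonneg_left hρ1.le h2s.le)
    rcases (t i).eq_empty_or_nonempty with he | ⟨x, hx⟩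
    · exact ⟨0, ρ, j, by rw [he]; exact empty_subset _, hj2, hfin⟩
    · refine ⟨x, ρ, j, ?_, hj2, hfin⟩
      intro y hy
      rw [mem_ball]
      have : edist y x ≤ ediam (t i) := edist_le_ediam_of_mem hy hx
      have h5 : dist y x ≤ D := by
        rw [dist_edist, hD]
        exact ENNReal.toReal_mono hDtop this
      exact h5.trans_lt hρ2.1
  choose x ρ j hball hρj hwt using key
  obtain ⟨F, hF⟩ := hK.elim_finite_subcover (fun i : ℕ => ball (x i) (ρ i))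
    (fun i => isOpen_ball) (htK.trans (iUnion_mono hball))
  set E := Fintype.piFinset (fun _ : Fin n => Finset.Icc (-1:ℤ) 1) with hE
  refine ⟨F.biUnion fun i => E.image fun e => tr e (dy (j i) (x i)), ?_, ?_⟩
  · intro y hy
    obtain ⟨i, hi⟩ := mem_iUnion.1 (hF hy)
    obtain ⟨hiF, hyi⟩ := mem_iUnion.1 hi
    obtain ⟨e, he, hye⟩ := ball_subset_cubes (hρj i) hyi
    exact ⟨_, Finset.mem_biUnion.2 ⟨i, hiF, Finset.mem_image.2 ⟨e, he, rfl⟩⟩, hye⟩
  · have hcard : E.card = 3 ^ n := by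
      rw [hE, Fintype.card_piFinset]; simp
    have b1 : ∑ Q ∈ F.biUnion fun i => E.image fun e => tr e (dy (j i) (x i)), wt s Q.1 ≤
        ∑ i ∈ F, 3 ^ n * wt s (j i) := by
      refine (sum_biUnion_le_aux F _ (fun Q => wt s Q.1) fun Q => (wt_pos _ _).le).trans ?_
      · refine Finset.sum_le_sum fun i _ => ?_
        calc ∑ Q ∈ E.image fun e => tr e (dy (j i) (x i)), wt s Q.1
            ≤ ∑ e ∈ E, wt s (tr e (dy (j i) (x i))).1 :=
              Finset.sum_image_le_of_nonneg fun _ _ => (wt_pos _ _).le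
          _ = 3 ^ n * wt s (j i) := by
              simp only [tr, dy_fst, Finset.sum_const, hcard, nsmul_eq_mul]
              push_cast
              ring
    have b2 : ENNReal.ofReal (∑ i ∈ F, wt s (j i)) < ENNReal.ofReal (2 ^ s * (2 * ε)) := by
      rw [ENNReal.ofReal_sum_of_nonneg (fun i _ => (wt_pos _ _).le)]
      calc ∑ i ∈ F, ENNReal.ofReal (wt s (j i)) ≤ ∑ i ∈ F, ENNReal.ofReal (2 ^ s) *
              ((⨆ _ : (t i).Nonempty, ediam (t i) ^ s) + ε' i) :=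
            Finset.sum_le_sum fun i _ => hwt i
        _ = ENNReal.ofReal (2 ^ s) * ∑ i ∈ F, ((⨆ _ : (t i).Nonempty, ediam (t i) ^ s) + ε' i) := by
            rw [Finset.mul_sum]
        _ ≤ ENNReal.ofReal (2 ^ s) * ((∑' i, ⨆ _ : (t i).Nonempty, ediam (t i) ^ s) +
              ∑' i, (ε' i : ℝ≥0∞)) := by
            gcongr
            rw [Finset.sum_add_distrib]
            gcongr
            · exact ENNReal.sum_le_tsum F
            · exact ENNReal.sum_le_tsum F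
        _ < ENNReal.ofReal (2 ^ s) * (ENNReal.ofReal ε + ENNReal.ofReal ε) := by
            apply ENNReal.mul_lt_mul_right (ENNReal.ofReal_pos.2 h2s).ne' ENNReal.ofReal_ne_top
            exact ENNReal.add_lt_add hts hε's
        _ = ENNReal.ofReal (2 ^ s * (2 * ε)) := by
            rw [← ENNReal.ofReal_add hεp.le hεp.le, ← ENNReal.ofReal_mul h2s.le]
            congr 1; ring
    have b3 : ∑ i ∈ F, wt s (j i) < 2 ^ s * (2 * ε) :=
      (ENNReal.ofReal_lt_ofReal_iff (by positivity)).1 b2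
    have b4 : (3:ℝ) ^ n * (2 ^ s * (2 * ε)) = δ := by
      rw [hε]; field_simp
    rw [← Finset.mul_sum] at b1
    have b5 : (3:ℝ) ^ n * ∑ i ∈ F, wt s (j i) < 3 ^ n * (2 ^ s * (2 * ε)) :=
      mul_lt_mul_of_pos_left b3 (by positivity)
    linarith

lemma ediam_cube_le (Q : Dy n) : ediam (cube Q) ≤ ENNReal.ofReal ((1/2:ℝ) ^ Q.1) := by
  apply ediam_le
  intro x hx y hy
  rw [edist_dist]
  apply ENNReal.ofReal_le_ofReal
  rw [dist_pi_le_iff (by positivity)]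
  intro i
  have hp : (0:ℝ) < 2 ^ Q.1 := by positivity
  rw [Real.dist_eq]
  have h1 := hx i
  have h2 := hy i
  have h3 : |(2:ℝ) ^ Q.1 * x i - 2 ^ Q.1 * y i| ≤ 1 := by
    rw [abs_le]; constructor <;> linarith [h1.1, h1.2, h2.1, h2.2]
  rw [← mul_sub, abs_mul, abs_of_pos hp] at h3
  have h4 : (1/2:ℝ) ^ Q.1 = 1 / 2 ^ Q.1 := by rw [one_div_pow]
  rw [h4, le_div_iff₀ hp, mul_comm]
  exact h3

theorem hausdorff_of_cover {s : ℝ} (hs : 0 < s) {K : Set (Fin n → ℝ)}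
    (h : ∀ δ : ℝ≥0∞, 0 < δ → ∃ S : Set (Dy n), (∀ x ∈ K, ∃ Q ∈ S, x ∈ cube Q) ∧
      ∑' Q : S, ENNReal.ofReal (wt s Q.1.1) ≤ δ) :
    Measure.hausdorffMeasure s K = 0 := by
  have hδ : ∀ m : ℕ, 0 < ENNReal.ofReal ((1/2:ℝ) ^ m) := fun m => ENNReal.ofReal_pos.2 (by positivity)
  choose S hS1 hS2 using fun m : ℕ => h _ (hδ m)
  have hdiam : ∀ m, ∀ Q : S m, ediam (cube Q.1) ^ s ≤ ENNReal.ofReal (wt s Q.1.1) := by
    intro m Q
    have h1 := ENNReal.rpow_le_rpow (ediam_cube_le Q.1) hs.le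
    refine h1.trans (le_of_eq ?_)
    rw [ENNReal.ofReal_rpow_of_nonneg (by positivity) hs.le]
    congr 1
    rw [wt, ← Real.rpow_natCast, ← Real.rpow_mul (by norm_num), one_div,
          Real.inv_rpow (by norm_num), ← Real.rpow_neg (by norm_num)]
    congr 1; ring
  have hle : Measure.hausdorffMeasure s K ≤
      Filter.liminf (fun m : ℕ => ∑' Q : S m, ediam (cube Q.1) ^ s) Filter.atTop := by
    have hr : Filter.Tendsto (fun m : ℕ => ENNReal.ofReal (((1/2:ℝ) ^ m) ^ (1/s))) Filter.atTop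
        (𝓝 0) := by
      rw [← ENNReal.ofReal_zero]
      apply ENNReal.tendsto_ofReal
      have h1 : ∀ m : ℕ, ((1/2:ℝ) ^ m) ^ (1/s) = ((1/2:ℝ) ^ (1/s)) ^ m := by
        intro m
        rw [← Real.rpow_natCast, ← Real.rpow_natCast, ← Real.rpow_mul (by norm_num),
          ← Real.rpow_mul (by norm_num), mul_comm]
      simp_rw [h1]
      apply tendsto_pow_atTop_nhds_zero_of_lt_one (by positivity)
      exact Real.rpow_lt_one (by norm_num) (by norm_num) (by positivity)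
    have ht : ∀ᶠ m : ℕ in Filter.atTop, ∀ Q : S m, ediam (cube Q.1) ≤
        ENNReal.ofReal (((1/2:ℝ) ^ m) ^ (1/s)) := by
      refine Filter.Eventually.of_forall fun m Q => ?_
      have h1 : ediam (cube Q.1) ^ s ≤ ENNReal.ofReal ((1/2:ℝ) ^ m) := by
        refine (hdiam m Q).trans (le_trans ?_ (hS2 m))
        exact ENNReal.le_tsum Q
      have h2 := ENNReal.rpow_le_rpow h1 (by positivity : 0 ≤ 1/s)
      rw [← ENNReal.rpow_mul, mul_one_div_cancel hs.ne', ENNReal.rpow_one,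
        ENNReal.ofReal_rpow_of_nonneg (by positivity) (by positivity)] at h2
      exact h2
    have hst : ∀ᶠ m : ℕ in Filter.atTop, K ⊆ ⋃ Q : S m, cube Q.1 := by
      refine Filter.Eventually.of_forall fun m x hx => ?_
      obtain ⟨Q, hQ, hxQ⟩ := hS1 m x hx
      exact mem_iUnion.2 ⟨⟨Q, hQ⟩, hxQ⟩
    exact Measure.hausdorffMeasure_le_liminf_tsum (β := ℕ) (ι := fun m => (S m)) s K
      (fun m : ℕ => ENNReal.ofReal (((1/2:ℝ) ^ m) ^ (1/s))) hr (fun m (Q : S m) => cube Q.1) ht hst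
  have hle2 : Filter.liminf (fun m : ℕ => ∑' Q : S m, ediam (cube Q.1) ^ s) Filter.atTop ≤
      Filter.liminf (fun m : ℕ => ENNReal.ofReal ((1/2:ℝ) ^ m)) Filter.atTop := by
    exact Filter.liminf_le_liminf (Filter.Eventually.of_forall
      fun m => (ENNReal.tsum_le_tsum (hdiam m)).trans (hS2 m))
  have hlim : Filter.Tendsto (fun m : ℕ => ENNReal.ofReal ((1/2:ℝ) ^ m)) Filter.atTop (𝓝 0) := by
    rw [← ENNReal.ofReal_zero]
    apply ENNReal.tendsto_ofReal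
    exact tendsto_pow_atTop_nhds_zero_of_lt_one (by norm_num) (by norm_num)
  rw [hlim.liminf_eq] at hle2
  exact le_antisymm (hle.trans hle2) bot_le

end Pool.Agent.R222.BHB
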