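import Pool.Agent.R222.BHB.Carl

open MeasureTheory Set Topology
open scoped ENNReal NNReal

namespace Pool.Agent.R222.BHB

variable {n : ℕ}

theorem rounding (t w : Dy n → ℝ≥0∞) (K : Set (Fin n → ℝ))
    (hK : ∀ x ∈ K, 1 ≤ ∑' m, t (dy m x)) :
    ∃ S : Set (Dy n), (∀ x ∈ K, ∃ Q ∈ S, x ∈ cube Q) ∧
      ∑' Q : S, w Q.1 ≤ ∑' Q, t Q * w Q := by
  classical
  set G' : Dy n → ℝ≥0∞ := fun Q => ∑ m ∈ Finset.range Q.1, t (anc m Q) with hG'
  set I : Dy n → Set ℝ := fun Q => {θ | G' Q < ENNReal.ofReal θ ∧ ENNReal.ofReal θ ≤ G' Q + t Q}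
    with hI
  have hIm : ∀ Q, MeasurableSet (I Q) := by
    intro Q
    have h1 : MeasurableSet {θ : ℝ | G' Q < ENNReal.ofReal θ} :=
      measurableSet_lt measurable_const ENNReal.measurable_ofReal
    have h2 : MeasurableSet {θ : ℝ | ENNReal.ofReal θ ≤ G' Q + t Q} :=
      measurableSet_le ENNReal.measurable_ofReal measurable_const
    exact h1.inter h2
  have hvol : ∀ Q, volume (I Q ∩ Ioo 0 1) ≤ t Q := by
    intro Q
    by_cases h1 : G' Q = ⊤
    · have : I Q ∩ Ioo 0 1 = ∅ := by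
        ext θ
        simp only [hI, mem_inter_iff, mem_ofPred_eq, mem_empty_iff_false, iff_false]
        rintro ⟨⟨h2, _⟩, _⟩
        rw [h1] at h2
        exact absurd h2 (not_lt.2 le_top)
      rw [this]; simp
    by_cases h2 : t Q = ⊤
    · rw [h2]; exact le_top
    have h3 : I Q ∩ Ioo 0 1 ⊆ Ioc (G' Q).toReal ((G' Q).toReal + (t Q).toReal) := by
      rintro θ ⟨⟨h4, h5⟩, h6, _⟩
      constructor
      · exact (ENNReal.lt_ofReal_iff_toReal_lt h1).1 h4
      · rw [← ENNReal.toReal_add h1 h2]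
        exact (ENNReal.ofReal_le_iff_le_toReal (ENNReal.add_ne_top.2 ⟨h1, h2⟩)).1 h5
    refine (measure_mono h3).trans ?_
    rw [Real.volume_Ioc, add_sub_cancel_left, ENNReal.ofReal_toReal h2]
  set h : ℝ → ℝ≥0∞ := fun θ => ∑' Q, (I Q).indicator (fun _ => w Q) θ with hh
  have hm : Measurable h := Measurable.tsum fun Q => measurable_const.indicator (hIm Q)
  have hvol01 : volume (Ioo (0:ℝ) 1) = 1 := by simp
  obtain ⟨θ, hθ, hle⟩ := exists_le_setLAverage (μ := volume) (s := Ioo (0:ℝ) 1) (f := h)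
    (by rw [hvol01]; exact one_ne_zero) (by rw [hvol01]; exact ENNReal.one_ne_top) hm.aemeasurable
  rw [setLAverage_eq, hvol01, div_one, hh] at hle
  simp only at hle
  rw [lintegral_tsum (fun Q => (measurable_const.indicator (hIm Q)).aemeasurable)] at hle
  have hle2 : ∑' Q, ∫⁻ θ in Ioo (0:ℝ) 1, (I Q).indicator (fun _ => w Q) θ ≤ ∑' Q, t Q * w Q := by
    refine ENNReal.tsum_le_tsum fun Q => ?_
    rw [lintegral_indicator_const (hIm Q), Measure.restrict_apply (hIm Q), mul_comm]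
    exact mul_le_mul_left (hvol Q) _
  refine ⟨{Q | θ ∈ I Q}, ?_, ?_⟩
  · intro x hx
    have h1 : ENNReal.ofReal θ < ∑' m, t (dy m x) := by
      refine lt_of_lt_of_le ?_ (hK x hx)
      rw [← ENNReal.ofReal_one]
      exact (ENNReal.ofReal_lt_ofReal_iff one_pos).2 hθ.2
    rw [ENNReal.tsum_eq_iSup_nat, lt_iSup_iff] at h1
    obtain ⟨m, hm⟩ := h1
    have hex : ∃ m, ENNReal.ofReal θ ≤ ∑ i ∈ Finset.range m, t (dy i x) := ⟨m, hm.le⟩
    have hspec := Nat.find_spec hex
    set k := Nat.find hex with hk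
    have hk0 : k ≠ 0 := by
      intro h0
      rw [h0] at hspec
      simp only [Finset.range_zero, Finset.sum_empty, nonpos_iff_eq_zero] at hspec
      have := ENNReal.ofReal_pos.2 hθ.1
      rw [hspec] at this
      exact absurd this (lt_irrefl _)
    obtain ⟨k', hk'⟩ := Nat.exists_eq_succ_of_ne_zero hk0
    have hmin : ¬ ENNReal.ofReal θ ≤ ∑ i ∈ Finset.range k', t (dy i x) :=
      Nat.find_min hex (by omega)
    push Not at hmin
    refine ⟨dy k' x, ?_, mem_cube_dy k' x⟩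
    show θ ∈ I (dy k' x)
    have e1 : G' (dy k' x) = ∑ i ∈ Finset.range k', t (dy i x) := by
      rw [hG']
      simp only [dy_fst]
      refine Finset.sum_congr rfl fun i hi => ?_
      rw [anc_dy (Finset.mem_range.1 hi).le]
    refine ⟨by rw [e1]; exact hmin, ?_⟩
    rw [e1, ← Finset.sum_range_succ]
    rw [hk'] at hspec
    exact hspec
  · have e2 : ∑' Q : {Q | θ ∈ I Q}, w Q.1 = ∑' Q, (I Q).indicator (fun _ => w Q) θ := by
      rw [tsum_subtype {Q | θ ∈ I Q} w]
      refine tsum_congr fun Q => ?_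
      by_cases hQ : θ ∈ I Q
      · rw [indicator_of_mem hQ, indicator_of_mem]; exact hQ
      · rw [indicator_of_notMem hQ, indicator_of_notMem]; exact hQ
    rw [e2]
    exact hle.trans hle2

end Pool.Agent.R222.BHB
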