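import Pool.Agent.R222.BHB.Upper
import Pool.Agent.R222.BHB.Anal
import Pool.Agent.R222.BHB.Round

open MeasureTheory Set Topology
open scoped ENNReal NNReal ContDiff

namespace Pool.Agent.R222.BHB

variable {n : ℕ} {𝒟 : Set ((Fin n → ℝ) → ℝ)}

lemma isAtom_zero (p α : ℝ) (Q : Dy n) : IsAtom p α Q (0 : (Fin n → ℝ) → ℝ) := by
  refine ⟨contDiff_const, fun _ _ => rfl, ?_, ?_⟩
  · intro m _ x
    have : iteratedFDeriv ℝ m (0 : (Fin n → ℝ) → ℝ) = 0 := iteratedFDeriv_fun_zero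
    rw [this]
    simp only [Pi.zero_apply, norm_zero]
    exact Real.rpow_nonneg (by norm_num) _
  · intro _ β _
    simp

lemma cf_eq {p : ℝ} (hp : 0 < p) (s : Dy n → ℝ) (Q : Dy n) :
    (ENNReal.ofReal ((|s Q| * (2 : ℝ) ^ ((Q.1 : ℝ) * n / p)) ^ 2)) ^ (p / 2) = cf p s Q := by
  have h2 : 0 < (2 : ℝ) ^ ((Q.1 : ℝ) * n / p) := Real.rpow_pos_of_pos (by norm_num) _
  rw [ENNReal.ofReal_rpow_of_nonneg (by positivity) (by positivity), cf, ← Real.rpow_natCast,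
    ← Real.rpow_mul (by positivity)]
  congr 1
  have : ((2:ℕ):ℝ) * (p / 2) = p := by push_cast; ring
  rw [this, Real.mul_rpow (abs_nonneg _) h2.le, ← Real.rpow_mul (by norm_num)]
  congr 2
  field_simp

lemma sup_le_triebel {p : ℝ} (hp : 0 < p) (s : Dy n → ℝ) :
    ∫⁻ x, ⨆ i, cf p s (dy i x) ≤ triebelSeq p s := by
  rw [triebelSeq]
  apply lintegral_mono
  intro x
  simp only
  apply iSup_le
  intro i
  rw [← cf_eq hp]
  apply ENNReal.rpow_le_rpow _ (by positivity)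
  refine le_trans ?_ (ENNReal.le_tsum (dy i x))
  rw [indicator_of_mem (mem_cube_dy i x)]

lemma triebel_le_besov {p : ℝ} (hp : 0 < p) (hp1 : p < 1) (s : Dy n → ℝ) :
    triebelSeq p s ≤ besovSeq p s := by
  rw [triebelSeq]
  have h1 : ∀ x : Fin n → ℝ, (∑' Q : Dy n, (cube Q).indicator
      (fun _ => ENNReal.ofReal ((|s Q| * (2 : ℝ) ^ ((Q.1 : ℝ) * n / p)) ^ 2)) x) ^ (p / 2) ≤
      ∑' Q : Dy n, (cube Q).indicator (fun _ => cf p s Q) x := by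
    intro x
    refine (enn_rpow_tsum_le _ (by positivity) (by linarith)).trans (le_of_eq ?_)
    refine tsum_congr fun Q => ?_
    by_cases hx : x ∈ cube Q
    · rw [indicator_of_mem hx, indicator_of_mem hx, cf_eq hp]
    · rw [indicator_of_notMem hx, indicator_of_notMem hx]
      exact ENNReal.zero_rpow_of_pos (by positivity)
  refine (lintegral_mono h1).trans (le_of_eq ?_)
  rw [lintegral_tsum (fun Q => (measurable_const.indicator (measurableSet_cube _)).aemeasurable),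
    besovSeq]
  refine tsum_congr fun Q => ?_
  rw [lintegral_indicator_const (measurableSet_cube _), vol_cube, cf,
    ← ENNReal.ofReal_mul (by positivity)]
  congr 1
  rw [mul_assoc, wt, ← Real.rpow_add (by norm_num)]
  have : (Q.1:ℝ) * n + -(Q.1:ℝ) * n = 0 := by ring
  rw [this, Real.rpow_zero, mul_one]

lemma capB_le_capA {p α : ℝ} (hp : 0 < p) (hp1 : p < 1) (K : Set (Fin n → ℝ)) :
    capB 𝒟 p α K ≤ capA 𝒟 p α K := by
  rw [capB, capA]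
  refine iInf_mono fun u => iInf_mono fun hu => iInf_mono fun hK => ?_
  rw [besovP, triebelP]
  exact iInf_mono fun s => iInf_mono fun hs => triebel_le_besov hp hp1 s

lemma exists_of_capB_lt {p α : ℝ} {K : Set (Fin n → ℝ)} {δ : ℝ≥0∞} (h : capB 𝒟 p α K < δ) :
    ∃ (u : (Fin n → ℝ) → ℝ) (s : Dy n → ℝ), u ∈ 𝒟 ∧ (∀ x ∈ K, 1 ≤ u x) ∧ Rep p α u s ∧
      triebelSeq p s < δ := by
  rw [capB] at h
  simp only [triebelP, iInf_lt_iff] at h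
  obtain ⟨u, hu, hK, s, hs, hlt⟩ := h
  exact ⟨u, s, hu, hK, hs, hlt⟩

lemma capA_le {p α : ℝ} {K : Set (Fin n → ℝ)} {u : (Fin n → ℝ) → ℝ} {s : Dy n → ℝ}
    (hu : u ∈ 𝒟) (hK : ∀ x ∈ K, 1 ≤ u x) (hs : Rep p α u s) :
    capA 𝒟 p α K ≤ besovSeq p s := by
  rw [capA]
  refine iInf_le_of_le u (iInf_le_of_le hu (iInf_le_of_le hK ?_))
  rw [besovP]
  exact iInf_le_of_le s (iInf_le_of_le hs le_rfl)

lemma capA_empty (h𝒟 : ∀ u, IsTest u → u ∈ 𝒟) {p α : ℝ} (hp : 0 < p) :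
    capA 𝒟 p α (∅ : Set (Fin n → ℝ)) = 0 := by
  have h1 : Rep p α (0 : (Fin n → ℝ) → ℝ) (0 : Dy n → ℝ) := by
    refine ⟨fun _ => 0, fun Q => isAtom_zero p α Q, fun φ _ => ?_⟩
    simp only [Pi.zero_apply, zero_mul, integral_zero, mul_zero]
    exact hasSum_zero
  have h2 := capA_le (K := ∅) (h𝒟 _ ⟨contDiff_const, HasCompactSupport.zero⟩) (by simp) h1
  refine le_antisymm (h2.trans (le_of_eq ?_)) bot_le
  rw [besovSeq]
  simp [Real.zero_rpow hp.ne']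

/-- lower bounds -/
theorem lower_key (hn : 0 < n) {p α : ℝ} (hp : 0 < p) (hp1 : p < 1) (hα : 0 < α)
    {σ : ℝ} (hσ1 : n ≤ α * p + σ) (hσ2 : σ ≤ max (n - α * p) 0) :
    ∃ C : ℝ≥0∞, C < ⊤ ∧ ∀ (K : Set (Fin n → ℝ)) (u : (Fin n → ℝ) → ℝ) (s : Dy n → ℝ),
      IsCompact K → Continuous u → (∀ x ∈ K, 1 ≤ u x) → Rep p α u s →
      ∃ t : Dy n → ℝ≥0∞, (∀ x ∈ K, 1 ≤ ∑' m, t (dy m x)) ∧
        ∑' R : Dy n, t R * ew σ R.1 ≤ C * triebelSeq p s := by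
  set M : ℕ := ⌊(n:ℝ) * (1 / p - 1) - α + 1⌋₊ with hM
  have hn' : (0:ℝ) < n := by exact_mod_cast hn
  have hγ : σ < ((n:ℝ) + M) * p := by
    refine lt_of_le_of_lt hσ2 (max_lt ?_ (by positivity))
    have h1 : (n:ℝ) * (1 / p - 1) - α + 1 < M + 1 := Nat.lt_floor_add_one _
    have h2 : ((n:ℝ) + ((n:ℝ) * (1 / p - 1) - α)) * p < ((n:ℝ) + M) * p :=
      mul_lt_mul_of_pos_right (by linarith) hp
    have h3 : ((n:ℝ) + ((n:ℝ) * (1 / p - 1) - α)) * p = n - α * p := by field_simp; ring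
    linarith
  obtain ⟨Ca, hCa, hanal⟩ := analysis_bound (n := n) hp hp1 M hM hα
  obtain ⟨Ct, hCt, htree⟩ := tree_bound (n := n) (A := α * p) (γ := ((n:ℝ) + M) * p) (s := σ)
    (mul_pos hα hp) hσ1 hγ
  refine ⟨Ca * Ct, ENNReal.mul_lt_top hCa hCt, ?_⟩
  intro K u s hKc hu hK hs
  obtain ⟨J, hJ⟩ := hanal K u s hKc hu hK hs
  obtain ⟨t, ht1, ht2⟩ := htree (cf p s) J
  refine ⟨fun Q => Ca * t Q, ?_, ?_⟩
  · intro x hx
    rw [ENNReal.tsum_mul_left]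
    exact (hJ x hx).trans (mul_le_mul_right (ht1 x) _)
  · calc ∑' R : Dy n, Ca * t R * ew σ R.1 = Ca * ∑' R : Dy n, t R * ew σ R.1 := by
          rw [← ENNReal.tsum_mul_left]
          exact tsum_congr fun R => by ring
      _ ≤ Ca * (Ct * ∫⁻ x, ⨆ i, cf p s (dy i x)) := mul_le_mul_right ht2 _
      _ ≤ Ca * (Ct * triebelSeq p s) := by
          gcongr
          exact sup_le_triebel hp s
      _ = Ca * Ct * triebelSeq p s := by ring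

theorem hausdorff_of_capB (h𝒟 : ∀ u ∈ 𝒟, Continuous u) (hn : 0 < n) {p α : ℝ} (hp : 0 < p)
    (hp1 : p < 1) (hα : 0 < α) (hαp : α * p < n) {K : Set (Fin n → ℝ)} (hKc : IsCompact K)
    (hK : capB 𝒟 p α K = 0) :
    Measure.hausdorffMeasure (n - α * p) K = 0 := by
  obtain ⟨C, hC, h⟩ := lower_key hn hp hp1 hα (σ := n - α * p) (by linarith)
    (le_max_left _ _)
  apply hausdorff_of_cover (by linarith)
  intro δ hδ
  by_cases hδt : δ = ⊤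
  · refine ⟨univ, fun x _ => ⟨dy 0 x, mem_univ _, mem_cube_dy 0 x⟩, by rw [hδt]; exact le_top⟩
  have hδ' : 0 < δ / (C + 1) :=
    ENNReal.div_pos hδ.ne' (ENNReal.add_lt_top.2 ⟨hC, ENNReal.one_lt_top⟩).ne
  rw [← hK] at hδ'
  obtain ⟨u, s, hu, huK, hs, hlt⟩ := exists_of_capB_lt hδ'
  obtain ⟨t, ht1, ht2⟩ := h K u s hKc (h𝒟 u hu) huK hs
  obtain ⟨S, hS1, hS2⟩ := rounding t (fun Q => ew (n - α * p) Q.1) K ht1
  refine ⟨S, hS1, hS2.trans (ht2.trans ?_)⟩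
  calc C * triebelSeq p s ≤ (C + 1) * (δ / (C + 1)) := by
        gcongr
        exact le_self_add
    _ ≤ δ := ENNReal.mul_div_le

theorem empty_of_capB (h𝒟 : ∀ u ∈ 𝒟, Continuous u) (hn : 0 < n) {p α : ℝ} (hp : 0 < p)
    (hp1 : p < 1) (hα : 0 < α) (hαp : n ≤ α * p) {K : Set (Fin n → ℝ)} (hKc : IsCompact K)
    (hK : capB 𝒟 p α K = 0) : K = ∅ := by
  obtain ⟨C, hC, h⟩ := lower_key hn hp hp1 hα (σ := 0) (by linarith) (le_max_right _ _)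
  by_contra hne
  obtain ⟨x, hx⟩ := nonempty_iff_ne_empty.2 hne
  have hδ' : 0 < (1/2 : ℝ≥0∞) / (C + 1) :=
    ENNReal.div_pos (by simp) (ENNReal.add_lt_top.2 ⟨hC, ENNReal.one_lt_top⟩).ne
  rw [← hK] at hδ'
  obtain ⟨u, s, hu, huK, hs, hlt⟩ := exists_of_capB_lt hδ'
  obtain ⟨t, ht1, ht2⟩ := h K u s hKc (h𝒟 u hu) huK hs
  have h1 : (1:ℝ≥0∞) ≤ 1/2 := by
    calc (1:ℝ≥0∞) ≤ ∑' m, t (dy m x) := ht1 x hx
      _ ≤ ∑' R : Dy n, t R := ENNReal.tsum_comp_le_tsum_of_injective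
          (f := fun m => dy m x) (fun a b hab => congrArg Prod.fst hab) t
      _ = ∑' R : Dy n, t R * ew 0 R.1 := by
          refine tsum_congr fun R => ?_
          rw [ew, wt, mul_zero, Real.rpow_zero, ENNReal.ofReal_one, mul_one]
      _ ≤ C * triebelSeq p s := ht2
      _ ≤ (C + 1) * ((1/2) / (C + 1)) := by
          gcongr
          exact le_self_add
      _ ≤ 1/2 := ENNReal.mul_div_le
  rw [one_div] at h1
  have h2 : (2:ℝ≥0∞)⁻¹ < 1 := ENNReal.inv_lt_one.2 ENNReal.one_lt_two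
  exact absurd h1 (not_le.2 h2)

theorem capA_of_hausdorff (h𝒟 : ∀ u, IsTest u → u ∈ 𝒟) {p α : ℝ} (hp : 0 < p) (hp1 : p < 1) (hα : 0 < α)
    (hαp : α * p < n) {K : Set (Fin n → ℝ)} (hK : IsCompact K)
    (hH : Measure.hausdorffMeasure (n - α * p) K = 0) : capA 𝒟 p α K = 0 := by
  obtain ⟨M, hM, h⟩ := upper_key (n := n) hp hp1 hα hαp
  have key : ∀ δ : ℝ, 0 < δ → δ ≤ 1 → capA 𝒟 p α K ≤ ENNReal.ofReal (M * δ) := by
    intro δ hδ hδ1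
    obtain ⟨C0, hC0, hcost⟩ := cover_of_hausdorff (by linarith) hK hH hδ
    obtain ⟨u, s, hu, huK, hs, hle⟩ := h K C0 hC0 δ hδ1 hcost
    exact (capA_le (h𝒟 u hu) huK hs).trans hle
  apply le_antisymm _ bot_le
  apply ENNReal.le_of_forall_pos_le_add
  intro ε hε _
  rw [show (⊥ : ℝ≥0∞) = 0 from rfl, zero_add]
  have hε' : (0:ℝ) < ε := hε
  have h1 : 0 < min 1 ((ε:ℝ) / M) := lt_min one_pos (by positivity)
  refine (key _ h1 (min_le_left _ _)).trans ?_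
  rw [← ENNReal.ofReal_coe_nnreal]
  apply ENNReal.ofReal_le_ofReal
  calc M * min 1 ((ε:ℝ) / M) ≤ M * ((ε:ℝ) / M) :=
        mul_le_mul_of_nonneg_left (min_le_right _ _) hM.le
    _ = ε := by field_simp

theorem main (hn : 0 < n) {p α : ℝ} (hp : 0 < p) (hp1 : p < 1) (hα : 0 < α)
    {𝒟₁ 𝒟₂ : Set ((Fin n → ℝ) → ℝ)}
    (h₁ : ∀ u, IsTest u → u ∈ 𝒟₁) (h₁' : ∀ u ∈ 𝒟₁, Continuous u)
    (h₂ : ∀ u, IsTest u → u ∈ 𝒟₂) (h₂' : ∀ u ∈ 𝒟₂, Continuous u)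
    {K : Set (Fin n → ℝ)} (hK : IsCompact K) :
    (capA 𝒟₁ p α K = 0 ↔ capB 𝒟₂ p α K = 0) ∧
    (α * p < n → (capA 𝒟₁ p α K = 0 ↔ Measure.hausdorffMeasure (n - α * p) K = 0)) ∧
    (n ≤ α * p → (capA 𝒟₁ p α K = 0 ↔ K = ∅)) := by
  have h1 : ∀ {𝒟 : Set ((Fin n → ℝ) → ℝ)}, capA 𝒟 p α K = 0 → capB 𝒟 p α K = 0 := fun h =>
    le_antisymm ((capB_le_capA hp hp1 K).trans h.le) bot_le
  rcases lt_or_ge (α * p) n with hαp | hαp
  · have hA : ∀ {𝒟 : Set ((Fin n → ℝ) → ℝ)}, (∀ u, IsTest u → u ∈ 𝒟) → (∀ u ∈ 𝒟, Continuous u) →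
        (capA 𝒟 p α K = 0 ↔ Measure.hausdorffMeasure (n - α * p) K = 0) := fun h h' =>
      ⟨fun hA => hausdorff_of_capB h' hn hp hp1 hα hαp hK (h1 hA),
        fun hH => capA_of_hausdorff h hp hp1 hα hαp hK hH⟩
    refine ⟨⟨fun h => ?_, fun h => ?_⟩, fun _ => hA h₁ h₁', fun h => absurd hαp (not_lt.2 h)⟩
    · exact h1 ((hA h₂ h₂').2 ((hA h₁ h₁').1 h))
    · exact (hA h₁ h₁').2 (hausdorff_of_capB h₂' hn hp hp1 hα hαp hK h)
  · have hA : ∀ {𝒟 : Set ((Fin n → ℝ) → ℝ)}, (∀ u, IsTest u → u ∈ 𝒟) → (∀ u ∈ 𝒟, Continuous u) →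
        (capA 𝒟 p α K = 0 ↔ K = ∅) := fun h h' =>
      ⟨fun hA => empty_of_capB h' hn hp hp1 hα hαp hK (h1 hA), fun hE => by
        rw [hE]; exact capA_empty h hp⟩
    refine ⟨⟨fun h => ?_, fun h => ?_⟩, fun h => absurd h (not_lt.2 hαp), fun _ => hA h₁ h₁'⟩
    · exact h1 ((hA h₂ h₂').2 ((hA h₁ h₁').1 h))
    · exact (hA h₁ h₁').2 (empty_of_capB h₂' hn hp hp1 hα hαp hK h)

end Pool.Agent.R222.BHB
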