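import Pool.Agent.R222.BHB.Dual

open MeasureTheory Set Topology
open scoped ENNReal ContDiff

namespace Pool.Agent.R222.BHB

variable {n : ℕ}

/-- vanishing of the monomial moments of order `< M` -/
def Van (M : ℕ) (f : (Fin n → ℝ) → ℝ) : Prop :=
  ∀ β : Fin n → ℕ, ∑ i, β i < M → ∫ x, (∏ i, x i ^ β i) * f x = 0

lemma integrable_mono {f : (Fin n → ℝ) → ℝ} (hf : Continuous f) (hfs : HasCompactSupport f)
    {q : (Fin n → ℝ) → ℝ} (hq : Continuous q) : Integrable (fun x => q x * f x) :=
  (hq.mul hf).integrable_of_hasCompactSupport hfs.mul_left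

lemma van_affine {M : ℕ} {f : (Fin n → ℝ) → ℝ} (hf : Continuous f) (hfs : HasCompactSupport f)
    (h : Van M f) (a : ℝ) (z : Fin n → ℝ) (β : Fin n → ℕ) (hβ : ∑ i, β i < M) :
    ∫ x, (∏ i, (a * x i + z i) ^ β i) * f x = 0 := by
  classical
  have h1 : ∀ x : Fin n → ℝ, (∏ i, (a * x i + z i) ^ β i) * f x =
      ∑ γ ∈ Fintype.piFinset (fun i => Finset.range (β i + 1)),
        (∏ i, (a ^ γ i * z i ^ (β i - γ i) * ((β i).choose (γ i) : ℝ))) *
          ((∏ i, x i ^ γ i) * f x) := by
    intro x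
    have : (∏ i, (a * x i + z i) ^ β i) = ∏ i, ∑ m ∈ Finset.range (β i + 1),
        (a * x i) ^ m * z i ^ (β i - m) * ((β i).choose m : ℝ) := by
      refine Finset.prod_congr rfl fun i _ => ?_
      rw [add_pow]
    rw [this, Finset.prod_univ_sum, Finset.sum_mul]
    refine Finset.sum_congr rfl fun γ _ => ?_
    rw [← mul_assoc, ← Finset.prod_mul_distrib]
    congr 1
    refine Finset.prod_congr rfl fun i _ => ?_
    rw [mul_pow]; ring
  simp_rw [h1]
  rw [integral_finsetSum]
  · refine Finset.sum_eq_zero fun γ hγ => ?_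
    rw [integral_const_mul, h γ, mul_zero]
    refine lt_of_le_of_lt (Finset.sum_le_sum fun i _ => ?_) hβ
    have := Fintype.mem_piFinset.1 hγ i
    rw [Finset.mem_range] at this
    omega
  · intro γ _
    exact (integrable_mono hf hfs (by fun_prop)).const_mul _

/-- change of variables `y = H x - w` -/
lemma integral_scale {F : (Fin n → ℝ) → ℝ} {H : ℝ} (hH : 0 < H) (w : Fin n → ℝ) :
    ∫ x : Fin n → ℝ, F (fun i => H * x i - w i) = (H ^ n)⁻¹ * ∫ y, F y := by
  have h1 : ∀ x : Fin n → ℝ, F (fun i => H * x i - w i) = (fun y => F (H • y)) (x - H⁻¹ • w) := by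
    intro x
    simp only
    congr 1
    ext i
    simp only [Pi.smul_apply, Pi.sub_apply, smul_eq_mul]
    field_simp
  simp_rw [h1]
  rw [integral_sub_right_eq_self (μ := volume) (fun y : Fin n → ℝ => F (H • y)),
    Measure.integral_comp_smul]
  simp only [Module.finrank_fintype_fun_eq_card, Fintype.card_fin, smul_eq_mul]
  rw [abs_of_pos (by positivity)]

lemma van_scale {M : ℕ} {f : (Fin n → ℝ) → ℝ} (hf : Continuous f) (hfs : HasCompactSupport f)
    (h : Van M f) {H : ℝ} (hH : 0 < H) (w : Fin n → ℝ) :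
    Van M (fun x => f (fun i => H * x i - w i)) := by
  intro β hβ
  have h1 : ∀ x : Fin n → ℝ, (∏ i, x i ^ β i) * f (fun i => H * x i - w i) =
      (fun y : Fin n → ℝ => (∏ i, (H⁻¹ * y i + H⁻¹ * w i) ^ β i) * f y) (fun i => H * x i - w i) := by
    intro x
    simp only
    congr 1
    refine Finset.prod_congr rfl fun i _ => ?_
    congr 1
    field_simp
    ring
  simp_rw [h1]
  rw [integral_scale (F := fun y : Fin n → ℝ => (∏ i, (H⁻¹ * y i + H⁻¹ * w i) ^ β i) * f y) hH w,
    van_affine hf hfs h H⁻¹ (fun i => H⁻¹ * w i) β hβ, mul_zero]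

lemma van_of_shift {M : ℕ} {f : (Fin n → ℝ) → ℝ} (hf : Continuous f) (hfs : HasCompactSupport f)
    (z : Fin n → ℝ)
    (h : ∀ β : Fin n → ℕ, ∑ i, β i < M → ∫ x, (∏ i, (x i - z i) ^ β i) * f x = 0) : Van M f := by
  have h1 : Van M (fun x => f (fun i => 1 * x i - (- z i))) := by
    intro β hβ
    have h2 : ∀ x : Fin n → ℝ, (∏ i, x i ^ β i) * f (fun i => 1 * x i - (- z i)) =
        (fun y : Fin n → ℝ => (∏ i, (y i - z i) ^ β i) * f y) (fun i => 1 * x i - (- z i)) := by
      intro x
      simp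
    simp_rw [h2]
    rw [integral_scale (F := fun y : Fin n → ℝ => (∏ i, (y i - z i) ^ β i) * f y) one_pos
      (fun i => - z i), h β hβ, mul_zero]
  have h3 : (fun x : Fin n → ℝ => f (fun i => 1 * x i - (- z i))) = fun x => f (x + z) := by
    ext x
    congr 1
    ext i
    simp
  rw [h3] at h1
  have h4 := van_scale (f := fun x => f (x + z)) (hf.comp (by fun_prop))
    (by
      have := hfs.comp_homeomorph (Homeomorph.addRight z)
      exact this) h1 one_pos z
  have h5 : (fun x : Fin n → ℝ => f ((fun i => 1 * x i - z i) + z)) = f := by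
    ext x
    congr 1
    ext i
    simp
  rwa [h5] at h4

end Pool.Agent.R222.BHB
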