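import Pool.Agent.R222.BHB.Defs

open MeasureTheory Set Topology
open scoped ENNReal ContDiff

namespace Pool.Agent.R222.BHB

variable {n : ℕ}

/-- the dyadic cube of level `j` containing `x` -/
noncomputable def dy (j : ℕ) (x : Fin n → ℝ) : Dy n := (j, fun i => ⌊(2:ℝ) ^ j * x i⌋)

@[simp] lemma dy_fst (j : ℕ) (x : Fin n → ℝ) : (dy j x).1 = j := rfl

lemma mem_cube_iff {Q : Dy n} {x : Fin n → ℝ} : x ∈ cube Q ↔ dy Q.1 x = Q := by
  rw [cube, mem_ofPred_eq]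
  constructor
  · intro h
    refine Prod.ext rfl ?_
    funext i
    exact Int.floor_eq_iff.2 (h i)
  · intro h i
    have : ⌊(2:ℝ) ^ Q.1 * x i⌋ = Q.2 i := congrFun (congrArg Prod.snd h) i
    exact Int.floor_eq_iff.1 this

lemma mem_cube_dy (j : ℕ) (x : Fin n → ℝ) : x ∈ cube (dy j x) := mem_cube_iff.2 rfl

lemma dy_snd_div {m j : ℕ} (h : m ≤ j) (x : Fin n → ℝ) (i : Fin n) :
    (dy m x).2 i = (dy j x).2 i / ((2 ^ (j - m) : ℕ) : ℤ) := by
  show ⌊(2:ℝ) ^ m * x i⌋ = ⌊(2:ℝ) ^ j * x i⌋ / ((2 ^ (j - m) : ℕ) : ℤ)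
  rw [← Int.floor_div_natCast]
  congr 1
  have : (2:ℝ) ^ j = 2 ^ m * 2 ^ (j - m) := by rw [← pow_add]; congr 1; omega
  rw [this]
  push_cast
  field_simp

lemma dy_le {m j : ℕ} (h : m ≤ j) {x y : Fin n → ℝ} (hxy : dy j x = dy j y) : dy m x = dy m y := by
  refine Prod.ext rfl ?_
  funext i
  rw [dy_snd_div h, dy_snd_div h, hxy]

/-- the corner of a cube -/
noncomputable def corner (Q : Dy n) : Fin n → ℝ := fun i => (Q.2 i : ℝ) / 2 ^ Q.1

lemma dy_corner (Q : Dy n) : dy Q.1 (corner Q) = Q := by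
  refine Prod.ext rfl ?_
  funext i
  show ⌊(2:ℝ) ^ Q.1 * ((Q.2 i : ℝ) / 2 ^ Q.1)⌋ = Q.2 i
  rw [mul_div_cancel₀ _ (by positivity : (2:ℝ) ^ Q.1 ≠ 0)]
  simp

/-- ancestor of level `m` -/
noncomputable def anc (m : ℕ) (Q : Dy n) : Dy n := dy m (corner Q)

@[simp] lemma anc_fst (m : ℕ) (Q : Dy n) : (anc m Q).1 = m := rfl

lemma anc_self (Q : Dy n) : anc Q.1 Q = Q := dy_corner Q

lemma anc_dy {m j : ℕ} (h : m ≤ j) (x : Fin n → ℝ) : anc m (dy j x) = dy m x := by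
  have : dy j (corner (dy j x)) = dy j x := dy_corner (dy j x)
  exact dy_le h this

lemma dy_of_mem {m : ℕ} {Q : Dy n} (h : m ≤ Q.1) {x : Fin n → ℝ} (hx : x ∈ cube Q) :
    dy m x = anc m Q := by
  rw [mem_cube_iff] at hx
  exact dy_le h (hx.trans (dy_corner Q).symm)

lemma anc_anc {m j : ℕ} {Q : Dy n} (h : m ≤ j) : anc m (anc j Q) = anc m Q := by
  have : dy j (corner (anc j Q)) = dy j (corner Q) := dy_corner (anc j Q)
  exact dy_le h this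

lemma corner_mem (Q : Dy n) : corner Q ∈ cube Q := mem_cube_iff.2 (dy_corner Q)

/-- the weight `2^{-j s}` -/
noncomputable def wt (s : ℝ) (j : ℕ) : ℝ := (2:ℝ) ^ (-(j:ℝ) * s)

lemma wt_pos (s : ℝ) (j : ℕ) : 0 < wt s j := Real.rpow_pos_of_pos (by norm_num) _

lemma wt_add (s : ℝ) (i j : ℕ) : wt s (i + j) = wt s i * wt s j := by
  rw [wt, wt, wt, ← Real.rpow_add (by norm_num)]
  congr 1
  push_cast
  ring

lemma wt_add' (s t : ℝ) (j : ℕ) : wt (s + t) j = wt s j * wt t j := by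
  rw [wt, wt, wt, ← Real.rpow_add (by norm_num)]
  congr 1
  ring

lemma wt_zero (s : ℝ) : wt s 0 = 1 := by simp [wt]

lemma wt_le_of_le {s : ℝ} (hs : 0 ≤ s) {i j : ℕ} (h : i ≤ j) : wt s j ≤ wt s i := by
  rw [wt, wt]
  apply Real.rpow_le_rpow_of_exponent_le (by norm_num)
  have : (i:ℝ) ≤ j := by exact_mod_cast h
  nlinarith

lemma wt_natCast (n j : ℕ) : wt (n:ℝ) j = ((2:ℝ) ^ j)⁻¹ ^ n := by
  rw [wt, neg_mul, Real.rpow_neg (by norm_num), inv_pow, ← pow_mul]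
  congr 1
  rw [← Nat.cast_mul, Real.rpow_natCast]

lemma cube_eq_pi (Q : Dy n) : cube Q =
    Set.pi univ (fun i => Ico ((Q.2 i : ℝ) / 2 ^ Q.1) (((Q.2 i : ℝ) + 1) / 2 ^ Q.1)) := by
  ext x
  simp only [cube, mem_ofPred_eq, mem_pi, mem_univ, true_implies, mem_Ico]
  refine forall_congr' fun i => ?_
  have : (0:ℝ) < 2 ^ Q.1 := by positivity
  rw [div_le_iff₀ this, lt_div_iff₀ this, mul_comm (x i)]

lemma measurableSet_cube (Q : Dy n) : MeasurableSet (cube Q) := by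
  rw [cube_eq_pi]
  exact MeasurableSet.univ_pi fun i => measurableSet_Ico

lemma vol_cube (Q : Dy n) : volume (cube Q) = ENNReal.ofReal (wt n Q.1) := by
  rw [cube_eq_pi, Real.volume_pi_Ico, wt_natCast, ENNReal.ofReal_pow (by positivity)]
  have : ∀ i, ((Q.2 i : ℝ) + 1) / 2 ^ Q.1 - (Q.2 i : ℝ) / 2 ^ Q.1 = ((2:ℝ) ^ Q.1)⁻¹ := by
    intro i
    field_simp
    ring
  simp [this]

end Pool.Agent.R222.BHB
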