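import Pool.Agent.R222.BHB.Moment
import Pool.Agent.R222.BHB.Tree

open MeasureTheory Set Topology
open scoped ENNReal NNReal ContDiff

namespace Pool.Agent.R222.BHB

variable {n : ℕ}

/-- the polynomial `T (y - z, …, y - z)` is killed by a function with vanishing moments -/
lemma poly_part {k M : ℕ} (hk : k < M) (T : ContinuousMultilinearMap ℝ (fun _ : Fin k => Fin n → ℝ) ℝ)
    {a : (Fin n → ℝ) → ℝ} (ha : Continuous a) (has : HasCompactSupport a) (hvan : Van M a)
    (z : Fin n → ℝ) : ∫ y, a y * T (fun _ => y - z) = 0 := by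
  classical
  have h1 : ∀ y : Fin n → ℝ, a y * T (fun _ => y - z) = ∑ r : Fin k → Fin n,
      T (fun i => Pi.single (r i) (1:ℝ)) * ((∏ l, (1 * y l + (-z l)) ^
        (Finset.univ.filter (fun i => r i = l)).card) * a y) := by
    intro y
    have h2 : (fun _ : Fin k => y - z) = fun _ : Fin k => ∑ l : Fin n, (y - z) l •
        (Pi.single l (1:ℝ) : Fin n → ℝ) := by
      funext _
      exact pi_eq_sum_univ' (y - z)
    rw [h2, T.map_sum, Finset.mul_sum]
    refine Finset.sum_congr rfl fun r _ => ?_
    rw [T.map_smul_univ (fun i => (y - z) (r i)) (fun i => (Pi.single (r i) (1:ℝ) : Fin n → ℝ))]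
    have h3 : ∏ i, (y - z) (r i) = ∏ l, (1 * y l + (-z l)) ^
        (Finset.univ.filter (fun i => r i = l)).card := by
      rw [← Finset.prod_fiberwise_of_maps_to (s := Finset.univ) (t := Finset.univ) (g := r)
        (fun i _ => Finset.mem_univ _)]
      refine Finset.prod_congr rfl fun l _ => ?_
      rw [Finset.prod_congr rfl (g := fun _ => (1 * y l + (-z l)))]
      · rw [Finset.prod_const]
      · intro i hi
        rw [(Finset.mem_filter.1 hi).2]
        simp [sub_eq_add_neg]
    rw [h3, smul_eq_mul]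
    ring
  simp_rw [h1]
  rw [integral_finsetSum]
  · refine Finset.sum_eq_zero fun r _ => ?_
    rw [integral_const_mul, van_affine ha has hvan 1 (fun l => -z l)
      (fun l => (Finset.univ.filter (fun i => r i = l)).card), mul_zero]
    have : ∑ l : Fin n, (Finset.univ.filter (fun i => r i = l)).card = k := by
      rw [← Finset.card_eq_sum_card_fiberwise (s := Finset.univ) (t := Finset.univ) (f := r)
        (fun i _ => Finset.mem_univ _)]
      simp
    omega
  · intro r _
    exact (integrable_mono ha has (by fun_prop)).const_mul _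

lemma cube3_eq (Q : Dy n) : cube3 Q =
    Icc (fun i => ((Q.2 i : ℝ) - 1) / 2 ^ Q.1) (fun i => ((Q.2 i : ℝ) + 2) / 2 ^ Q.1) := by
  ext x
  have hp2 : (0:ℝ) < 2 ^ Q.1 := by positivity
  constructor
  · intro h
    constructor
    · intro i
      rw [div_le_iff₀ hp2, mul_comm]; exact (h i).1
    · intro i
      rw [le_div_iff₀ hp2, mul_comm]; exact (h i).2
  · intro h i
    have h1 := h.1 i
    have h2 := h.2 i
    rw [div_le_iff₀ hp2, mul_comm] at h1
    rw [le_div_iff₀ hp2, mul_comm] at h2
    exact ⟨h1, h2⟩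

lemma vol_cube3 (Q : Dy n) : volume (cube3 Q) = ENNReal.ofReal ((3 / 2 ^ Q.1) ^ n) := by
  rw [cube3_eq, Real.volume_Icc_pi, ENNReal.ofReal_pow (by positivity)]
  have : ∀ i, ((Q.2 i : ℝ) + 2) / 2 ^ Q.1 - ((Q.2 i : ℝ) - 1) / 2 ^ Q.1 = 3 / (2:ℝ) ^ Q.1 := by
    intro i; field_simp; ring
  simp [this]

lemma hasCompactSupport_of_cube3 {a : (Fin n → ℝ) → ℝ} {Q : Dy n}
    (h : ∀ x, x ∉ cube3 Q → a x = 0) : HasCompactSupport a := by
  rw [cube3_eq] at h
  exact HasCompactSupport.intro isCompact_Icc fun x hx => h x hx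

lemma norm_sub_corner {Q : Dy n} {y : Fin n → ℝ} (hy : y ∈ cube3 Q) :
    ‖y - corner Q‖ ≤ 3 / 2 ^ Q.1 := by
  have hp2 : (0:ℝ) < 2 ^ Q.1 := by positivity
  rw [pi_norm_le_iff_of_nonneg (by positivity)]
  intro i
  have h := hy i
  rw [Real.norm_eq_abs, le_div_iff₀ hp2, Pi.sub_apply, corner]
  have h1 : |y i - (Q.2 i : ℝ) / 2 ^ Q.1| * 2 ^ Q.1 = |2 ^ Q.1 * y i - Q.2 i| := by
    rw [← abs_of_pos hp2, ← abs_mul, abs_of_pos hp2]
    congr 1
    field_simp
  rw [h1, abs_le]
  constructor <;> linarith [h.1, h.2]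

theorem pairing_bound {M : ℕ} {a f : (Fin n → ℝ) → ℝ} (ha : Continuous a) {Q : Dy n}
    (hsupp : ∀ x, x ∉ cube3 Q → a x = 0) {A0 : ℝ} (hA0 : ∀ x, |a x| ≤ A0) (hvan : Van M a)
    (hf : ContDiff ℝ ∞ f) {B : ℝ} (hB : ∀ y, ‖iteratedFDeriv ℝ M f y‖ ≤ B) :
    |∫ y, a y * f y| ≤ A0 * B * (3 / 2 ^ Q.1) ^ M * (3 / 2 ^ Q.1) ^ n := by
  have has := hasCompactSupport_of_cube3 hsupp
  have hA00 : 0 ≤ A0 := (abs_nonneg _).trans (hA0 0)
  have hB0 : 0 ≤ B := (norm_nonneg _).trans (hB 0)
  set z := corner Q with hz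
  set r : ℝ := 3 / 2 ^ Q.1 with hr
  have hr0 : 0 < r := by positivity
  -- general estimate
  have gen : ∀ P : (Fin n → ℝ) → ℝ, Continuous P → ∫ y, a y * P y = 0 →
      (∀ y ∈ cube3 Q, |f y - P y| ≤ B * r ^ M) →
      |∫ y, a y * f y| ≤ A0 * B * r ^ M * r ^ n := by
    intro P hPc hP hfP
    have h1 : ∫ y, a y * f y = ∫ y, a y * (f y - P y) := by
      have h2 : ∀ y, a y * (f y - P y) = a y * f y - a y * P y := fun y => by ring
      simp_rw [h2]
      rw [integral_sub, hP, sub_zero]
      · exact (ha.mul hf.continuous).integrable_of_hasCompactSupport has.mul_right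
      · exact (ha.mul hPc).integrable_of_hasCompactSupport has.mul_right
    rw [h1, ← setIntegral_eq_integral_of_forall_compl_eq_zero (s := cube3 Q)
      (fun y hy => by rw [hsupp y hy, zero_mul])]
    have h3 := norm_setIntegral_le_of_norm_le_const (μ := volume) (s := cube3 Q)
      (f := fun y => a y * (f y - P y)) (C := A0 * (B * r ^ M))
      (by rw [vol_cube3]; exact ENNReal.ofReal_lt_top) (by
        intro y hy
        rw [Real.norm_eq_abs, abs_mul]
        exact mul_le_mul (hA0 y) (hfP y hy) (abs_nonneg _) hA00)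
    rw [Real.norm_eq_abs] at h3
    refine h3.trans (le_of_eq ?_)
    rw [Measure.real, vol_cube3, ENNReal.toReal_ofReal (by positivity)]
    ring
  rcases M with _ | m
  · refine gen (fun _ => 0) continuous_const (by simp) ?_
    intro y _
    have := hB y
    rw [norm_iteratedFDeriv_zero, Real.norm_eq_abs] at this
    simpa using this
  · refine gen (fun y => ∑ k ∈ Finset.range (m + 1), (k.factorial : ℝ)⁻¹ *
      iteratedFDeriv ℝ k f z (fun _ => y - z)) ?_ ?_ ?_
    · refine continuous_finsetSum _ fun k _ => continuous_const.mul ?_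
      exact (iteratedFDeriv ℝ k f z).cont.comp (continuous_pi fun _ => continuous_id.sub
        continuous_const)
    · simp_rw [Finset.mul_sum]
      rw [integral_finsetSum]
      · refine Finset.sum_eq_zero fun k hk => ?_
        have h2 : ∀ y, a y * ((k.factorial : ℝ)⁻¹ * iteratedFDeriv ℝ k f z (fun _ => y - z)) =
            (k.factorial : ℝ)⁻¹ * (a y * iteratedFDeriv ℝ k f z (fun _ => y - z)) := fun y => by ring
        simp_rw [h2]
        rw [integral_const_mul, poly_part (Finset.mem_range.1 hk) _ ha has hvan z, mul_zero]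
      · intro k _
        refine Continuous.integrable_of_hasCompactSupport ?_ has.mul_right
        refine ha.mul (continuous_const.mul ?_)
        exact (iteratedFDeriv ℝ k f z).cont.comp (continuous_pi fun _ => continuous_id.sub
          continuous_const)
    · intro y hy
      have h1 := map_add_eq_sum_add_integral_iteratedFDeriv (f := f) (x := z) (y := y - z) (n := m)
        (fun t _ => (hf.of_le (by exact_mod_cast le_top)).contDiffAt)
      rw [add_sub_cancel] at h1
      rw [h1]
      simp only [smul_eq_mul]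
      rw [add_sub_cancel_left, abs_mul, abs_of_nonneg (by positivity)]
      have h2 : |∫ t in (0:ℝ)..1, (1 - t) ^ m * iteratedFDeriv ℝ (m + 1) f (z + t • (y - z))
          (fun _ => y - z)| ≤ B * r ^ (m + 1) := by
        have h3 := intervalIntegral.norm_integral_le_of_norm_le_const (a := (0:ℝ)) (b := 1)
          (f := fun t => (1 - t) ^ m * iteratedFDeriv ℝ (m + 1) f (z + t • (y - z))
          (fun _ => y - z)) (C := B * r ^ (m + 1)) (by
            intro t ht
            rw [uIoc_of_le zero_le_one] at ht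
            rw [norm_mul]
            have e1 : ‖(1 - t) ^ m‖ ≤ 1 := by
              rw [norm_pow, Real.norm_eq_abs]
              refine pow_le_one₀ (abs_nonneg _) ?_
              rw [abs_le]; constructor <;> linarith [ht.1, ht.2]
            have e2 : ‖iteratedFDeriv ℝ (m + 1) f (z + t • (y - z)) (fun _ => y - z)‖ ≤
                B * r ^ (m + 1) := by
              refine (ContinuousMultilinearMap.le_opNorm _ _).trans ?_
              rw [Finset.prod_const, Finset.card_univ, Fintype.card_fin]
              refine mul_le_mul (hB _) (pow_le_pow_left₀ (norm_nonneg _) (norm_sub_corner hy) _)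
                (by positivity) hB0
            calc ‖(1 - t) ^ m‖ * ‖iteratedFDeriv ℝ (m + 1) f (z + t • (y - z)) (fun _ => y - z)‖
                ≤ 1 * (B * r ^ (m + 1)) := mul_le_mul e1 e2 (norm_nonneg _) zero_le_one
              _ = B * r ^ (m + 1) := one_mul _)
        simpa using h3
      have h4 : ((m.factorial : ℝ))⁻¹ ≤ 1 := by
        apply inv_le_one_of_one_le₀
        exact_mod_cast Nat.one_le_iff_ne_zero.2 (Nat.factorial_ne_zero m)
      calc ((m.factorial : ℝ))⁻¹ * |∫ t in (0:ℝ)..1, (1 - t) ^ m *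
            iteratedFDeriv ℝ (m + 1) f (z + t • (y - z)) (fun _ => y - z)|
          ≤ 1 * (B * r ^ (m + 1)) := mul_le_mul h4 h2 (abs_nonneg _) zero_le_one
        _ = B * r ^ (m + 1) := one_mul _

end Pool.Agent.R222.BHB
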