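import Pool.Agent.R222.BHB.Amp
import Pool.Agent.R222.BHB.Block

open MeasureTheory Set Topology
open scoped ENNReal ContDiff

namespace Pool.Agent.R222.BHB

variable {n : ℕ}

/-- choice of the depth `L` -/
lemma depth_exists (n N : ℕ) {p : ℝ} (hN : ((n:ℝ) + N) * p < n) {C0 C1 : ℝ}
    (hC0 : 0 < C0) :
    ∃ L : ℕ, 1 ≤ L ∧ (C0 * ((2:ℝ) ^ L) ^ (n + N)) ^ p * (C1 * wt n L) ≤ 1 / 2 := by
  have h1 : ∀ L : ℕ, (C0 * ((2:ℝ) ^ L) ^ (n + N)) ^ p * (C1 * wt n L) =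
      (C0 ^ p * C1) * ((2:ℝ) ^ (((n:ℝ) + N) * p - n)) ^ L := by
    intro L
    rw [Real.mul_rpow hC0.le (by positivity)]
    have h2 : (((2:ℝ) ^ L) ^ (n + N)) ^ p * wt n L = ((2:ℝ) ^ (((n:ℝ) + N) * p - n)) ^ L := by
      rw [wt, ← Real.rpow_natCast, ← Real.rpow_natCast, ← Real.rpow_mul (by norm_num),
        ← Real.rpow_mul (by norm_num), ← Real.rpow_add (by norm_num), ← Real.rpow_natCast,
        ← Real.rpow_mul (by norm_num)]
      congr 1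
      push_cast
      ring
    rw [← h2]; ring
  have h2 : Filter.Tendsto (fun L : ℕ => (C0 ^ p * C1) * ((2:ℝ) ^ (((n:ℝ) + N) * p - n)) ^ L)
      Filter.atTop (𝓝 ((C0 ^ p * C1) * 0)) := by
    apply Filter.Tendsto.const_mul
    apply tendsto_pow_atTop_nhds_zero_of_lt_one (Real.rpow_nonneg (by norm_num) _)
    exact Real.rpow_lt_one_of_one_lt_of_neg (by norm_num) (by linarith)
  rw [mul_zero] at h2
  have h3 := (h2.eventually (gt_mem_nhds (show (0:ℝ) < 1 / 2 by norm_num))).and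
    (Filter.eventually_ge_atTop 1)
  obtain ⟨L, hL1, hL2⟩ := h3.exists
  exact ⟨L, hL2, by rw [h1]; exact hL1.le⟩

theorem upper_key {p α : ℝ} (hp : 0 < p) (hp1 : p < 1) (hα : 0 < α) (hαp : α * p < n) :
    ∃ M : ℝ, 0 < M ∧ ∀ (K : Set (Fin n → ℝ)) (C0 : Finset (Dy n)),
      (∀ x ∈ K, ∃ Q ∈ C0, x ∈ cube Q) → ∀ δ : ℝ, δ ≤ 1 → ∑ Q ∈ C0, wt (n - α * p) Q.1 < δ →
      ∃ (u : (Fin n → ℝ) → ℝ) (s : Dy n → ℝ), IsTest u ∧ (∀ x ∈ K, 1 ≤ u x) ∧ Rep p α u s ∧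
        besovSeq p s ≤ ENNReal.ofReal (M * δ) := by
  classical
  have hn : (0:ℝ) < n := lt_of_le_of_lt (by positivity) hαp
  set t : ℝ := n - α * p with ht
  have ht0 : 0 < t := by rw [ht]; linarith
  have htn : t < n := by rw [ht]; nlinarith [mul_pos hα hp]
  set N : ℕ := ⌊(n:ℝ) * (1 / p - 1) - α⌋₊ with hN
  have hNp : ((n:ℝ) + N) * p < n := by
    rcases le_or_gt 0 ((n:ℝ) * (1 / p - 1) - α) with h | h
    · have h1 : (N:ℝ) ≤ (n:ℝ) * (1 / p - 1) - α := Nat.floor_le h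
      have h2 : ((n:ℝ) + N) * p ≤ (n + ((n:ℝ) * (1 / p - 1) - α)) * p :=
        mul_le_mul_of_nonneg_right (by linarith) hp.le
      have h3 : (n + ((n:ℝ) * (1 / p - 1) - α)) * p = n - α * p := by field_simp; ring
      have h4 : 0 < α * p := mul_pos hα hp
      linarith
    · have h1 : N = 0 := Nat.floor_eq_zero.2 (by linarith)
      rw [h1]
      simp only [Nat.cast_zero, add_zero]
      nlinarith
  obtain ⟨C0', hC0', hblock⟩ := block_exists n N ⌊α + 1⌋₊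
  set θ : ℝ := (2:ℝ) ^ (-((n:ℝ) - t)) with hθ
  have hθ1 : θ < 1 := Real.rpow_lt_one_of_one_lt_of_neg (by norm_num) (by linarith)
  have h2t : (0:ℝ) < 2 ^ t := Real.rpow_pos_of_pos (by norm_num) _
  set C1 : ℝ := (2:ℝ) ^ t / (1 - θ) with hC1
  have hC1p : 0 < C1 := div_pos h2t (by linarith)
  obtain ⟨L, hL1, hL⟩ := depth_exists n N hNp (C1 := C1) hC0'
  obtain ⟨CL, hCL, hblockL⟩ := hblock L
  refine ⟨2 * CL ^ p, by have := Real.rpow_pos_of_pos hCL p; positivity, ?_⟩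
  intro K C00 hC00 δ hδ hcost
  obtain ⟨C, hCK, hCcost, hlev, hpt⟩ := good_cover htn K C00 hC00 hδ hcost
  have hpt' : ∀ Q : Dy n, ∃ x : Fin n → ℝ, Q ∈ C → dy (Q.1 - 1) x = anc (Q.1 - 1) Q ∧
        (∀ Q' ∈ C, x ∉ cube Q') ∧
        ∑ Q' ∈ C.filter (fun Q' => Q.1 + L ≤ Q'.1 ∧ anc (Q.1 + L) Q' = dy (Q.1 + L) x),
          wt t Q'.1 ≤ (2:ℝ) ^ t / (1 - (2:ℝ) ^ (-(n - t))) * wt n L * wt t Q.1 := by
    intro Q
    by_cases hQ : Q ∈ C
    · obtain ⟨x, hx⟩ := hpt L Q hQ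
      exact ⟨x, fun _ => hx⟩
    · exact ⟨0, fun h => absurd h hQ⟩
  choose X hX using hpt'
  -- the block functions
  set w : Dy n → Fin n → ℤ := fun Q i => (dy (Q.1 + L) (X Q)).2 i - 2 ^ L * Q.2 i with hw
  have hwr : ∀ Q ∈ C, ∀ i, -(2:ℤ) ^ L ≤ w Q i ∧ w Q i + 1 ≤ 2 * 2 ^ L := by
    intro Q hQ i
    have h1 := (hX Q hQ).1
    have hl := hlev Q hQ
    have h2 : ⌊(2:ℝ) ^ (Q.1 - 1) * X Q i⌋ = ⌊(2:ℝ) ^ (Q.1 - 1) * corner Q i⌋ :=
      congrFun (congrArg Prod.snd h1) i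
    have e1 : (2:ℝ) ^ Q.1 = 2 * 2 ^ (Q.1 - 1) := by
      rw [← pow_succ']; congr 1; omega
    have h3 : (2:ℝ) ^ (Q.1 - 1) * corner Q i = (Q.2 i : ℝ) / 2 := by
      rw [corner, e1]
      field_simp
    rw [h3] at h2
    have h4 : ⌊(Q.2 i : ℝ) / 2⌋ = Q.2 i / 2 := by
      have := Int.floor_div_natCast (Q.2 i : ℝ) 2
      rw [Int.floor_intCast] at this
      exact_mod_cast this
    rw [h4] at h2
    obtain ⟨h5, h6⟩ := Int.floor_eq_iff.1 h2
    set y := (2:ℝ) ^ (Q.1 - 1) * X Q i with hy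
    have h7 : (Q.2 i : ℝ) - 1 ≤ 2 * y := by
      have : Q.2 i - 1 ≤ 2 * (Q.2 i / 2) := by omega
      have : ((Q.2 i : ℝ) - 1) ≤ 2 * ((Q.2 i / 2 : ℤ) : ℝ) := by exact_mod_cast this
      linarith
    have h8 : 2 * y < (Q.2 i : ℝ) + 2 := by
      have : 2 * (Q.2 i / 2) ≤ Q.2 i := by omega
      have : 2 * ((Q.2 i / 2 : ℤ) : ℝ) ≤ (Q.2 i : ℝ) := by exact_mod_cast this
      linarith
    have h9 : (2:ℝ) ^ (Q.1 + L) * X Q i = 2 ^ L * (2 * y) := by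
      rw [hy, pow_add, e1]; ring
    have hLp : (0:ℝ) < 2 ^ L := by positivity
    have h10 : 2 ^ L * (Q.2 i - 1) ≤ (dy (Q.1 + L) (X Q)).2 i := by
      show 2 ^ L * (Q.2 i - 1) ≤ ⌊(2:ℝ) ^ (Q.1 + L) * X Q i⌋
      rw [Int.le_floor, h9]
      push_cast
      exact mul_le_mul_of_nonneg_left h7 hLp.le
    have h11 : (dy (Q.1 + L) (X Q)).2 i < 2 ^ L * (Q.2 i + 2) := by
      show ⌊(2:ℝ) ^ (Q.1 + L) * X Q i⌋ < 2 ^ L * (Q.2 i + 2)
      rw [Int.floor_lt, h9]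
      push_cast
      exact mul_lt_mul_of_pos_left h8 hLp
    rw [hw]
    simp only
    constructor
    · have : (2:ℤ) ^ L * (Q.2 i - 1) = 2 ^ L * Q.2 i - 2 ^ L := by ring
      linarith
    · have : (2:ℤ) ^ L * (Q.2 i + 2) = 2 ^ L * Q.2 i + 2 * 2 ^ L := by ring
      omega
  have hb' : ∀ Q : Dy n, ∃ b : (Fin n → ℝ) → ℝ, Q ∈ C → ContDiff ℝ ∞ b ∧ HasCompactSupport b ∧
      (∀ y, (∃ i, y i < -1 ∨ 2 < y i) → b y = 0) ∧
      (∀ m ≤ ⌊α + 1⌋₊, ∀ y, ‖iteratedFDeriv ℝ m b y‖ ≤ CL) ∧ Van (N + 1) b ∧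
      (∀ y, (∃ i, ⌊(2:ℝ) ^ L * y i⌋ ≠ w Q i) → 0 ≤ b y) ∧
      (∀ y, (∀ i, 0 ≤ y i ∧ y i ≤ 1) → (∃ i, ⌊(2:ℝ) ^ L * y i⌋ ≠ w Q i) → 1 ≤ b y) ∧
      (∀ y, -(C0' * ((2:ℝ) ^ L) ^ (n + N)) ≤ b y) := by
    intro Q
    by_cases hQ : Q ∈ C
    · obtain ⟨b, hb⟩ := hblockL (w Q) (hwr Q hQ)
      exact ⟨b, fun _ => hb⟩
    · exact ⟨0, fun h => absurd h hQ⟩
  choose b hb using hb'
  set B : Dy n → (Fin n → ℝ) → ℝ := fun Q x => b Q (fun i => (2:ℝ) ^ Q.1 * x i - Q.2 i) with hB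
  set a : ℝ := C0' * ((2:ℝ) ^ L) ^ (n + N) with ha
  have ha0 : 0 ≤ a := by positivity
  set r : Dy n → Dy n → Prop := fun Q' Q => Q'.1 + L ≤ Q.1 ∧
    anc (Q'.1 + L) Q = dy (Q'.1 + L) (X Q') with hr
  obtain ⟨A, hA1, hA⟩ := amp C r (fun Q' Q h => by have := h.1; omega) ha0
  have hA0 : ∀ Q, 0 ≤ A Q := fun Q => zero_le_one.trans (hA1 Q)
  have hsumA : ∑ Q ∈ C, A Q ^ p * wt t Q.1 ≤ 2 * ∑ Q ∈ C, wt t Q.1 := by
    refine amp_sum C r (κ := C1 * wt n L) ha0 hp hp1.le A hA1 ?_ _ (fun Q => (wt_pos _ _).le) ?_ hL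
    · intro Q
      rw [hA Q]
      congr 2
      refine Finset.sum_congr ?_ fun _ _ => rfl
      ext; simp
    · intro Q' hQ'
      exact (hX Q' hQ').2.2
  -- sign information
  have hBfar : ∀ Q ∈ C, ∀ x, dy (Q.1 + L) x ≠ dy (Q.1 + L) (X Q) →
      ∃ i, ⌊(2:ℝ) ^ L * ((2:ℝ) ^ Q.1 * x i - Q.2 i)⌋ ≠ w Q i := by
    intro Q _ x hne
    by_contra hcon
    push Not at hcon
    apply hne
    refine Prod.ext rfl ?_
    funext i
    have h1 := hcon i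
    have h2 : (2:ℝ) ^ L * ((2:ℝ) ^ Q.1 * x i - Q.2 i) =
        (2:ℝ) ^ (Q.1 + L) * x i - ((2 ^ L * Q.2 i : ℤ) : ℝ) := by
      push_cast; rw [pow_add]; ring
    rw [h2, Int.floor_sub_intCast, hw] at h1
    simp only at h1
    show ⌊(2:ℝ) ^ (Q.1 + L) * x i⌋ = (dy (Q.1 + L) (X Q)).2 i
    linarith
  have hrel : ∀ Q ∈ C, ∀ Q0 ∈ C, ∀ x ∈ cube Q0, dy (Q.1 + L) x = dy (Q.1 + L) (X Q) → r Q Q0 := by
    intro Q hQ Q0 hQ0 x hx he
    have h1 : Q.1 + L ≤ Q0.1 := by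
      by_contra hcon
      push Not at hcon
      have h2 := dy_le hcon.le he
      have h3 : X Q ∈ cube Q0 := by
        rw [mem_cube_iff, ← h2]; exact mem_cube_iff.1 hx
      exact (hX Q hQ).2.1 Q0 hQ0 h3
    exact ⟨h1, by rw [← dy_of_mem h1 hx]; exact he⟩
  -- atoms
  have hBs : ∀ Q ∈ C, ContDiff ℝ ∞ (B Q) := fun Q hQ => (hb Q hQ).1.comp (by fun_prop)
  have hBz : ∀ Q ∈ C, ∀ x, x ∉ cube3 Q → B Q x = 0 := by
    intro Q hQ x hx
    apply (hb Q hQ).2.2.1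
    by_contra hcon
    push Not at hcon
    apply hx
    intro i
    constructor <;> linarith [(hcon i).1, (hcon i).2]
  have hBcs : ∀ Q ∈ C, HasCompactSupport (B Q) := by
    intro Q hQ
    apply HasCompactSupport.intro (isCompact_Icc (a := fun i => ((Q.2 i : ℝ) - 1) / 2 ^ Q.1)
      (b := fun i => ((Q.2 i : ℝ) + 2) / 2 ^ Q.1))
    intro x hx
    apply hBz Q hQ
    intro h
    apply hx
    have hp2 : (0:ℝ) < 2 ^ Q.1 := by positivity
    constructor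
    · intro i
      rw [div_le_iff₀ hp2, mul_comm]; exact (h i).1
    · intro i
      rw [le_div_iff₀ hp2, mul_comm]; exact (h i).2
  have hatom : ∀ Q ∈ C, IsAtom p α Q
      (fun x => (CL⁻¹ * (2:ℝ) ^ (-(Q.1:ℝ) * (α - n / p))) • B Q x) := by
    intro Q hQ
    have hcp : 0 < (2:ℝ) ^ (-(Q.1:ℝ) * (α - n / p)) := Real.rpow_pos_of_pos (by norm_num) _
    refine ⟨by have := hBs Q hQ; fun_prop, ?_, ?_, ?_⟩
    · intro x hx
      rw [hBz Q hQ x hx, smul_zero]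
    · intro m hm x
      rw [iteratedFDeriv_const_smul_apply' (𝕜 := ℝ)
        (((hBs Q hQ).of_le (by exact_mod_cast le_top)).contDiffAt), norm_smul, Real.norm_eq_abs,
        abs_of_pos (by positivity)]
      have h1 := norm_iteratedFDeriv_scale (hb Q hQ).1 ((2:ℝ) ^ Q.1) (fun i => (Q.2 i : ℝ)) m
        ((hb Q hQ).2.2.2.1 m (Nat.le_floor hm)) x
      have h2 : ‖iteratedFDeriv ℝ m (B Q) x‖ ≤ |(2:ℝ) ^ Q.1| ^ m * CL := h1
      rw [abs_of_pos (by positivity)] at h2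
      calc CL⁻¹ * (2:ℝ) ^ (-(Q.1:ℝ) * (α - n / p)) * ‖iteratedFDeriv ℝ m (B Q) x‖
          ≤ CL⁻¹ * (2:ℝ) ^ (-(Q.1:ℝ) * (α - n / p)) * (((2:ℝ) ^ Q.1) ^ m * CL) :=
            mul_le_mul_of_nonneg_left h2 (by positivity)
        _ = (2:ℝ) ^ (-(Q.1:ℝ) * (α - n / p)) * ((2:ℝ) ^ Q.1) ^ m := by
            field_simp
        _ = (2:ℝ) ^ (-(Q.1:ℝ) * (α - n / p - m)) := by
            rw [← pow_mul, ← Real.rpow_natCast, ← Real.rpow_add (by norm_num)]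
            congr 1
            push_cast
            ring
    · intro _ β hβ
      have h1 : Van (N + 1) (B Q) := van_scale (hb Q hQ).1.continuous (hb Q hQ).2.1
        (hb Q hQ).2.2.2.2.1 (by positivity) (fun i => (Q.2 i : ℝ))
      have h2 := h1 β (by
        have := Nat.le_floor hβ
        omega)
      have h3 : ∀ x : Fin n → ℝ, (∏ i, x i ^ β i) *
          ((CL⁻¹ * (2:ℝ) ^ (-(Q.1:ℝ) * (α - n / p))) • B Q x) =
          (CL⁻¹ * (2:ℝ) ^ (-(Q.1:ℝ) * (α - n / p))) * ((∏ i, x i ^ β i) * B Q x) := by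
        intro x; rw [smul_eq_mul]; ring
      simp_rw [h3]
      rw [integral_const_mul, h2, mul_zero]
  have hatom0 : ∀ Q : Dy n, IsAtom p α Q (0 : (Fin n → ℝ) → ℝ) := by
    intro Q
    refine ⟨contDiff_const, fun _ _ => rfl, ?_, ?_⟩
    · intro m _ x
      have : iteratedFDeriv ℝ m (0 : (Fin n → ℝ) → ℝ) = 0 := iteratedFDeriv_fun_zero
      rw [this]
      simp only [Pi.zero_apply, norm_zero]
      exact Real.rpow_nonneg (by norm_num) _
    · intro _ β _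
      simp
  -- the function
  refine ⟨fun x => ∑ Q ∈ C, A Q * B Q x,
    fun Q => if Q ∈ C then A Q * CL * (2:ℝ) ^ ((Q.1:ℝ) * (α - n / p)) else 0, ?_, ?_, ?_, ?_⟩
  · refine ⟨ContDiff.sum fun Q hQ => contDiff_const.mul (hBs Q hQ), ?_⟩
    have : (fun x => ∑ Q ∈ C, A Q * B Q x) = ∑ Q ∈ C, fun x => A Q * B Q x := by
      ext x; simp
    rw [this]
    refine Finset.sum_induction _ HasCompactSupport (fun f g hf hg => hf.add hg)
      HasCompactSupport.zero ?_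
    intro Q hQ
    exact (hBcs Q hQ).mul_left
  · intro x hx
    obtain ⟨Q0, hQ0, hxQ0⟩ := hCK x hx
    have hnr : ¬ r Q0 Q0 := fun h => by have := h.1; omega
    have h1 : 1 ≤ B Q0 x := by
      apply (hb Q0 hQ0).2.2.2.2.2.2.1
      · intro i
        have := hxQ0 i
        constructor <;> linarith [this.1, this.2]
      · apply hBfar Q0 hQ0
        intro he
        exact hnr (hrel Q0 hQ0 Q0 hQ0 x hxQ0 he)
    have h2 : ∀ Q ∈ C, Q ≠ Q0 → (if r Q Q0 then -(a * A Q) else 0) ≤ A Q * B Q x := by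
      intro Q hQ _
      split_ifs with h
      · have h3 : -a ≤ B Q x := (hb Q hQ).2.2.2.2.2.2.2 _
        nlinarith [hA0 Q]
      · refine mul_nonneg (hA0 Q) ?_
        apply (hb Q hQ).2.2.2.2.2.1
        apply hBfar Q hQ
        intro he
        exact h (hrel Q hQ Q0 hQ0 x hxQ0 he)
    show 1 ≤ ∑ Q ∈ C, A Q * B Q x
    rw [← Finset.add_sum_erase C _ hQ0]
    have h4 : ∑ Q ∈ C.erase Q0, (if r Q Q0 then -(a * A Q) else 0) ≤
        ∑ Q ∈ C.erase Q0, A Q * B Q x := by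
      refine Finset.sum_le_sum fun Q hQ => ?_
      rw [Finset.mem_erase] at hQ
      exact h2 Q hQ.2 hQ.1
    have h5 : ∑ Q ∈ C.erase Q0, (if r Q Q0 then -(a * A Q) else 0) =
        -(a * ∑ Q' ∈ C.filter (fun Q' => r Q' Q0), A Q') := by
      have h6 : ∑ Q ∈ C, (if r Q Q0 then -(a * A Q) else 0) =
          ∑ Q ∈ C.erase Q0, (if r Q Q0 then -(a * A Q) else 0) := by
        rw [← Finset.add_sum_erase C _ hQ0, if_neg hnr, zero_add]
      rw [← h6, ← Finset.sum_filter, Finset.sum_neg_distrib, Finset.mul_sum]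
    have h7 : A Q0 = 1 + a * ∑ Q' ∈ C.filter (fun Q' => r Q' Q0), A Q' := by
      rw [hA Q0]
      congr 2
      refine Finset.sum_congr ?_ fun _ _ => rfl
      ext; simp
    have h8 : A Q0 ≤ A Q0 * B Q0 x := by nlinarith [hA0 Q0]
    linarith
  · refine ⟨fun Q => if Q ∈ C then (fun x => (CL⁻¹ * (2:ℝ) ^ (-(Q.1:ℝ) * (α - n / p))) • B Q x)
      else 0, ?_, ?_⟩
    · intro Q
      by_cases hQ : Q ∈ C
      · simp only [hQ, if_true]; exact hatom Q hQ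
      · simp only [hQ, if_false]; exact hatom0 Q
    · intro φ hφ
      have h1 : ∫ x, (∑ Q ∈ C, A Q * B Q x) * φ x = ∑ Q ∈ C, A Q * ∫ x, B Q x * φ x := by
        simp_rw [Finset.sum_mul, mul_assoc]
        rw [integral_finsetSum]
        · refine Finset.sum_congr rfl fun Q _ => ?_
          rw [integral_const_mul]
        · intro Q hQ
          refine Integrable.const_mul ?_ _
          exact ((hBs Q hQ).continuous.mul hφ.1.continuous).integrable_of_hasCompactSupport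
            ((hBcs Q hQ).mul_right)
      rw [h1]
      have h2 : ∑ Q ∈ C, A Q * ∫ x, B Q x * φ x = ∑ Q ∈ C,
          (fun Q => (if Q ∈ C then A Q * CL * (2:ℝ) ^ ((Q.1:ℝ) * (α - n / p)) else 0) *
          ∫ x, (if Q ∈ C then (fun x => (CL⁻¹ * (2:ℝ) ^ (-(Q.1:ℝ) * (α - n / p))) • B Q x)
            else 0) x * φ x) Q := by
        refine Finset.sum_congr rfl fun Q hQ => ?_
        simp only [hQ, if_true]
        simp_rw [smul_eq_mul, mul_assoc (CL⁻¹ * (2:ℝ) ^ (-(Q.1:ℝ) * (α - n / p)))]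
        rw [integral_const_mul]
        have h3 : (2:ℝ) ^ ((Q.1:ℝ) * (α - n / p)) * (2:ℝ) ^ (-(Q.1:ℝ) * (α - n / p)) = 1 := by
          rw [← Real.rpow_add (by norm_num)]
          simp
        have h4 : A Q * CL * (2:ℝ) ^ ((Q.1:ℝ) * (α - n / p)) *
            (CL⁻¹ * (2:ℝ) ^ (-(Q.1:ℝ) * (α - n / p)) * ∫ x, B Q x * φ x) =
            A Q * (CL * CL⁻¹) * ((2:ℝ) ^ ((Q.1:ℝ) * (α - n / p)) *
              (2:ℝ) ^ (-(Q.1:ℝ) * (α - n / p))) * ∫ x, B Q x * φ x := by ring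
        rw [h4, h3, mul_inv_cancel₀ hCL.ne']
        ring
      rw [h2]
      refine hasSum_sum_of_ne_finset_zero ?_
      intro Q hQ
      simp only [hQ, if_false, zero_mul]
  · rw [besovSeq]
    have h1 : ∀ Q : Dy n, Q ∉ C → ENNReal.ofReal (|if Q ∈ C then A Q * CL *
        (2:ℝ) ^ ((Q.1:ℝ) * (α - n / p)) else 0| ^ p) = 0 := by
      intro Q hQ
      simp [hQ, Real.zero_rpow hp.ne']
    rw [tsum_eq_sum (s := C) (fun Q hQ => h1 Q hQ)]
    have h2 : ∀ Q ∈ C, ENNReal.ofReal (|if Q ∈ C then A Q * CL *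
        (2:ℝ) ^ ((Q.1:ℝ) * (α - n / p)) else 0| ^ p) =
        ENNReal.ofReal (CL ^ p * (A Q ^ p * wt t Q.1)) := by
      intro Q hQ
      simp only [hQ, if_true]
      congr 1
      have h3 : 0 < (2:ℝ) ^ ((Q.1:ℝ) * (α - n / p)) := Real.rpow_pos_of_pos (by norm_num) _
      rw [abs_of_nonneg (mul_nonneg (mul_nonneg (hA0 Q) hCL.le) h3.le),
        Real.mul_rpow (mul_nonneg (hA0 Q) hCL.le) h3.le, Real.mul_rpow (hA0 Q) hCL.le,
        ← Real.rpow_mul (by norm_num)]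
      have h4 : (Q.1:ℝ) * (α - n / p) * p = -(Q.1:ℝ) * t := by
        rw [ht]; field_simp; ring
      rw [h4, wt]
      ring
    rw [Finset.sum_congr rfl h2, ← ENNReal.ofReal_sum_of_nonneg]
    · apply ENNReal.ofReal_le_ofReal
      rw [← Finset.mul_sum]
      have h5 : 0 < CL ^ p := Real.rpow_pos_of_pos hCL _
      have h6 := mul_le_mul_of_nonneg_left (hsumA.trans
        (mul_le_mul_of_nonneg_left hCcost.le (by norm_num : (0:ℝ) ≤ 2))) h5.le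
      linarith
    · intro Q _
      have := Real.rpow_nonneg (hA0 Q) p
      have := wt_pos t Q.1
      positivity

end Pool.Agent.R222.BHB
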